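import Pool.Agent.MP_c481b3_nt.H63.Lc

/-! The theorem of Siegel for a family of real completely multiplicative functions. -/

namespace Pool.Agent.MP_c481b3_nt.H63

open Complex Metric Filter Topology ArithmeticFunction Finset
open scoped ComplexOrder

theorem cc_zeta : (fun n => cc (zeta : ArithmeticFunction ℝ) n) = fun n => ((zeta n : ℕ) : ℂ) := by
  ext n
  rw [cc_apply, natCoe_apply, ofReal_natCast]

theorem zeta_summable {s : ℂ} (hs : 1 < s.re) :
    LSeriesSummable (fun n => cc (zeta : ArithmeticFunction ℝ) n) s := by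
  rw [cc_zeta]
  exact LSeriesSummable_zeta_iff.2 hs

theorem zeta_series {s : ℂ} (hs : 1 < s.re) :
    LSeries (fun n => cc (zeta : ArithmeticFunction ℝ) n) s = riemannZeta s := by
  rw [cc_zeta]
  exact LSeries_zeta_eq_riemannZeta hs

theorem near_two : ∀ᶠ s in 𝓝 (2 : ℂ), s ∈ ball (2 : ℂ) (7 / 4) ∧ 1 < s.re :=
  Filter.Eventually.and (ball_mem_nhds _ (by norm_num))
    ((isOpen_lt continuous_const continuous_re).mem_nhds (by simp))

theorem absc {a : ℕ → ℂ} (h : ∀ s : ℂ, 1 < s.re → LSeriesSummable a s) {x : ℝ} (hx : 1 < x) :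
    LSeries.abscissaOfAbsConv a < x := by
  refine (h ((1 + x) / 2 : ℝ) (by rw [ofReal_re]; linarith)).abscissaOfAbsConv_le.trans_lt ?_
  rw [ofReal_re]
  exact_mod_cast (by linarith : (1 + x) / 2 < x)

theorem cc_nonneg {f : ArithmeticFunction ℝ} (h : ∀ n, 0 ≤ f n) : 0 ≤ fun n => cc f n := fun n => by
  simpa using h n

theorem Ch.summable2 {χ : ArithmeticFunction ℝ} {q : ℝ} (h : Ch χ q) (s : ℂ) (hs : 1 < s.re) :
    LSeriesSummable (fun n => cc (zeta * χ) n) s := by
  rw [cc_mul]
  exact LSeriesSummable_mul (zeta_summable hs) (h.summable hs)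

theorem Ch.series2 {χ : ArithmeticFunction ℝ} {q : ℝ} (h : Ch χ q) {s : ℂ}
    (h1 : s ∈ ball (2 : ℂ) (7 / 4)) (hs : 1 < s.re) :
    LSeries (fun n => cc (zeta * χ) n) s = riemannZeta s * Lc χ s := by
  rw [cc_mul, LSeries_mul' (zeta_summable hs) (h.summable hs), zeta_series hs, h.eq_LSeries h1 hs]

theorem Ch.continuousOn {χ : ArithmeticFunction ℝ} {q : ℝ} (h : Ch χ q) :
    ContinuousOn (fun β : ℝ => (Lc χ β).re) (Set.Icc (1 / 2) 2) :=
  continuous_re.comp_continuousOn (h.differentiableOn.continuousOn.comp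
    continuous_ofReal.continuousOn fun _ hβ => real_mem hβ.1 hβ.2)

theorem Ch.one_nonneg {χ : ArithmeticFunction ℝ} {q : ℝ} (h : Ch χ q) : 0 ≤ (Lc χ 1).re := by
  have h1 : ContinuousAt (fun β : ℝ => (Lc χ β).re) 1 :=
    h.continuousOn.continuousAt (Icc_mem_nhds (by norm_num) (by norm_num))
  have h2 : Tendsto (fun β : ℝ => (Lc χ β).re) (𝓝[>] 1) (𝓝 (Lc χ 1).re) := by
    simpa using h1.tendsto.mono_left nhdsWithin_le_nhds
  refine ge_of_tendsto h2 ?_
  filter_upwards [Ioo_mem_nhdsGT (show (1 : ℝ) < 2 by norm_num)] with β hβ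
  have h3 := LSeries.positive (cc_nonneg h.zeta_mul_nonneg) (by simp [h.one])
    (absc h.summable2 hβ.1)
  rw [h.series2 (real_mem (by linarith [hβ.1]) hβ.2.le) (by simpa using hβ.1)] at h3
  have h4 := (Complex.pos_iff.1 h3).1
  rw [mul_re, riemannZeta_im_eq_zero_of_one_lt hβ.1, zero_mul, sub_zero] at h4
  exact ((mul_pos_iff_of_pos_left (riemannZeta_re_pos_of_one_lt hβ.1)).1 h4).le

theorem sum_inv_eq (M : ℕ) : ∑ n ∈ range (M + 1), (n : ℝ)⁻¹ = harmonic M := by
  rw [sum_range_succ', harmonic]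
  simp

theorem Ch.one_abs_le {χ : ArithmeticFunction ℝ} {q : ℝ} (h : Ch χ q) :
    |(Lc χ 1).re| ≤ 3 + Real.log q := by
  have hq := h.one_le
  have h1 := h.tail (M := ⌊q⌋₊ + 1) (by omega)
  have h2 : 2 * q / ((⌊q⌋₊ + 1 : ℕ) : ℝ) ≤ 2 := by
    rw [div_le_iff₀ (by positivity)]
    push_cast
    linarith [Nat.lt_floor_add_one q]
  have h3 : |∑ n ∈ range (⌊q⌋₊ + 1), χ n / n| ≤ 1 + Real.log q := by
    refine (abs_sum_le_sum_abs _ _).trans ?_
    refine (sum_le_sum (g := fun n : ℕ => (n : ℝ)⁻¹) fun n _ => ?_).trans ?_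
    · rw [abs_div, Nat.abs_cast, ← one_div]
      exact div_le_div_of_nonneg_right (h.abs n) (by positivity)
    · rw [sum_inv_eq]
      refine (harmonic_le_one_add_log _).trans ?_
      have : (1 : ℝ) ≤ ⌊q⌋₊ := by exact_mod_cast (Nat.one_le_floor_iff q).2 hq
      linarith [Real.log_le_log (by linarith) (Nat.floor_le (by linarith : 0 ≤ q))]
  have h4 := abs_add_le ((Lc χ 1).re - ∑ n ∈ range (⌊q⌋₊ + 1), χ n / n)
    (∑ n ∈ range (⌊q⌋₊ + 1), χ n / n)
  rw [sub_add_cancel] at h4
  linarith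

theorem exp_bound {δ t A q : ℝ} (k : ℕ) (ht : t ≤ δ) (hA : 1 ≤ A) (hq : 1 ≤ q) :
    Real.exp (-(δ * (6 * Real.log A + 1))) * q ^ (-(6 * k * δ)) ≤
      Real.exp (-(t * (6 * Real.log (A * q ^ k) + 1))) := by
  rw [Real.rpow_def_of_pos (by linarith), ← Real.exp_add, Real.log_mul (by linarith) (by positivity),
    Real.log_pow]
  refine Real.exp_le_exp.2 ?_
  have h1 := Real.log_nonneg hA
  have h2 : 0 ≤ (k : ℝ) * Real.log q := mul_nonneg (by positivity) (Real.log_nonneg hq)
  nlinarith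

theorem siegel_abs {ι : Type*} (χ : ι → ArithmeticFunction ℝ) (q : ι → ℝ)
    (h : ∀ i, Ch (χ i) (q i)) (h0 : ∀ i, Lc (χ i) 1 ≠ 0)
    (hp : ∀ i j, i ≠ j → Ch (pmul (χ i) (χ j)) (q i * q j)) {ε : ℝ} (hε : 0 < ε) :
    ∃ c : ℝ, 0 < c ∧ ∀ i, c * q i ^ (-ε) ≤ (Lc (χ i) 1).re := by
  obtain ⟨K, hK, hest⟩ := est
  obtain ⟨B, hB, hbd⟩ := exists_bound
  have hpos : ∀ i, 0 < (Lc (χ i) 1).re := fun i =>
    lt_of_le_of_ne (h i).one_nonneg fun h1 => h0 i (Complex.ext h1.symm (by
      simpa using (h i).im_eq_zero (β := 1) (by norm_num) (by norm_num)))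
  set δ : ℝ := min (1 / K) (ε / 13) with hδ
  have hδ0 : 0 < δ := lt_min (by positivity) (by positivity)
  have hδK : δ ≤ 1 / K := min_le_left _ _
  have hδε : δ ≤ ε / 13 := min_le_right _ _
  have hδ4 : δ ≤ 1 / 4 := hδK.trans (one_div_le_one_div_of_le (by norm_num) hK)
  by_cases hc : ∀ i, 0 ≤ (Lc (χ i) (1 - δ : ℝ)).re
  · refine ⟨δ / 2 * Real.exp (-(δ * (6 * Real.log (K * B) + 1))), by positivity, fun i => ?_⟩
    have hq := (h i).one_le
    have h1 := hest (Lc (χ i)) (fun n => cc (zeta * χ i) n) (B * q i) (1 - δ)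
      (h i).differentiableOn (hbd _ _ (h i)) (by nlinarith) (cc_nonneg (h i).zeta_mul_nonneg)
      (by simp [(h i).one]) (absc (h i).summable2 (by norm_num))
      (near_two.mono fun s hs => (h i).series2 hs.1 hs.2) (by linarith) (by linarith)
      (Complex.le_def.2 ⟨hc i, ((h i).im_eq_zero (by linarith) (by linarith)).symm⟩)
    rw [sub_sub_cancel] at h1
    refine le_trans ?_ h1
    rw [mul_assoc]
    refine mul_le_mul_of_nonneg_left ?_ (by positivity)
    have h2 := exp_bound (A := K * B) (δ := δ) 1 le_rfl (by nlinarith) hq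
    rw [pow_one, mul_assoc K] at h2
    refine le_trans (mul_le_mul_of_nonneg_left ?_ (by positivity)) h2
    exact Real.rpow_le_rpow_of_exponent_le hq (by push_cast; linarith)
  · obtain ⟨j, hj⟩ := not_forall.1 hc
    obtain ⟨β, hβ, hβ0⟩ : ∃ β ∈ Set.Ioo (1 - δ) 1, (Lc (χ j) (β : ℝ)).re = 0 :=
      intermediate_value_Ioo (f := fun β : ℝ => (Lc (χ j) β).re) (by linarith)
        ((h j).continuousOn.mono (Set.Icc_subset_Icc (by linarith) (by norm_num)))
        ⟨not_le.1 hj, by simpa using hpos j⟩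
    have hz : Lc (χ j) β = 0 :=
      Complex.ext hβ0 ((h j).im_eq_zero (by linarith [hβ.1]) (by linarith [hβ.2]))
    have hqj := (h j).one_le
    have hβp : 0 < 1 - β := by linarith [hβ.2]
    set A : ℝ := K * (B ^ 3 * q j ^ 2) with hA
    have hA1 : 1 ≤ A := by
      have := one_le_mul_of_one_le_of_one_le (one_le_pow₀ (n := 3) hB) (one_le_pow₀ (n := 2) hqj)
      nlinarith
    set D : ℝ := (3 + Real.log (q j)) * (3 + Real.log (q j) + 1 / δ) with hD
    have hlj := Real.log_nonneg hqj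
    have hD0 : 0 < D := by positivity
    refine ⟨min ((1 - β) / 2 * Real.exp (-(δ * (6 * Real.log A + 1))) / D) (Lc (χ j) 1).re,
      lt_min (by positivity) (hpos j), fun i => ?_⟩
    have hq := (h i).one_le
    by_cases hij : i = j
    · subst hij
      refine le_trans (mul_le_mul (min_le_right _ _) (Real.rpow_le_one_of_one_le_of_nonpos hq
        (by linarith)) (by positivity) (hpos i).le) (by rw [mul_one])
    have h3 := hp i j hij
    have hs4 : ∀ s : ℂ, 1 < s.re →
        LSeriesSummable (fun n => cc (zeta * (χ i * (χ j * pmul (χ i) (χ j)))) n) s := by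
      intro s hs
      rw [cc_mul, cc_mul, cc_mul]
      exact LSeriesSummable_mul (zeta_summable hs) (LSeriesSummable_mul ((h i).summable hs)
        (LSeriesSummable_mul ((h j).summable hs) (h3.summable hs)))
    have h1 := hest (fun s => Lc (χ i) s * (Lc (χ j) s * Lc (pmul (χ i) (χ j)) s))
      (fun n => cc (zeta * (χ i * (χ j * pmul (χ i) (χ j)))) n) (B ^ 3 * q j ^ 2 * q i ^ 2) β
      ((h i).differentiableOn.mul ((h j).differentiableOn.mul h3.differentiableOn))
      (fun s hs => by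
        rw [norm_mul, norm_mul]
        calc _ ≤ B * q i * (B * q j * (B * (q i * q j))) :=
              mul_le_mul (hbd _ _ (h i) s hs) (mul_le_mul (hbd _ _ (h j) s hs) (hbd _ _ h3 s hs)
                (norm_nonneg _) (by positivity)) (by positivity) (by positivity)
          _ = _ := by ring)
      (one_le_mul_of_one_le_of_one_le (one_le_mul_of_one_le_of_one_le (one_le_pow₀ hB)
        (one_le_pow₀ hqj)) (one_le_pow₀ hq))
      (cc_nonneg ((h i).four_nonneg (h j))) (by simp [(h i).one, (h j).one])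
      (absc hs4 (by norm_num))
      (near_two.mono fun s hs => by
        rw [cc_mul, cc_mul, cc_mul, LSeries_mul' (zeta_summable hs.2)
          (LSeriesSummable_mul ((h i).summable hs.2)
            (LSeriesSummable_mul ((h j).summable hs.2) (h3.summable hs.2))),
          LSeries_mul' ((h i).summable hs.2)
            (LSeriesSummable_mul ((h j).summable hs.2) (h3.summable hs.2)),
          LSeries_mul' ((h j).summable hs.2) (h3.summable hs.2), zeta_series hs.2,
          (h i).eq_LSeries hs.1 hs.2, (h j).eq_LSeries hs.1 hs.2, h3.eq_LSeries hs.1 hs.2])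
      (by linarith [hβ.1]) hβ.2 (by simp [hz])
    have i1 : (Lc (χ i) 1).im = 0 := by
      simpa using (h i).im_eq_zero (β := 1) (by norm_num) (by norm_num)
    have i2 : (Lc (χ j) 1).im = 0 := by
      simpa using (h j).im_eq_zero (β := 1) (by norm_num) (by norm_num)
    simp only [mul_re, i1, i2, zero_mul, sub_zero] at h1
    have h2 := exp_bound (A := A) (δ := δ) (t := 1 - β) 2 (by linarith [hβ.1]) hA1 hq
    have e1 : A * q i ^ 2 = K * (B ^ 3 * q j ^ 2 * q i ^ 2) := by rw [hA]; ring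
    rw [e1] at h2
    have hqδ : 1 ≤ q i ^ δ := Real.one_le_rpow hq hδ0.le
    have h4 : (Lc (χ j) 1).re * (Lc (pmul (χ i) (χ j)) 1).re ≤ D * q i ^ δ := by
      have h5 := (h j).one_abs_le
      have h6 := h3.one_abs_le
      rw [Real.log_mul (by linarith) (by linarith)] at h6
      have h7 := Real.log_le_rpow_div (show 0 ≤ q i by linarith) hδ0
      have h8 : |(Lc (pmul (χ i) (χ j)) 1).re| ≤ (3 + Real.log (q j) + 1 / δ) * q i ^ δ := by
        rw [div_eq_mul_one_div] at h7
        nlinarith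
      refine (le_abs_self _).trans ?_
      rw [abs_mul, hD, mul_assoc]
      exact mul_le_mul h5 h8 (abs_nonneg _) (by positivity)
    have h5 : (1 - β) / 2 * (Real.exp (-(δ * (6 * Real.log A + 1))) * q i ^ (-(6 * (2 : ℕ) * δ))) ≤
        (Lc (χ i) 1).re * (D * q i ^ δ) :=
      ((mul_le_mul_of_nonneg_left h2 (by positivity)).trans h1).trans
        (mul_le_mul_of_nonneg_left h4 (hpos i).le)
    have h6 : q i ^ (-ε) * q i ^ δ ≤ q i ^ (-(6 * (2 : ℕ) * δ)) := by
      rw [← Real.rpow_add (by linarith)]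
      exact Real.rpow_le_rpow_of_exponent_le hq (by push_cast; linarith)
    refine (mul_le_mul_of_nonneg_right (min_le_left _ _) (by positivity)).trans ?_
    refine le_of_mul_le_mul_right (le_trans ?_ h5) (show 0 < D * q i ^ δ by positivity)
    calc _ = (1 - β) / 2 * (Real.exp (-(δ * (6 * Real.log A + 1))) * (q i ^ (-ε) * q i ^ δ)) := by
          field_simp
      _ ≤ _ := by gcongr

theorem sum_Ioc_eq (F : ℕ → ℝ) (hF : F 0 = 0) (N : ℕ) :
    ∑ n ∈ Ioc 0 N, F n = ∑ n ∈ range (N + 1), F n := by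
  induction N with
  | zero => simp [hF]
  | succ N ih => rw [sum_Ioc_succ_top N.zero_le, ih, sum_range_succ _ (N + 1)]

theorem harm_approx {N d : ℕ} (hd : 0 < d) (hN : d ≤ N) :
    |∑ m ∈ Ioc 0 (N / d), (m : ℝ)⁻¹ -
      (Real.log N + Real.eulerMascheroniConstant - Real.log d)| ≤ 2 * d / N := by
  set k := N / d with hk
  have hk1 : 1 ≤ k := (Nat.one_le_div_iff hd).2 hN
  have hH : ∑ m ∈ Ioc 0 k, (m : ℝ)⁻¹ = harmonic k := by
    rw [← sum_inv_eq, sum_Ioc_eq _ (by simp)]
  have h1 := Real.eulerMascheroniSeq_lt_eulerMascheroniConstant k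
  have h2 := Real.eulerMascheroniConstant_lt_eulerMascheroniSeq' k
  rw [Real.eulerMascheroniSeq] at h1
  rw [Real.eulerMascheroniSeq', if_neg (by omega)] at h2
  have hd' : (0 : ℝ) < d := by exact_mod_cast hd
  have hN' : (0 : ℝ) < N := by exact_mod_cast hd.trans_le hN
  have hk' : (1 : ℝ) ≤ k := by exact_mod_cast hk1
  have h3 : (k : ℝ) * d ≤ N := by exact_mod_cast Nat.div_mul_le_self N d
  have h4 : (N : ℝ) ≤ (k + 1) * d := by
    have : N ≤ (k + 1) * d := by
      rw [hk, mul_comm]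
      exact (Nat.lt_mul_div_succ N hd).le
    exact_mod_cast this
  have h5 : Real.log k + Real.log d ≤ Real.log N := by
    rw [← Real.log_mul (by linarith) hd'.ne']
    exact Real.log_le_log (by positivity) h3
  have h6 : Real.log N ≤ Real.log (k + 1) + Real.log d := by
    rw [← Real.log_mul (by linarith) hd'.ne']
    exact Real.log_le_log hN' h4
  have h7 : Real.log (k + 1) - Real.log k ≤ 2 * d / N := by
    rw [← Real.log_div (by linarith) (by linarith)]
    refine (Real.log_le_sub_one_of_pos (by positivity)).trans ?_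
    rw [div_sub_one (by linarith), div_le_div_iff₀ (by linarith) hN']
    nlinarith
  rw [hH, abs_le]
  constructor <;> linarith

theorem Ch.sum_lower {χ : ArithmeticFunction ℝ} {q : ℝ} (h : Ch χ q) (hq : 2 ≤ q) {N : ℕ}
    (hN : q ^ 2 ≤ N) : (Lc χ 1).re * Real.log N - 10 * Real.log (3 * q) ^ 2 ≤
      ∑ n ∈ Ioc 0 N, ((zeta : ArithmeticFunction ℝ) * χ) n / n := by
  have hN4 : (4 : ℝ) ≤ N := by nlinarith
  let f : ArithmeticFunction ℝ := ⟨fun n => χ n / n, by simp⟩
  let g : ArithmeticFunction ℝ := ⟨fun n => (n : ℝ)⁻¹, by simp⟩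
  have h1 : ∀ n, ((zeta : ArithmeticFunction ℝ) * χ) n / n = (f * g) n := by
    intro n
    rw [mul_comm, mul_apply, mul_apply, sum_div]
    refine sum_congr rfl fun x hx => ?_
    obtain ⟨h4, h5⟩ := Nat.mem_divisorsAntidiagonal.1 hx
    have hb : x.2 ≠ 0 := fun h => h5 (by rw [← h4, h, mul_zero])
    simp only [f, g, coe_mk, natCoe_apply, zeta_apply_ne hb, Nat.cast_one, mul_one]
    rw [← h4, Nat.cast_mul, div_mul_eq_div_div, div_eq_mul_inv]
  simp only [h1]
  rw [sum_Ioc_mul_eq_sum_sum]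
  simp only [f, g, coe_mk]
  set γ := Real.eulerMascheroniConstant
  have hγ0 : 0 ≤ γ := by linarith [Real.one_half_lt_eulerMascheroniConstant]
  have hγ1 : γ ≤ 1 := by linarith [Real.eulerMascheroniConstant_lt_two_thirds]
  have hE : |∑ d ∈ Ioc 0 N, χ d / d * (∑ m ∈ Ioc 0 (N / d), (m : ℝ)⁻¹ -
      (Real.log N + γ - Real.log d))| ≤ 2 := by
    refine (abs_sum_le_sum_abs _ _).trans ?_
    refine (sum_le_card_nsmul _ _ (2 / N : ℝ) fun d hd => ?_).trans ?_
    · obtain ⟨hd0, hdN⟩ := mem_Ioc.1 hd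
      have hd' : (0 : ℝ) < d := by exact_mod_cast hd0
      rw [abs_mul, abs_div, Nat.abs_cast]
      calc _ ≤ (1 : ℝ) / d * (2 * d / N) := mul_le_mul (div_le_div_of_nonneg_right (h.abs d) hd'.le)
            (harm_approx hd0 hdN) (abs_nonneg _) (by positivity)
        _ = 2 / N := by field_simp
    · rw [Nat.card_Ioc, nsmul_eq_mul, Nat.sub_zero, mul_div_cancel₀ _ (by linarith)]
  have hP := h.tail (M := N + 1) (by omega)
  set M := ⌊q⌋₊ + 3 with hM
  have hMq : q ≤ M := by rw [hM]; push_cast; linarith [Nat.lt_floor_add_one q]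
  have hM3 : (M : ℝ) ≤ 3 * q := by
    rw [hM]; push_cast; linarith [Nat.floor_le (show 0 ≤ q by linarith)]
  have hM1 : (3 : ℝ) ≤ M := by rw [hM]; push_cast; linarith [Nat.cast_nonneg (α := ℝ) ⌊q⌋₊]
  have hMN : M ≤ N + 1 := by
    have : (M : ℝ) ≤ (N + 1 : ℕ) := by
      rw [hM]; push_cast; nlinarith [Nat.floor_le (show 0 ≤ q by linarith)]
    exact_mod_cast this
  have hl0 : 0 ≤ Real.log M := Real.log_nonneg (by linarith)
  have hl1 : Real.log M ≤ Real.log (3 * q) := Real.log_le_log (by linarith) hM3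
  have hl2 : 1 ≤ Real.log (3 * q) := by
    rw [Real.le_log_iff_exp_le (by linarith)]
    linarith [Real.exp_one_lt_d9]
  have hT : |∑ d ∈ range (N + 1), χ d * (Real.log d / d)| ≤ Real.log M * (3 + Real.log M) := by
    rw [← sum_range_add_sum_Ico _ hMN]
    refine (abs_add_le _ _).trans ?_
    have he : ∀ n : ℕ, M ≤ n → (n : ℝ) ∈ Set.Ici (Real.exp 1) := fun n hn => by
      have : (M : ℝ) ≤ n := by exact_mod_cast hn
      exact Set.mem_Ici.2 (by linarith [Real.exp_one_lt_d9])
    have h2 := h.abel (fun n => Real.log n / n) M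
      (fun n hn => Real.log_div_self_antitoneOn (he n hn) (he (n + 1) (by omega))
        (by push_cast; linarith))
      (fun n _ => div_nonneg (Real.log_natCast_nonneg n) (by positivity)) (N + 1) hMN
    have h3 : 2 * q * (Real.log M / M) ≤ 2 * Real.log M := by
      rw [mul_assoc, mul_div_assoc', mul_comm q, mul_div_assoc]
      exact mul_le_mul_of_nonneg_left (mul_le_of_le_one_right hl0
        ((div_le_one (by linarith)).2 hMq)) (by norm_num)
    have h4 : |∑ d ∈ range M, χ d * (Real.log d / d)| ≤ Real.log M * (1 + Real.log M) := by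
      refine (abs_sum_le_sum_abs _ _).trans ?_
      refine (sum_le_sum (g := fun n : ℕ => Real.log M * (n : ℝ)⁻¹) fun n hn => ?_).trans ?_
      · rw [abs_mul, abs_of_nonneg (div_nonneg (Real.log_natCast_nonneg n) (Nat.cast_nonneg n))]
        refine (mul_le_of_le_one_left (div_nonneg (Real.log_natCast_nonneg n) (Nat.cast_nonneg n))
          (h.abs n)).trans ?_
        rw [div_eq_mul_inv]
        refine mul_le_mul_of_nonneg_right ?_ (by positivity)
        rcases Nat.eq_zero_or_pos n with rfl | hn0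
        · simpa using hl0
        · exact Real.log_le_log (by exact_mod_cast hn0) (by exact_mod_cast (mem_range.1 hn).le)
      · rw [← mul_sum]
        refine mul_le_mul_of_nonneg_left ?_ hl0
        refine le_trans (sum_le_sum_of_subset_of_nonneg (range_mono M.le_succ)
          fun _ _ _ => by positivity) ?_
        rw [sum_inv_eq]
        exact harmonic_le_one_add_log _
    linarith
  have hid : ∑ d ∈ Ioc 0 N, χ d / d * ∑ m ∈ Ioc 0 (N / d), (m : ℝ)⁻¹ =
      (Real.log N + γ) * ∑ d ∈ range (N + 1), χ d / d -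
        ∑ d ∈ range (N + 1), χ d * (Real.log d / d) +
      ∑ d ∈ Ioc 0 N, χ d / d * (∑ m ∈ Ioc 0 (N / d), (m : ℝ)⁻¹ -
        (Real.log N + γ - Real.log d)) := by
    rw [← sum_Ioc_eq _ (by simp), ← sum_Ioc_eq _ (by simp), mul_sum, ← sum_sub_distrib, ← sum_add_distrib]
    exact sum_congr rfl fun d _ => by ring
  rw [hid]
  have hlN : 0 ≤ Real.log N := Real.log_natCast_nonneg N
  have h5 : (Real.log N + γ) * (2 * q / ((N + 1 : ℕ) : ℝ)) ≤ 4 := by
    have h6 : q ≤ Real.sqrt N := Real.le_sqrt_of_sq_le hN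
    have h7 : Real.log N ≤ 2 * (Real.sqrt N - 1) := by
      have := Real.log_le_sub_one_of_pos (Real.sqrt_pos.2 (show (0 : ℝ) < N by linarith))
      rw [Real.log_sqrt (by linarith)] at this
      linarith
    have h8 := Real.mul_self_sqrt (show (0 : ℝ) ≤ N by linarith)
    rw [mul_div_assoc', div_le_iff₀ (by positivity)]
    push_cast
    have h9 : (Real.log N + γ) * (2 * q) ≤ (2 * Real.sqrt N) * (2 * Real.sqrt N) :=
      mul_le_mul (by linarith) (by linarith) (by linarith) (by positivity)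
    nlinarith
  have h6 := mul_le_mul_of_nonneg_left (abs_le.1 hP).2 (show 0 ≤ Real.log N + γ by linarith)
  have h7 := mul_nonneg hγ0 h.one_nonneg
  have h8 := (abs_le.1 hT).2
  have h9 := (abs_le.1 hE).1
  have h10 : Real.log M * (3 + Real.log M) ≤ Real.log (3 * q) * (3 + Real.log (3 * q)) :=
    mul_le_mul hl1 (by linarith) (by linarith) (by linarith)
  nlinarith

end Pool.Agent.MP_c481b3_nt.H63
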