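import Pool.Agent.MP_c481b3_nt.H63.SiegelA

/-! The theorem of Siegel for the characters attached to the discriminants `-4p`. -/

namespace Pool.Agent.MP_c481b3_nt.H63

open Complex Metric Filter Topology ArithmeticFunction Finset

/-- the Jacobi symbol as a function of the lower entry, zero at even numbers -/
def jz (a : ℤ) (n : ℕ) : ℤ := if Odd n then jacobiSym a n else 0

theorem jz_mul (a : ℤ) (m n : ℕ) : jz a (m * n) = jz a m * jz a n := by
  unfold jz
  by_cases hm : Odd m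
  · by_cases hn : Odd n
    · rw [if_pos (hm.mul hn), if_pos hm, if_pos hn, jacobiSym.mul_right' a hm.pos.ne' hn.pos.ne']
    · rw [if_neg fun h => hn (Nat.Odd.of_mul_right h), if_neg hn, mul_zero]
  · rw [if_neg fun h => hm (Nat.Odd.of_mul_left h), if_neg hm, zero_mul]

theorem jz_mul_left (a b : ℤ) (n : ℕ) : jz (a * b) n = jz a n * jz b n := by
  unfold jz
  split_ifs
  · exact jacobiSym.mul_left a b n
  · simp

theorem jz_one (a : ℤ) : jz a 1 = 1 := by simp [jz]

theorem jz_mod (a : ℤ) (n : ℕ) : jz a (n % (4 * a.natAbs)) = jz a n := by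
  unfold jz
  have h : Odd (n % (4 * a.natAbs)) ↔ Odd n := by
    rw [Nat.odd_iff, Nat.odd_iff, Nat.mod_mod_of_dvd n (Dvd.intro (2 * a.natAbs) (by ring))]
  by_cases hn : Odd n
  · rw [if_pos (h.2 hn), if_pos hn, ← jacobiSym.mod_right a hn]
  · rw [if_neg fun h1 => hn (h.1 h1), if_neg hn]

theorem jz_abs (a : ℤ) (n : ℕ) : |jz a n| ≤ 1 := by
  unfold jz
  split_ifs
  · rcases jacobiSym.trichotomy a n with h | h | h <;> simp [h]
  · simp

/-- the Dirichlet character given by the Jacobi symbol -/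
noncomputable def jc (a : ℤ) [NeZero (4 * a.natAbs)] : DirichletCharacter ℂ (4 * a.natAbs) where
  toFun x := (jz a x.val : ℂ)
  map_one' := by
    rw [ZMod.val_one_eq_one_mod, jz_mod, jz_one, Int.cast_one]
  map_mul' x y := by rw [ZMod.val_mul, jz_mod, jz_mul, Int.cast_mul]
  map_nonunit' x hx := by
    rw [← ZMod.natCast_zmod_val x, ZMod.isUnit_iff_coprime] at hx
    rw [Int.cast_eq_zero, jz]
    split_ifs with h
    · have : NeZero x.val := ⟨h.pos.ne'⟩
      rw [jacobiSym.eq_zero_iff_not_coprime]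
      intro h1
      refine hx (Nat.Coprime.mul_right ?_ ?_)
      · exact Nat.Coprime.pow_right 2 (Nat.coprime_two_right.2 h)
      · rw [Int.gcd_eq_natAbs, Int.natAbs_natCast] at h1
        exact Nat.Coprime.symm h1
    · rfl

theorem jc_apply (a : ℤ) [NeZero (4 * a.natAbs)] (n : ℕ) : jc a n = jz a n := by
  change (jz a (n : ZMod (4 * a.natAbs)).val : ℂ) = _
  rw [ZMod.val_natCast, jz_mod]

theorem jc_ne_one {a : ℤ} [NeZero (4 * a.natAbs)] (h : ∃ n, jz a n = -1) : jc a ≠ 1 := by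
  obtain ⟨n, hn⟩ := h
  intro h1
  have h2 := jc_apply a n
  rw [hn, h1] at h2
  by_cases h3 : IsUnit (n : ZMod (4 * a.natAbs))
  · rw [MulChar.one_apply h3] at h2
    norm_num at h2
  · rw [MulChar.map_nonunit _ h3] at h2
    norm_num at h2

/-- the real valued arithmetic function -/
def ja (a : ℤ) : ArithmeticFunction ℝ := ⟨fun n => jz a n, by simp [jz]⟩

theorem ja_apply (a : ℤ) (n : ℕ) : ja a n = jz a n := rfl

theorem ja_mul (a b : ℤ) : pmul (ja a) (ja b) = ja (a * b) := by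
  ext n
  rw [pmul_apply, ja_apply, ja_apply, ja_apply, jz_mul_left, Int.cast_mul]

theorem ja_ch {a : ℤ} (ha : a ≠ 0) (h : ∃ n, jz a n = -1) : Ch (ja a) (4 * a.natAbs : ℕ) := by
  have : NeZero (4 * a.natAbs) := ⟨by simpa using ha⟩
  refine ⟨by simp [ja_apply, jz_one], fun m n => by simp only [ja_apply, jz_mul, Int.cast_mul],
    fun n => by rw [ja_apply]; exact_mod_cast jz_abs a n, fun N => ?_⟩
  set T := 4 * a.natAbs with hT
  have h0 : ∑ k ∈ range T, jz a k = 0 := by
    have h1 := MulChar.sum_eq_zero_of_ne_one (jc_ne_one h)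
    have h2 : ∑ x : ZMod T, jc a x = ∑ k ∈ range T, (jz a k : ℂ) := by
      refine (sum_bij (s := range T) (fun (k : ℕ) _ => (k : ZMod T)) (fun _ _ => mem_univ _) (fun k hk l hl hkl => ?_)
        (fun x _ => ⟨x.val, mem_range.2 (ZMod.val_lt x), ZMod.natCast_zmod_val x⟩)
        fun k _ => (jc_apply a k).symm).symm
      have := congrArg ZMod.val hkl
      rwa [ZMod.val_cast_of_lt (mem_range.1 hk), ZMod.val_cast_of_lt (mem_range.1 hl)] at this
    rw [h2] at h1
    exact_mod_cast h1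
  have h1 : ∀ k r, ∑ n ∈ range (T * k + r), jz a n = ∑ n ∈ range r, jz a n := by
    intro k r
    induction k with
    | zero => simp
    | succ k ih =>
      rw [show T * (k + 1) + r = T + (T * k + r) by ring, sum_range_add, h0, zero_add, ← ih]
      refine sum_congr rfl fun n _ => ?_
      rw [← jz_mod, ← hT, Nat.add_mod_left, hT, jz_mod]
  have h2 : |∑ n ∈ range N, jz a n| ≤ T := by
    rw [← Nat.div_add_mod N T, h1]
    refine (abs_sum_le_sum_abs _ _).trans ((sum_le_card_nsmul _ _ 1 fun n _ => jz_abs a n).trans ?_)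
    rw [card_range, nsmul_eq_mul, mul_one]
    exact_mod_cast (Nat.mod_lt N (NeZero.pos T)).le
  simp only [ja_apply]
  exact_mod_cast h2

theorem ja_ne_zero {a : ℤ} (ha : a ≠ 0) (h : ∃ n, jz a n = -1) : Lc (ja a) 1 ≠ 0 := by
  have : NeZero (4 * a.natAbs) := ⟨by simpa using ha⟩
  have hc := ja_ch ha h
  have h1 : Set.EqOn (Lc (ja a)) (DirichletCharacter.LFunction (jc a)) (ball 2 (7 / 4)) := by
    refine (hc.differentiableOn.analyticOnNhd isOpen_ball).eqOn_of_preconnected_of_eventuallyEq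
      ((DirichletCharacter.differentiable_LFunction (jc_ne_one h)).differentiableOn.analyticOnNhd
        isOpen_ball) (convex_ball _ _).isPreconnected (mem_ball_self (by norm_num)) ?_
    filter_upwards [near_two] with s hs
    rw [← hc.eq_LSeries hs.1 hs.2, DirichletCharacter.LFunction_eq_LSeries _ hs.2]
    refine LSeries_congr (fun {n} _ => ?_) s
    rw [jc_apply, cc_apply, ja_apply, ofReal_intCast]
  have h2 := h1 (real_mem (β := 1) (by norm_num) (by norm_num))
  rw [ofReal_one] at h2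
  rw [h2]
  exact DirichletCharacter.LFunction_apply_one_ne_zero (jc_ne_one h)

theorem exists_neg {p m : ℕ} (hp : p.Prime) (h2 : p ≠ 2) (hm : (4 * m).Coprime p) :
    ∃ n : ℕ, n % 4 = 1 ∧ n ≡ 1 [MOD m] ∧ jacobiSym p n = -1 := by
  have := Fact.mk hp
  obtain ⟨x, hx⟩ := FiniteField.exists_nonsquare (F := ZMod p) (by rwa [ZMod.ringChar_zmod_n])
  obtain ⟨n, hn1, hn2⟩ := Nat.chineseRemainder hm 1 x.val
  have h4 : n % 4 = 1 := (hn1.of_mul_right m : n ≡ 1 [MOD 4])
  refine ⟨n, h4, hn1.of_mul_left 4, ?_⟩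
  rw [jacobiSym.quadratic_reciprocity_one_mod_four' (hp.odd_of_ne_two h2) h4,
    ← jacobiSym.legendreSym.to_jacobiSym, legendreSym.eq_neg_one_iff]
  have : ((n : ℤ) : ZMod p) = x := by
    rw [Int.cast_natCast, (ZMod.natCast_eq_natCast_iff _ _ _).2 hn2, ZMod.natCast_zmod_val]
  rwa [this]

theorem coprime_four {p m : ℕ} (hp : p.Prime) (h2 : p ≠ 2) (hm : m.Coprime p) :
    (4 * m).Coprime p :=
  Nat.Coprime.mul_left (Nat.Coprime.pow_left 2 (Nat.coprime_two_left.2 (hp.odd_of_ne_two h2))) hm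

theorem neg_prime {p : ℕ} (hp : p.Prime) (h2 : p ≠ 2) : ∃ n, jz (-p) n = -1 := by
  obtain ⟨n, h1, -, h3⟩ := exists_neg hp h2 (coprime_four hp h2 (Nat.coprime_one_left p))
  have ho : Odd n := Nat.odd_iff.2 (by omega)
  exact ⟨n, by rw [jz, if_pos ho, jacobiSym.neg _ ho, ZMod.χ₄_nat_one_mod_four h1, h3, one_mul]⟩

theorem two_primes {p r : ℕ} (hp : p.Prime) (h2 : p ≠ 2) (hr : r.Prime) (h2' : r ≠ 2) (h : p ≠ r) :
    ∃ n, jz (-p * -r) n = -1 := by
  obtain ⟨n, h1, h4, h3⟩ := exists_neg hp h2 (coprime_four hp h2 ((Nat.coprime_primes hr hp).2 h.symm))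
  have ho : Odd n := Nat.odd_iff.2 (by omega)
  refine ⟨n, ?_⟩
  have h5 : jacobiSym n r = jacobiSym 1 r := by
    refine jacobiSym.mod_left' ?_
    exact_mod_cast Int.natCast_modEq_iff.2 h4
  rw [neg_mul_neg, jz, if_pos ho, jacobiSym.mul_left, h3,
    jacobiSym.quadratic_reciprocity_one_mod_four' (hr.odd_of_ne_two h2') h1, h5, jacobiSym.one_left,
    mul_one]

theorem ch_prime {p : ℕ} (hp : p.Prime) (h2 : p ≠ 2) : Ch (ja (-p)) (4 * p) := by
  simpa using ja_ch (a := -p) (by simpa using hp.ne_zero) (neg_prime hp h2)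

/-- the theorem of Siegel for the value at one -/
theorem siegel_value {ε : ℝ} (hε : 0 < ε) : ∃ c : ℝ, 0 < c ∧ ∀ p : ℕ, p.Prime → p ≠ 2 →
    c * (p : ℝ) ^ (-ε) ≤ (Lc (ja (-p)) 1).re := by
  obtain ⟨c, hc, h⟩ := siegel_abs (ι := {p : ℕ // p.Prime ∧ p ≠ 2}) (fun p => ja (-p.1))
    (fun p => 4 * p.1) (fun p => ch_prime p.2.1 p.2.2)
    (fun p => ja_ne_zero (by simpa using p.2.1.ne_zero) (neg_prime p.2.1 p.2.2))
    (fun p r hpr => by
      rw [ja_mul]
      refine (ja_ch (by simp [p.2.1.ne_zero, r.2.1.ne_zero])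
        (two_primes p.2.1 p.2.2 r.2.1 r.2.2 fun h => hpr (Subtype.ext h))).mono ?_
      rw [neg_mul_neg, ← Nat.cast_mul, Int.natAbs_natCast]
      push_cast
      nlinarith [mul_nonneg (Nat.cast_nonneg (α := ℝ) p.1) (Nat.cast_nonneg (α := ℝ) r.1)]) hε
  refine ⟨c * 4 ^ (-ε), by positivity, fun p hp h2 => ?_⟩
  have := h ⟨p, hp, h2⟩
  rwa [Real.mul_rpow (by norm_num) (by positivity), ← mul_assoc] at this

/-- the theorem of Siegel in the form needed for the sieve -/
theorem siegel {ε : ℝ} (hε : 0 < ε) : ∃ c C : ℝ, 0 < c ∧ 0 ≤ C ∧ ∀ p N : ℕ, p.Prime → p ≠ 2 →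
    c * (p : ℝ) ^ (-ε) * Real.log N - C * Real.log p ^ 2 ≤
      ∑ n ∈ Ioc 0 N, ((∑ d ∈ n.divisors, jz (-p) d : ℤ) : ℝ) / n := by
  obtain ⟨c, hc, h⟩ := siegel_value hε
  refine ⟨c, 160 + 6 * c, hc, by positivity, fun p N hp h2 => ?_⟩
  have hch := ch_prime hp h2
  have he : ∀ n, ((∑ d ∈ n.divisors, jz (-p) d : ℤ) : ℝ) =
      ((zeta : ArithmeticFunction ℝ) * ja (-p)) n := by
    intro n
    rw [coe_zeta_mul_apply]
    simp only [ja_apply, Int.cast_sum]
  simp only [he]
  have hp3 : (3 : ℝ) ≤ p := by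
    have := hp.two_le
    exact_mod_cast (by omega : 3 ≤ p)
  have hl : 1 ≤ Real.log p := by
    rw [Real.le_log_iff_exp_le (by linarith)]
    linarith [Real.exp_one_lt_d9]
  have hlN := Real.log_natCast_nonneg N
  by_cases hN : (4 * p : ℝ) ^ 2 ≤ N
  · have h1 := hch.sum_lower (by linarith) hN
    have h3 : Real.log (3 * (4 * p)) ≤ 4 * Real.log p := by
      have : Real.log ((p : ℝ) ^ 4) = 4 * Real.log p := by rw [Real.log_pow]; norm_num
      rw [← this]
      refine Real.log_le_log (by linarith) ?_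
      have h4 : (27 : ℝ) ≤ (p : ℝ) ^ 3 := by
        have := pow_le_pow_left₀ (by norm_num) hp3 3
        linarith
      nlinarith
    have h4 : Real.log (3 * (4 * p)) ^ 2 ≤ (4 * Real.log p) ^ 2 :=
      pow_le_pow_left₀ (Real.log_nonneg (by linarith)) h3 2
    have h5 := mul_le_mul_of_nonneg_right (h p hp h2) hlN
    nlinarith [mul_nonneg hc.le (sq_nonneg (Real.log p))]
  · have h1 : 0 ≤ ∑ n ∈ Ioc 0 N, ((zeta : ArithmeticFunction ℝ) * ja (-p)) n / n :=
      sum_nonneg fun n _ => div_nonneg (hch.zeta_mul_nonneg n) (Nat.cast_nonneg n)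
    have h3 : Real.log N ≤ 6 * Real.log p := by
      rcases Nat.eq_zero_or_pos N with rfl | hN0
      · simp only [Nat.cast_zero, Real.log_zero]; linarith
      have : Real.log ((p : ℝ) ^ 6) = 6 * Real.log p := by rw [Real.log_pow]; norm_num
      rw [← this]
      refine Real.log_le_log (by exact_mod_cast hN0) ((not_le.1 hN).le.trans ?_)
      have h4 : (81 : ℝ) ≤ (p : ℝ) ^ 4 := by
        have := pow_le_pow_left₀ (by norm_num) hp3 4
        linarith
      nlinarith [sq_nonneg (p : ℝ)]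
    have h4 : (p : ℝ) ^ (-ε) ≤ 1 := Real.rpow_le_one_of_one_le_of_nonpos (by linarith) (by linarith)
    have h5 : c * (p : ℝ) ^ (-ε) * Real.log N ≤ c * 1 * (6 * Real.log p ^ 2) :=
      mul_le_mul (mul_le_mul_of_nonneg_left h4 hc.le) (by nlinarith) hlN (by positivity)
    nlinarith [sq_nonneg (Real.log p)]

end Pool.Agent.MP_c481b3_nt.H63
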