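import Pool.Agent.MP_c481b3_nt.H63.Loc
import Pool.Agent.MP_c481b3_nt.H63.Siegel

/-! The lower bound for the denominator of the sieve. -/

namespace Pool.Agent.MP_c481b3_nt.H63

open Finset ArithmeticFunction

/-- the sum over numbers with all prime factors in `A` -/
noncomputable def Fs (h : ℕ → ℝ) (A : Finset ℕ) (z : ℕ) : ℝ :=
  ∑ n ∈ (Ioc 0 z).filter fun n => n.primeFactors ⊆ A, h n

theorem Fs_nonneg {h : ℕ → ℝ} (h0 : ∀ n, 0 ≤ h n) (A : Finset ℕ) (z : ℕ) : 0 ≤ Fs h A z :=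
  sum_nonneg fun n _ => h0 n

theorem Fs_mono {h : ℕ → ℝ} (h0 : ∀ n, 0 ≤ h n) (A : Finset ℕ) {z z' : ℕ} (hz : z ≤ z') :
    Fs h A z ≤ Fs h A z' :=
  sum_le_sum_of_subset_of_nonneg (filter_subset_filter _ (Ioc_subset_Ioc_right hz))
    fun n _ _ => h0 n

theorem Fs_insert {h : ℕ → ℝ} (h0 : ∀ n, 0 ≤ h n)
    (hm : ∀ m n, m.Coprime n → h (m * n) = h m * h n) {A : Finset ℕ} {r : ℕ} (hr : r.Prime)
    (hA : r ∉ A) (z : ℕ) :
    Fs h (insert r A) z ≤ ∑ k ∈ range (z + 1), h (r ^ k) * Fs h A (z / r ^ k) := by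
  simp only [Fs, mul_sum]
  rw [sum_sigma']
  refine le_trans (sum_le_sum_of_subset_of_nonneg (t := ((range (z + 1)).sigma fun k =>
    (Ioc 0 (z / r ^ k)).filter fun n => n.primeFactors ⊆ A).image fun v => r ^ v.1 * v.2)
    (fun n hn => ?_) fun n _ _ => h0 n) ((sum_image_le_of_nonneg fun n _ => h0 n).trans
      (le_of_eq (sum_congr rfl fun v hv => hm _ _ ?_)))
  · obtain ⟨h1, h2⟩ := mem_filter.1 hn
    obtain ⟨h3, h4⟩ := mem_Ioc.1 h1
    obtain ⟨e, m, h5, rfl⟩ := Nat.exists_eq_pow_mul_and_not_dvd h3.ne' r hr.ne_one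
    have hm0 : 0 < m := Nat.pos_of_mul_pos_left h3
    have hp : 0 < r ^ e := pow_pos hr.pos e
    refine mem_image.2 ⟨⟨e, m⟩, mem_sigma.2 ⟨mem_range.2 ?_, mem_filter.2 ⟨mem_Ioc.2 ⟨hm0, ?_⟩,
      fun s hs => ?_⟩⟩, rfl⟩
    · have := Nat.lt_pow_self hr.one_lt (n := e)
      have := Nat.le_mul_of_pos_right (r ^ e) hm0
      dsimp only
      omega
    · exact (Nat.le_div_iff_mul_le hp).2 (by rwa [mul_comm])
    · have h6 := Nat.mem_primeFactors.1 hs
      rcases mem_insert.1 (h2 (Nat.mem_primeFactors.2 ⟨h6.1, h6.2.1.mul_left _, h3.ne'⟩)) with h7 | h7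
      · exact absurd (h7 ▸ h6.2.1) h5
      · exact h7
  · obtain ⟨h1, h2⟩ := mem_filter.1 (mem_sigma.1 hv).2
    exact Nat.Coprime.pow_left _ ((Nat.Prime.coprime_iff_not_dvd hr).2 fun h3 =>
      hA (h2 (Nat.mem_primeFactors.2 ⟨hr, h3, (mem_Ioc.1 h1).1.ne'⟩)))

theorem Gs_insert (g : ℕ → ℝ) {P : Finset ℕ} {r : ℕ} (hr : 0 < r) (hP : r ∉ P) (z : ℕ) :
    Gs g (insert r P) z = Gs g P z + g r * Gs g P (z / r) := by
  simp only [Gs, Ds, sum_filter]
  rw [sum_powerset_insert hP, mul_sum]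
  congr 1
  refine sum_congr rfl fun D hD => ?_
  have h1 : r ∉ D := fun h => hP (mem_powerset.1 hD h)
  simp only [prod_insert h1, Nat.le_div_iff_mul_le hr, mul_comm r, mul_ite, mul_zero]

theorem Fs_le_Gs {h g : ℕ → ℝ} (h0 : ∀ n, 0 ≤ h n) (h1 : h 1 = 1)
    (hm : ∀ m n, m.Coprime n → h (m * n) = h m * h n) (P : Finset ℕ) (hP : ∀ r ∈ P, r.Prime)
    (hg : ∀ r ∈ P, ∀ K, ∑ k ∈ range K, h (r ^ (k + 1)) ≤ g r) (z : ℕ) : Fs h P z ≤ Gs g P z := by
  induction P using Finset.induction_on generalizing z with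
  | empty =>
    rcases Nat.eq_zero_or_pos z with rfl | hz
    · simp [Fs, Gs, Ds, sum_filter]
    · refine le_trans ?_ (one_le_Gs (by simp) hz)
      refine le_trans (sum_le_sum_of_subset_of_nonneg (t := {1}) (fun n hn => ?_)
        fun n _ _ => h0 n) (by simp [h1])
      obtain ⟨h2, h3⟩ := mem_filter.1 hn
      have := (mem_Ioc.1 h2).1
      rcases Nat.primeFactors_eq_empty.1 (subset_empty.1 h3) with h4 | h4
      · omega
      · simp [h4]
  | insert r P hr ih =>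
    have h2 := hP r (mem_insert_self _ _)
    have ih' := ih (fun s hs => hP s (mem_insert_of_mem hs)) fun s hs => hg s (mem_insert_of_mem hs)
    have h3 := hg r (mem_insert_self _ _)
    refine (Fs_insert h0 hm h2 hr z).trans ?_
    rw [Gs_insert g h2.pos hr, sum_range_succ', pow_zero, h1, one_mul, Nat.div_one, add_comm]
    refine add_le_add (ih' z) ?_
    refine (sum_le_sum (g := fun k => h (r ^ (k + 1)) * Fs h P (z / r)) fun k _ =>
      mul_le_mul_of_nonneg_left (Fs_mono h0 P (Nat.div_le_div_left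
        (Nat.le_self_pow k.succ_ne_zero r) h2.pos)) (h0 _)).trans ?_
    rw [← sum_mul]
    exact mul_le_mul (h3 z) (ih' _) (Fs_nonneg h0 _ _) (by simpa using h3 0)

theorem Fs_union {h E : ℕ → ℝ} (h0 : ∀ n, 0 ≤ h n)
    (hm : ∀ m n, m.Coprime n → h (m * n) = h m * h n) (P B : Finset ℕ) (hB : ∀ r ∈ B, r.Prime)
    (hd : Disjoint B P) (hE : ∀ r ∈ B, ∀ K, ∑ k ∈ range K, h (r ^ k) ≤ E r) (z : ℕ) :
    Fs h (B ∪ P) z ≤ (∏ r ∈ B, E r) * Fs h P z := by
  induction B using Finset.induction_on with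
  | empty => simp
  | insert r B hr ih =>
    have h2 := hB r (mem_insert_self _ _)
    obtain ⟨h4, h5⟩ := disjoint_insert_left.1 hd
    have ih' := ih (fun s hs => hB s (mem_insert_of_mem hs)) h5
      fun s hs => hE s (mem_insert_of_mem hs)
    have h3 := hE r (mem_insert_self _ _)
    rw [insert_union, prod_insert hr, mul_assoc]
    refine (Fs_insert h0 hm h2 (fun h => (mem_union.1 h).elim hr h4) z).trans ?_
    refine (sum_le_sum (g := fun k => h (r ^ k) * Fs h (B ∪ P) z) fun k _ =>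
      mul_le_mul_of_nonneg_left (Fs_mono h0 _ (Nat.div_le_self _ _)) (h0 _)).trans ?_
    rw [← sum_mul]
    exact mul_le_mul (h3 _) ih' (Fs_nonneg h0 _ _) (by simpa using h3 0)

theorem Ch.local_le {χ : ArithmeticFunction ℝ} {q : ℝ} (h : Ch χ q) {r : ℕ} (hr : r.Prime) (K : ℕ) :
    ∑ k ∈ range K, ((zeta : ArithmeticFunction ℝ) * χ) (r ^ k) / (r ^ k : ℕ) ≤
      (1 - χ r * (1 / r))⁻¹ * (1 - 1 / (r : ℝ))⁻¹ := by
  have h2 : (2 : ℝ) ≤ r := by exact_mod_cast hr.two_le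
  have hx : ‖1 / (r : ℝ)‖ < 1 := by
    rw [Real.norm_eq_abs, abs_of_pos (by positivity), div_lt_one (by linarith)]
    linarith
  have hy : ‖χ r * (1 / (r : ℝ))‖ < 1 := by
    rw [norm_mul]
    exact (mul_le_of_le_one_left (norm_nonneg _) (h.abs r)).trans_lt hx
  have hp : ∀ k, χ (r ^ k) = χ r ^ k := fun k => by
    induction k with
    | zero => simp [h.one]
    | succ k ih => rw [pow_succ, h.mul, ih, pow_succ]
  have s1 := summable_norm_geometric_of_norm_lt_one hy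
  have s2 := summable_norm_geometric_of_norm_lt_one hx
  have he : ∀ n : ℕ, ∑ k ∈ range (n + 1), (χ r * (1 / (r : ℝ))) ^ k * (1 / (r : ℝ)) ^ (n - k) =
      ((zeta : ArithmeticFunction ℝ) * χ) (r ^ n) / (r ^ n : ℕ) := by
    intro n
    rw [coe_zeta_mul_apply, Nat.sum_divisors_prime_pow hr, sum_div]
    refine sum_congr rfl fun k hk => ?_
    rw [hp, mul_pow, mul_assoc, ← pow_add, Nat.add_sub_cancel' (Nat.lt_succ_iff.1 (mem_range.1 hk)),
      one_div, inv_pow, Nat.cast_pow, div_eq_mul_inv]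
  rw [← tsum_geometric_of_norm_lt_one hx, ← tsum_geometric_of_norm_lt_one hy,
    tsum_mul_tsum_eq_tsum_sum_range_of_summable_norm s1 s2]
  have s3 := (summable_norm_sum_mul_range_of_summable_norm s1 s2).of_norm
  simp only [he] at s3 ⊢
  exact s3.sum_le_tsum _ fun n _ => div_nonneg (h.zeta_mul_nonneg _) (Nat.cast_nonneg _)

/-- the primes used in the sieve -/
def Ps (p : ℕ) (S : Finset ℕ) (z : ℕ) : Finset ℕ :=
  (range (z + 1)).filter fun r => r.Prime ∧ r ≠ 2 ∧ r ≠ p ∧ r ∉ S ∧ jacobiSym (-p) r = 1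

theorem G_lower {a b c : ℤ} {p : ℕ} (h : a * c - b ^ 2 = p) (hp : p.Prime) (hp2 : p ≠ 2)
    (S : Finset ℕ) (hS : ∀ r ∈ S, r.Prime ∧ r ≠ 2) (hpS : p ∉ S) (z : ℕ) :
    (∑ n ∈ Ioc 0 z, ((zeta : ArithmeticFunction ℝ) * ja (-p)) n / n) * ∏ r ∈ S, (1 - nu a b c r) ≤
      32 * Gs (fun r => nu a b c r / (1 - nu a b c r)) (Ps p S z) z := by
  have hch := ch_prime hp hp2
  set f : ℕ → ℝ := fun n => ((zeta : ArithmeticFunction ℝ) * ja (-p)) n / n with hf
  have h0 : ∀ n, 0 ≤ f n := fun n => div_nonneg (hch.zeta_mul_nonneg n) (Nat.cast_nonneg n)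
  have hmul : IsMultiplicative ((zeta : ArithmeticFunction ℝ) * ja (-p)) :=
    isMultiplicative_zeta.natCast.mul ⟨hch.one, fun _ => hch.mul _ _⟩
  have h1 : f 1 = 1 := by simp only [hf, hmul.map_one, Nat.cast_one, div_one]
  have hm : ∀ m n, m.Coprime n → f (m * n) = f m * f n := fun m n hmn => by
    simp only [hf]
    rw [hmul.map_mul_of_coprime hmn, Nat.cast_mul, div_mul_div_comm]
  set A := (range (z + 1)).filter Nat.Prime with hA
  have hPA : Ps p S z ⊆ A := fun r hr =>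
    mem_filter.2 ⟨(mem_filter.1 hr).1, (mem_filter.1 hr).2.1⟩
  set B := A \ Ps p S z with hB
  have hBp : ∀ r ∈ B, r.Prime := fun r hr => (mem_filter.1 (mem_sdiff.1 hr).1).2
  have hνS : ∀ r ∈ S, 0 < 1 - nu a b c r := fun r hr =>
    lt_of_lt_of_le (by have := (hS r hr).1.pos; positivity)
      (nu_le h hp (hS r hr).1 (hS r hr).2 fun h3 => hpS (h3 ▸ hr))
  have hχ : ∀ r : ℕ, r.Prime → r ≠ 2 → ja (-p) r = jacobiSym (-p) r := fun r h3 h4 => by
    rw [ja_apply, jz, if_pos (h3.odd_of_ne_two h4)]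
  have hsplit : ∀ r : ℕ, r.Prime → r ≠ 2 → r ≠ p → jacobiSym (-p) r = 1 →
      (1 - ja (-p) r * (1 / r))⁻¹ * (1 - 1 / (r : ℝ))⁻¹ ≤ (1 - nu a b c r)⁻¹ := by
    intro r h3 h4 h5 h6
    rw [hχ r h3 h4, h6, Int.cast_one, one_mul, ← mul_inv, ← sq]
    exact inv_anti₀ (lt_of_lt_of_le (by have := h3.pos; positivity) (nu_le h hp h3 h4 h5))
      (nu_ge h hp h3 h4 h5 h6)
  have h2 : ∑ n ∈ Ioc 0 z, f n = Fs f (B ∪ Ps p S z) z := by
    rw [Fs]
    refine sum_congr (filter_true_of_mem fun n hn r hr => ?_).symm fun _ _ => rfl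
    rw [hB, sdiff_union_of_subset hPA]
    have := Nat.le_of_mem_primeFactors hr
    have := (mem_Ioc.1 hn).2
    exact mem_filter.2 ⟨mem_range.2 (by omega), Nat.prime_of_mem_primeFactors hr⟩
  have h3 := Fs_le_Gs (g := fun r => nu a b c r / (1 - nu a b c r)) h0 h1 hm (Ps p S z)
    (fun r hr => (mem_filter.1 hr).2.1) (fun r hr K => by
      obtain ⟨-, h3, h4, h5, -, h6⟩ := mem_filter.1 hr
      have h7 := (hch.local_le h3 (K + 1)).trans (hsplit r h3 h4 h5 h6)
      have h8 : 0 < 1 - nu a b c r :=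
        lt_of_lt_of_le (by have := h3.pos; positivity) (nu_le h hp h3 h4 h5)
      rw [sum_range_succ'] at h7
      have h9 : nu a b c r / (1 - nu a b c r) = (1 - nu a b c r)⁻¹ - 1 := by field_simp; ring
      rw [h9, le_sub_iff_add_le]
      simpa only [pow_zero, hmul.map_one, Nat.cast_one, div_one] using h7) z
  have h4 := Fs_union (E := fun r => (if r ∈ S then (1 - nu a b c r)⁻¹ else 1) *
      (Real.exp (2 * ((r : ℝ) ^ 2)⁻¹) * ((if r = 2 then 2 else 1) * if r = p then 2 else 1)))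
    h0 hm (Ps p S z) B hBp sdiff_disjoint (fun r hr K => by
      have h5 := hBp r hr
      refine (hch.local_le h5 K).trans ?_
      have h2r : (2 : ℝ) ≤ r := by exact_mod_cast h5.two_le
      have hx : 1 / (r : ℝ) ≤ 1 / 2 := one_div_le_one_div_of_le (by norm_num) h2r
      have e1 : 1 ≤ (if r ∈ S then (1 - nu a b c r)⁻¹ else 1) := by
        split_ifs with h6
        · exact (one_le_inv₀ (hνS r h6)).2 (by linarith [nu_nonneg a b c r])
        · rfl
      have e2 : 1 ≤ Real.exp (2 * ((r : ℝ) ^ 2)⁻¹) := Real.one_le_exp (by positivity)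
      have e3 : (1 : ℝ) ≤ if r = 2 then 2 else 1 := by split_ifs <;> norm_num
      have e4 : (1 : ℝ) ≤ if r = p then 2 else 1 := by split_ifs <;> norm_num
      have e5 : (1 - 1 / (r : ℝ))⁻¹ ≤ 2 := inv_le_of_inv_le₀ (by norm_num) (by linarith)
      by_cases h6 : r = 2 ∨ r = p
      · have h7 : ja (-p) r = 0 := by
          rw [ja_apply, Int.cast_eq_zero, jz]
          split_ifs with h8
          · have : NeZero r := ⟨h5.ne_zero⟩
            rcases h6 with rfl | rfl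
            · exact absurd h8 (by decide)
            · rw [jacobiSym.eq_zero_iff_not_coprime]
              simpa using h5.ne_one
          · rfl
        have h8 : (2 : ℝ) ≤ (if r = 2 then 2 else 1) * if r = p then 2 else 1 := by
          rcases h6 with h6 | h6
          · rw [if_pos h6]; linarith
          · rw [if_pos h6]; linarith
        rw [h7, zero_mul, sub_zero, inv_one, one_mul]
        exact e5.trans (h8.trans ((le_mul_of_one_le_left (by linarith) e2).trans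
          (le_mul_of_one_le_left (by positivity) e1)))
      obtain ⟨h7, h8⟩ := not_or.1 h6
      rcases jacobiSym.eq_one_or_neg_one (a := -p) (b := r) (by
        simpa using (Nat.coprime_primes hp h5).2 (Ne.symm h8)) with h9 | h9
      · have h10 : r ∈ S := by
          by_contra h10
          exact (mem_sdiff.1 hr).2 (mem_filter.2 ⟨(mem_filter.1 (mem_sdiff.1 hr).1).1, h5, h7, h8,
            h10, h9⟩)
        rw [if_pos h10]
        exact (hsplit r h5 h7 h8 h9).trans (le_mul_of_one_le_right (inv_pos.2 (hνS r h10)).le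
          (one_le_mul_of_one_le_of_one_le e2 (one_le_mul_of_one_le_of_one_le e3 e4)))
      · rw [if_neg h7, if_neg h8, mul_one, mul_one]
        refine le_trans ?_ (le_mul_of_one_le_left (by positivity) e1)
        rw [hχ r h5 h7, h9, ← mul_inv]
        have h10 : (1 - ((-1 : ℤ) : ℝ) * (1 / r)) * (1 - 1 / (r : ℝ)) = 1 - ((r : ℝ) ^ 2)⁻¹ := by
          push_cast; field_simp; ring
        have h11 : ((r : ℝ) ^ 2)⁻¹ ≤ 1 / 4 := by
          rw [one_div]; exact inv_anti₀ (by norm_num) (by nlinarith)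
        have h12 : (0 : ℝ) ≤ ((r : ℝ) ^ 2)⁻¹ := by positivity
        rw [h10]
        refine le_trans ?_ (Real.add_one_le_exp _)
        rw [inv_le_iff_one_le_mul₀ (by linarith)]
        nlinarith) z
  simp only [prod_mul_distrib, prod_ite_mem, prod_ite_eq', ← Real.exp_sum, ← mul_sum] at h4
  have h5 : (∏ r ∈ B ∩ S, (1 - nu a b c r)⁻¹) * ∏ r ∈ S, (1 - nu a b c r) ≤ 1 := by
    rw [prod_inv_distrib, inv_mul_le_iff₀ (prod_pos fun r hr => hνS r (mem_inter.1 hr).2), mul_one]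
    exact prod_le_prod_of_subset_of_le_one inter_subset_right (fun r hr => (hνS r hr).le)
      fun r _ _ => by linarith [nu_nonneg a b c r]
  have h6 : Real.exp (2 * ∑ r ∈ B, ((r : ℝ) ^ 2)⁻¹) ≤ 8 := by
    have h7 : ∑ r ∈ B, ((r : ℝ) ^ 2)⁻¹ ≤ 1 := by
      refine (sum_le_sum_of_subset_of_nonneg (t := Ioc 1 (z + 1)) (fun r hr => ?_)
        fun _ _ _ => by positivity).trans ((sum_Ioc_inv_sq_le_sub one_ne_zero (by omega)).trans ?_)
      · have := mem_range.1 (mem_filter.1 (mem_sdiff.1 hr).1).1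
        exact mem_Ioc.2 ⟨(hBp r hr).one_lt, by omega⟩
      · simp only [Nat.cast_one, inv_one, sub_le_self_iff]; positivity
    refine (Real.exp_le_exp.2 (show _ ≤ 1 + 1 by linarith)).trans ?_
    rw [Real.exp_add]
    nlinarith [Real.exp_one_lt_d9, Real.exp_pos 1]
  have h7 : ((if 2 ∈ B then 2 else 1) * if p ∈ B then 2 else 1 : ℝ) ≤ 4 := by
    split_ifs <;> norm_num
  have h8 : Real.exp (2 * ∑ r ∈ B, ((r : ℝ) ^ 2)⁻¹) *
      ((if 2 ∈ B then 2 else 1) * if p ∈ B then 2 else 1 : ℝ) ≤ 32 :=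
    (mul_le_mul h6 h7 (by positivity) (by norm_num)).trans (by norm_num)
  have h9 : 0 ≤ ∏ r ∈ S, (1 - nu a b c r) := prod_nonneg fun r hr => (hνS r hr).le
  have h10 : 0 ≤ ∏ r ∈ B ∩ S, (1 - nu a b c r)⁻¹ :=
    prod_nonneg fun r hr => (inv_pos.2 (hνS r (mem_inter.1 hr).2)).le
  have h11 := Fs_nonneg h0 (Ps p S z) z
  rw [h2]
  refine (mul_le_mul_of_nonneg_right h4 h9).trans ?_
  calc _ = ((∏ r ∈ B ∩ S, (1 - nu a b c r)⁻¹) * ∏ r ∈ S, (1 - nu a b c r)) *
        ((Real.exp (2 * ∑ r ∈ B, ((r : ℝ) ^ 2)⁻¹) *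
        ((if 2 ∈ B then 2 else 1) * if p ∈ B then 2 else 1 : ℝ)) * Fs f (Ps p S z) z) := by ring
    _ ≤ 1 * (32 * _) := mul_le_mul h5 (mul_le_mul h8 h3 h11 (by norm_num)) (by positivity)
        zero_le_one
    _ = _ := one_mul _

end Pool.Agent.MP_c481b3_nt.H63
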