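import Mathlib

/-! Periodic functions on boxes and the sieve of Selberg in two variables. -/

namespace Pool.Agent.MP_c481b3_nt.H63

open Finset

/-- periodic in both variables -/
def Per (r : ℕ) (f : ℕ → ℕ → ℝ) : Prop :=
  ∀ x y x' y', x ≡ x' [MOD r] → y ≡ y' [MOD r] → f x y = f x' y'

/-- the sum over one period -/
def sm (r : ℕ) (f : ℕ → ℕ → ℝ) : ℝ := ∑ x ∈ range r, ∑ y ∈ range r, f x y

/-- the mean over one period -/
noncomputable def av (r : ℕ) (f : ℕ → ℕ → ℝ) : ℝ := sm r f / (r : ℝ) ^ 2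

theorem crt1 {m n : ℕ} (h : m.Coprime n) (hm : 0 < m) (hn : 0 < n) (f g : ℕ → ℝ)
    (hf : ∀ x x', x ≡ x' [MOD m] → f x = f x') (hg : ∀ x x', x ≡ x' [MOD n] → g x = g x') :
    ∑ x ∈ range (m * n), f x * g x = (∑ x ∈ range m, f x) * ∑ x ∈ range n, g x := by
  rw [sum_mul_sum, ← sum_product']
  refine sum_bij (fun x _ => (x % m, x % n)) (fun x _ => ?_) (fun x hx y hy hxy => ?_)
    (fun v hv => ?_) fun x _ => ?_
  · simp [Nat.mod_lt, hm, hn]
  · obtain ⟨h1, h2⟩ := Prod.mk.inj hxy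
    exact Nat.ModEq.eq_of_lt_of_lt ((Nat.modEq_and_modEq_iff_modEq_mul h).1 ⟨h1, h2⟩)
      (mem_range.1 hx) (mem_range.1 hy)
  · obtain ⟨h1, h2⟩ := mem_product.1 hv
    refine ⟨Nat.chineseRemainder h v.1 v.2,
      mem_range.2 (Nat.chineseRemainder_lt_mul h _ _ hm.ne' hn.ne'), Prod.ext ?_ ?_⟩
    · exact Eq.trans (Nat.chineseRemainder h v.1 v.2).2.1 (Nat.mod_eq_of_lt (mem_range.1 h1))
    · exact Eq.trans (Nat.chineseRemainder h v.1 v.2).2.2 (Nat.mod_eq_of_lt (mem_range.1 h2))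
  · rw [hf _ _ (Nat.mod_modEq x m), hg _ _ (Nat.mod_modEq x n)]

theorem crt2 {m n : ℕ} (h : m.Coprime n) (hm : 0 < m) (hn : 0 < n) {f g : ℕ → ℕ → ℝ}
    (hf : Per m f) (hg : Per n g) : sm (m * n) (fun x y => f x y * g x y) = sm m f * sm n g := by
  unfold sm
  rw [← crt1 h hm hn (fun x => ∑ y ∈ range m, f x y) (fun x => ∑ y ∈ range n, g x y)
    (fun x x' hx => sum_congr rfl fun y _ => hf _ _ _ _ hx rfl)
    fun x x' hx => sum_congr rfl fun y _ => hg _ _ _ _ hx rfl]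
  exact sum_congr rfl fun x _ => crt1 h hm hn _ _ (fun y y' hy => hf _ _ _ _ rfl hy)
    fun y y' hy => hg _ _ _ _ rfl hy

theorem per_prod (T : Finset ℕ) (u : ℕ → ℕ → ℕ → ℝ) (hu : ∀ r ∈ T, Per r (u r)) :
    Per (∏ r ∈ T, r) fun x y => ∏ r ∈ T, u r x y := fun _ _ _ _ hx hy =>
  prod_congr rfl fun r hr => hu r hr _ _ _ _ (hx.of_dvd (dvd_prod_of_mem _ hr))
    (hy.of_dvd (dvd_prod_of_mem _ hr))

theorem av_prod (T : Finset ℕ) (hT : ∀ r ∈ T, r.Prime) (u : ℕ → ℕ → ℕ → ℝ)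
    (hu : ∀ r ∈ T, Per r (u r)) :
    av (∏ r ∈ T, r) (fun x y => ∏ r ∈ T, u r x y) = ∏ r ∈ T, av r (u r) := by
  induction T using Finset.induction_on with
  | empty => simp [av, sm]
  | insert r T hr ih =>
    have h1 : ∀ s ∈ T, s.Prime := fun s hs => hT s (mem_insert_of_mem hs)
    have h2 : ∀ s ∈ T, Per s (u s) := fun s hs => hu s (mem_insert_of_mem hs)
    have h3 := hT r (mem_insert_self _ _)
    simp only [prod_insert hr]
    rw [← ih h1 h2, av, crt2 (Nat.Coprime.prod_right fun s hs =>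
      (Nat.coprime_primes h3 (h1 s hs)).2 fun h => hr (h ▸ hs)) h3.pos
      (prod_pos fun s hs => (h1 s hs).pos) (hu r (mem_insert_self _ _)) (per_prod T u h2), av, av]
    push_cast
    rw [mul_pow, div_mul_div_comm]

theorem box1 {M : ℕ} (hM : 0 < M) (F : ℕ → ℝ) {B : ℝ} (hF : ∀ x x', x ≡ x' [MOD M] → F x = F x')
    (hB : ∀ x, |F x| ≤ B) (X : ℕ) :
    |∑ x ∈ range X, F x - X / M * ∑ x ∈ range M, F x| ≤ 2 * M * B := by
  have h1 : ∀ k t, ∑ x ∈ range (M * k + t), F x = k * ∑ x ∈ range M, F x + ∑ x ∈ range t, F x := by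
    intro k t
    induction k with
    | zero => simp
    | succ k ih =>
      rw [show M * (k + 1) + t = M + (M * k + t) by ring, sum_range_add,
        sum_congr rfl fun x _ => hF (M + x) x (by simp [Nat.ModEq]), ih]
      push_cast
      ring
  have h2 : ∀ t : ℕ, |∑ x ∈ range t, F x| ≤ t * B := fun t =>
    (abs_sum_le_sum_abs _ _).trans ((sum_le_card_nsmul _ _ B fun x _ => hB x).trans (by simp))
  have hM' : (0 : ℝ) < M := by exact_mod_cast hM
  have hB0 : 0 ≤ B := (abs_nonneg _).trans (hB 0)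
  have h3 : ((X % M : ℕ) : ℝ) ≤ M := by exact_mod_cast (Nat.mod_lt X hM).le
  have h4 : (X : ℝ) / M = (X / M : ℕ) + (X % M : ℕ) / M := by
    rw [div_eq_iff hM'.ne', add_mul, div_mul_cancel₀ _ hM'.ne']
    exact_mod_cast (Nat.div_add_mod' X M).symm
  have h5 := h1 (X / M) (X % M)
  rw [Nat.div_add_mod] at h5
  rw [h5, h4, add_mul, add_sub_add_left_eq_sub]
  refine (abs_sub _ _).trans ?_
  rw [abs_mul, abs_of_nonneg (by positivity : (0 : ℝ) ≤ (X % M : ℕ) / M)]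
  have h6 := mul_le_mul ((div_le_one hM').2 h3) (h2 M) (abs_nonneg _) zero_le_one
  have h7 := (h2 (X % M)).trans (mul_le_mul_of_nonneg_right h3 hB0)
  linarith

theorem box2 {M : ℕ} (hM : 0 < M) {f : ℕ → ℕ → ℝ} {B : ℝ} (hf : Per M f) (hB : ∀ x y, |f x y| ≤ B)
    (X Y : ℕ) : |∑ x ∈ range X, ∑ y ∈ range Y, f x y - X * Y * av M f| ≤ 2 * M * B * (X + Y) := by
  have hM' : (0 : ℝ) < M := by exact_mod_cast hM
  have h1 : |∑ x ∈ range X, (∑ y ∈ range Y, f x y - Y / M * ∑ y ∈ range M, f x y)| ≤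
      X * (2 * M * B) :=
    (abs_sum_le_sum_abs _ _).trans ((sum_le_card_nsmul _ _ _ fun x _ =>
      box1 hM (f x) (fun y y' hy => hf _ _ _ _ rfl hy) (hB x) Y).trans (by simp))
  have h2 := box1 hM (fun x => ∑ y ∈ range M, f x y) (B := M * B)
    (fun x x' hx => sum_congr rfl fun y _ => hf _ _ _ _ hx rfl)
    (fun x => (abs_sum_le_sum_abs _ _).trans
      ((sum_le_card_nsmul _ _ B fun y _ => hB x y).trans (by simp))) X
  have h3 : ∑ x ∈ range X, ∑ y ∈ range Y, f x y - X * Y * av M f =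
      ∑ x ∈ range X, (∑ y ∈ range Y, f x y - Y / M * ∑ y ∈ range M, f x y) +
      Y / M * (∑ x ∈ range X, ∑ y ∈ range M, f x y -
        X / M * ∑ x ∈ range M, ∑ y ∈ range M, f x y) := by
    rw [sum_sub_distrib, ← mul_sum, av, sm]
    field_simp
    ring
  rw [h3]
  refine (abs_add_le _ _).trans ?_
  rw [abs_mul, abs_of_nonneg (by positivity : (0 : ℝ) ≤ (Y : ℝ) / M)]
  have h4 := mul_le_mul_of_nonneg_left h2 (by positivity : (0 : ℝ) ≤ (Y : ℝ) / M)
  have h5 : (Y : ℝ) / M * (2 * M * (M * B)) = Y * (2 * M * B) := by field_simp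
  linarith

/-- sets of primes with small product -/
def Ds (P : Finset ℕ) (z : ℕ) : Finset (Finset ℕ) := P.powerset.filter fun D => ∏ r ∈ D, r ≤ z

theorem mem_Ds {P D : Finset ℕ} {z : ℕ} : D ∈ Ds P z ↔ D ⊆ P ∧ ∏ r ∈ D, r ≤ z := by
  simp [Ds]

theorem card_Ds {P : Finset ℕ} (hP : ∀ r ∈ P, r.Prime) (z : ℕ) : (Ds P z).card ≤ z := by
  refine le_trans (card_le_card_of_injOn (t := Ioc 0 z) (fun D => ∏ r ∈ D, r) (fun D hD => ?_)
    fun D hD E hE h => ?_) (by simp)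
  · obtain ⟨h1, h2⟩ := mem_Ds.1 hD
    exact mem_coe.2 (mem_Ioc.2 ⟨prod_pos fun r hr => (hP r (h1 hr)).pos, h2⟩)
  · rw [← Nat.primeFactors_prod fun r hr => hP r ((mem_Ds.1 hD).1 hr),
      ← Nat.primeFactors_prod fun r hr => hP r ((mem_Ds.1 hE).1 hr)]
    exact congrArg Nat.primeFactors h

/-- the denominator of the sieve -/
noncomputable def Gs (g : ℕ → ℝ) (P : Finset ℕ) (z : ℕ) : ℝ := ∑ D ∈ Ds P z, ∏ r ∈ D, g r

theorem one_le_Gs {g : ℕ → ℝ} {P : Finset ℕ} (hg : ∀ r ∈ P, 0 ≤ g r) {z : ℕ} (hz : 1 ≤ z) :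
    1 ≤ Gs g P z := by
  have := single_le_sum (f := fun D : Finset ℕ => ∏ r ∈ D, g r) (s := Ds P z)
    (fun D hD => prod_nonneg fun r hr => hg r ((mem_Ds.1 hD).1 hr))
    (mem_Ds.2 ⟨empty_subset _, by simpa using hz⟩)
  simpa [Gs] using this

theorem selberg (P S : Finset ℕ) (hP : ∀ r ∈ P, r.Prime) (hS : ∀ r ∈ S, r.Prime)
    (hPS : Disjoint P S) (φ w : ℕ → ℕ → ℕ → ℝ) (g : ℕ → ℝ) (hg : ∀ r ∈ P, 0 ≤ g r)
    (hφ : ∀ r ∈ P, Per r (φ r) ∧ (∀ x y, |φ r x y| ≤ (r : ℝ) ^ 2) ∧ av r (φ r) = 0 ∧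
      av r (fun x y => φ r x y * φ r x y) = g r)
    (hw : ∀ r ∈ S, Per r (w r) ∧ ∀ x y, 0 ≤ w r x y ∧ w r x y ≤ 1) {z : ℕ} (hz : 1 ≤ z) (X Y : ℕ)
    (B : Finset (ℕ × ℕ)) (hB : B ⊆ range X ×ˢ range Y)
    (hB1 : ∀ v ∈ B, (∀ r ∈ P, φ r v.1 v.2 = g r) ∧ ∀ r ∈ S, w r v.1 v.2 = 1) :
    (B.card : ℝ) ≤ X * Y * (∏ r ∈ S, av r (w r)) / Gs g P z +
      2 * (∏ r ∈ S, r : ℕ) * (z : ℝ) ^ 8 * (X + Y) := by
  have hG := one_le_Gs hg hz
  set G := Gs g P z with hGd
  set q : ℕ := ∏ r ∈ S, r with hq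
  have key : ∀ D ∈ Ds P z, ∀ E ∈ Ds P z,
      ∑ x ∈ range X, ∑ y ∈ range Y, (∏ r ∈ D, φ r x y) * (∏ r ∈ E, φ r x y) * ∏ r ∈ S, w r x y ≤
      X * Y * (if D = E then (∏ r ∈ D, g r) * ∏ r ∈ S, av r (w r) else 0) +
        2 * q * (z : ℝ) ^ 6 * (X + Y) := by
    intro D hD E hE
    obtain ⟨hD1, hD2⟩ := mem_Ds.1 hD
    obtain ⟨hE1, hE2⟩ := mem_Ds.1 hE
    set u : ℕ → ℕ → ℕ → ℝ := fun r x y => (if r ∈ D then φ r x y else 1) *
      (if r ∈ E then φ r x y else 1) * if r ∈ S then w r x y else 1 with hu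
    set T := D ∪ E ∪ S with hT
    have hTp : ∀ r ∈ T, r.Prime := by
      intro r hr
      rcases mem_union.1 hr with h | h
      · exact hP r ((mem_union.1 h).elim (@hD1 r) (@hE1 r))
      · exact hS r h
    have hup : ∀ r ∈ T, Per r (u r) := by
      intro r _ x y x' y' hx hy
      simp only [hu]
      congr 1
      · congr 1
        · split_ifs with h
          · exact (hφ r (hD1 h)).1 _ _ _ _ hx hy
          · rfl
        · split_ifs with h
          · exact (hφ r (hE1 h)).1 _ _ _ _ hx hy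
          · rfl
      · split_ifs with h
        · exact (hw r h).1 _ _ _ _ hx hy
        · rfl
    have he : ∀ x y, ∏ r ∈ T, u r x y =
        (∏ r ∈ D, φ r x y) * (∏ r ∈ E, φ r x y) * ∏ r ∈ S, w r x y := by
      intro x y
      simp only [hu, prod_mul_distrib, prod_ite_mem]
      rw [inter_eq_right.2 (subset_union_left.trans subset_union_left),
        inter_eq_right.2 (subset_union_right.trans subset_union_left),
        inter_eq_right.2 subset_union_right]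
    have hb : ∀ F : Finset ℕ, F ⊆ P → ∏ r ∈ F, r ≤ z → ∀ x y,
        |∏ r ∈ F, φ r x y| ≤ (z : ℝ) ^ 2 := by
      intro F h1 h2 x y
      rw [abs_prod]
      refine (prod_le_prod (fun _ _ => abs_nonneg _) fun r hr => (hφ r (h1 hr)).2.1 x y).trans ?_
      rw [prod_pow, ← Nat.cast_prod]
      exact pow_le_pow_left₀ (by positivity) (by exact_mod_cast h2) 2
    have hbd : ∀ x y, |∏ r ∈ T, u r x y| ≤ (z : ℝ) ^ 4 := by
      intro x y
      rw [he, abs_mul, abs_mul, abs_of_nonneg (prod_nonneg fun r hr => ((hw r hr).2 x y).1)]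
      refine (mul_le_of_le_one_right (by positivity) (prod_le_one (fun r hr => ((hw r hr).2 x y).1)
        fun r hr => ((hw r hr).2 x y).2)).trans ?_
      calc _ ≤ (z : ℝ) ^ 2 * (z : ℝ) ^ 2 :=
            mul_le_mul (hb D hD1 hD2 x y) (hb E hE1 hE2 x y) (abs_nonneg _) (by positivity)
        _ = _ := by ring
    have hM : ∏ r ∈ T, r ≤ z * z * q := by
      have h1 : ∀ A C : Finset ℕ, (∀ r ∈ C, 0 < r) → ∏ r ∈ A ∪ C, r ≤ (∏ r ∈ A, r) * ∏ r ∈ C, r := by
        intro A C hC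
        rw [← prod_union_inter]
        exact Nat.le_mul_of_pos_right _ (prod_pos fun r hr => hC r (mem_inter.1 hr).2)
      refine (h1 _ _ fun r hr => (hS r hr).pos).trans (Nat.mul_le_mul_right _ ?_)
      exact (h1 _ _ fun r hr => (hP r (hE1 hr)).pos).trans (Nat.mul_le_mul hD2 hE2)
    have h1 := (abs_le.1 (box2 (prod_pos fun r hr => (hTp r hr).pos) (per_prod T u hup) hbd X Y)).2
    rw [av_prod T hTp u hup] at h1
    simp only [he] at h1
    have h2 : ∏ r ∈ T, av r (u r) =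
        if D = E then (∏ r ∈ D, g r) * ∏ r ∈ S, av r (w r) else 0 := by
      split_ifs with h
      · subst h
        rw [hT, union_self, prod_union (hPS.mono_left hD1)]
        congr 1
        · refine prod_congr rfl fun r hr => ?_
          rw [← (hφ r (hD1 hr)).2.2.2]
          simp only [hu, if_pos hr, if_neg (disjoint_left.1 hPS (hD1 hr)), mul_one]
        · refine prod_congr rfl fun r hr => ?_
          simp only [hu, if_pos hr, if_neg (disjoint_right.1 (hPS.mono_left hD1) hr), one_mul]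
      · have h3 : ∃ r, (r ∈ D ∧ r ∉ E) ∨ (r ∉ D ∧ r ∈ E) := by
          by_contra h4
          refine h (Finset.ext fun r => ?_)
          have := not_exists.1 h4 r
          tauto
        obtain ⟨r, h4 | h4⟩ := h3
        · refine prod_eq_zero (mem_union_left _ (mem_union_left _ h4.1)) ?_
          rw [← (hφ r (hD1 h4.1)).2.2.1]
          simp only [hu, if_pos h4.1, if_neg h4.2, if_neg (disjoint_left.1 hPS (hD1 h4.1)), mul_one]
        · refine prod_eq_zero (mem_union_left _ (mem_union_right _ h4.2)) ?_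
          rw [← (hφ r (hE1 h4.2)).2.2.1]
          simp only [hu, if_pos h4.2, if_neg h4.1, if_neg (disjoint_left.1 hPS (hE1 h4.2)), mul_one,
            one_mul]
    rw [h2] at h1
    have h3 : 2 * ((∏ r ∈ T, r : ℕ) : ℝ) * (z : ℝ) ^ 4 * (X + Y) ≤ 2 * q * (z : ℝ) ^ 6 * (X + Y) := by
      have : ((∏ r ∈ T, r : ℕ) : ℝ) ≤ z * z * q := by exact_mod_cast hM
      calc _ ≤ 2 * ((z : ℝ) * z * q) * (z : ℝ) ^ 4 * (X + Y) := by gcongr
        _ = _ := by ring
    linarith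
  have h1 : (B.card : ℝ) * G ^ 2 ≤ ∑ x ∈ range X, ∑ y ∈ range Y,
      (∑ D ∈ Ds P z, ∏ r ∈ D, φ r x y) ^ 2 * ∏ r ∈ S, w r x y := by
    rw [← sum_product', ← nsmul_eq_mul, ← sum_const]
    refine le_trans (le_of_eq (sum_congr rfl fun v hv => ?_)) (sum_le_sum_of_subset_of_nonneg hB
      fun v _ _ => mul_nonneg (sq_nonneg _) (prod_nonneg fun r hr => ((hw r hr).2 _ _).1))
    rw [prod_eq_one (hB1 v hv).2, mul_one, hGd, Gs]
    congr 1
    exact sum_congr rfl fun D hD => prod_congr rfl fun r hr =>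
      ((hB1 v hv).1 r ((mem_Ds.1 hD).1 hr)).symm
  have h2 : ∑ x ∈ range X, ∑ y ∈ range Y,
      (∑ D ∈ Ds P z, ∏ r ∈ D, φ r x y) ^ 2 * ∏ r ∈ S, w r x y =
      ∑ D ∈ Ds P z, ∑ E ∈ Ds P z, ∑ x ∈ range X, ∑ y ∈ range Y,
        (∏ r ∈ D, φ r x y) * (∏ r ∈ E, φ r x y) * ∏ r ∈ S, w r x y := by
    simp only [← sum_product' (range X) (range Y)]
    rw [sum_comm]
    simp only [sum_comm (t := range X ×ˢ range Y)]
    refine sum_congr rfl fun v _ => ?_
    rw [sq, sum_mul_sum, sum_mul, sum_comm]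
    exact sum_congr rfl fun D _ => by simp only [sum_mul]
  have hc : ((Ds P z).card : ℝ) ≤ z := by exact_mod_cast card_Ds hP z
  have h3 : (B.card : ℝ) * G ^ 2 ≤ X * Y * (∏ r ∈ S, av r (w r)) * G +
      2 * q * (z : ℝ) ^ 8 * (X + Y) := by
    refine (h1.trans (h2.le.trans (sum_le_sum fun D hD => sum_le_sum fun E hE =>
      key D hD E hE))).trans ?_
    simp only [sum_add_distrib, ← mul_sum, sum_ite_eq, sum_const, nsmul_eq_mul]
    rw [sum_congr rfl fun D hD => if_pos hD, ← sum_mul]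
    have : ((Ds P z).card : ℝ) * ((Ds P z).card * (2 * q * (z : ℝ) ^ 6 * (X + Y))) ≤
        2 * q * (z : ℝ) ^ 8 * (X + Y) :=
      calc _ ≤ (z : ℝ) * (z * (2 * q * (z : ℝ) ^ 6 * (X + Y))) := by gcongr
        _ = _ := by ring
    rw [hGd, Gs]
    linarith
  have hE : (0 : ℝ) ≤ 2 * q * (z : ℝ) ^ 8 * (X + Y) := by positivity
  refine le_of_mul_le_mul_right (h3.trans ?_) (show 0 < G ^ 2 by positivity)
  have h4 : X * Y * (∏ r ∈ S, av r (w r)) / G * G ^ 2 = X * Y * (∏ r ∈ S, av r (w r)) * G := by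
    field_simp
  rw [add_mul, h4]
  have := mul_le_mul_of_nonneg_left (one_le_pow₀ (n := 2) hG) hE
  linarith

end Pool.Agent.MP_c481b3_nt.H63
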