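import Pool.Agent.MP_c481b3_nt.H63.Sieve
import Pool.Agent.MP_c481b3_nt.H73.Primes

/-! The counting theorem. -/

namespace Pool.Agent.MP_c481b3_nt.H63

open Filter Finset

open Classical in
/-- the members of `S` up to `x` -/
noncomputable def PS (S : Set ℕ) (x : ℕ) : Finset ℕ := (range (x + 1)).filter fun p => p ∈ S

theorem mem_PS {S : Set ℕ} {x p : ℕ} : p ∈ PS S x ↔ p ∈ S ∧ p ≤ x := by
  simp [PS, and_comm]

theorem ncard_PS (S : Set ℕ) (x : ℕ) : ({p ∈ S | p ≤ x} : Set ℕ).ncard = (PS S x).card := by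
  rw [← Set.ncard_coe_finset]
  exact congrArg _ (Set.ext fun p => by simp [mem_PS])

theorem rank_sum {S : Set ℕ} (hB : ∀ᶠ x : ℕ in atTop, ((PS S x).card : ℝ) ≤ Real.log x ^ 2)
    {η ε : ℝ} (hη : 0 < η) (hε : 0 < ε) :
    ∃ P0 : ℕ, ∀ T : Finset ℕ, (∀ p ∈ T, p ∈ S ∧ P0 < p) → ∑ p ∈ T, (p : ℝ) ^ (-η) ≤ ε := by
  have hs : Summable fun n : ℕ => ((n : ℝ) ^ 2)⁻¹ := Real.summable_nat_pow_inv.mpr one_lt_two
  set B := ∑' n : ℕ, ((n : ℝ) ^ 2)⁻¹ with hBd
  have hB0 : 0 ≤ B := tsum_nonneg fun n => by positivity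
  have h1 := tendsto_natCast_atTop_atTop (R := ℝ) |>.eventually (ev_log ((B + 1) / ε) 4 hη)
  obtain ⟨P0, hP⟩ := eventually_atTop.mp (hB.and h1)
  refine ⟨P0, fun T hT => ?_⟩
  have hlt : ∀ p ∈ T, ∀ q ∈ T, p < q → (PS S p).card < (PS S q).card := fun p _ q hq h =>
    card_lt_card ⟨fun s hs => mem_PS.mpr ⟨(mem_PS.mp hs).1, (mem_PS.mp hs).2.trans h.le⟩,
      fun h2 => absurd (mem_PS.mp (h2 (mem_PS.mpr ⟨(hT q hq).1, le_rfl⟩))).2 (not_le.mpr h)⟩
  have hinj : Set.InjOn (fun p => (PS S p).card) T := fun p hp q hq h => by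
    rcases lt_trichotomy p q with h2 | h2 | h2
    · exact absurd h (hlt p hp q hq h2).ne
    · exact h2
    · exact absurd h (hlt q hq p hp h2).ne'
  have h2 : ∑ p ∈ T, ((((PS S p).card : ℕ) : ℝ) ^ 2)⁻¹ ≤ B := by
    rw [← sum_image (f := fun n : ℕ => ((n : ℝ) ^ 2)⁻¹) hinj]
    exact hs.sum_le_tsum _ fun n _ => by positivity
  calc _ ≤ ∑ p ∈ T, ε / (B + 1) * ((((PS S p).card : ℕ) : ℝ) ^ 2)⁻¹ := by
        refine sum_le_sum fun p hp => ?_
        obtain ⟨a1, a2⟩ := hP p (hT p hp).2.le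
        have a3 : (0 : ℝ) < (PS S p).card := by
          exact_mod_cast card_pos.mpr ⟨p, mem_PS.mpr ⟨(hT p hp).1, le_rfl⟩⟩
        have a4 : ((PS S p).card : ℝ) ^ 2 ≤ Real.log p ^ 4 :=
          (pow_le_pow_left₀ a3.le a1 2).trans (le_of_eq (by ring))
        have a5 : (B + 1) / ε * ((PS S p).card : ℝ) ^ 2 ≤ (p : ℝ) ^ η :=
          (mul_le_mul_of_nonneg_left a4 (by positivity)).trans a2
        rw [Real.rpow_neg (Nat.cast_nonneg p)]
        refine (inv_anti₀ (by positivity) a5).trans (le_of_eq ?_)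
        field_simp
    _ ≤ ε / (B + 1) * (B + 1) := by
        rw [← mul_sum]
        exact mul_le_mul_of_nonneg_left (by linarith) (by positivity)
    _ = ε := by field_simp

theorem jac_two (a : ℤ) : jacobiSym a 2 ≠ -1 := by
  rw [← jacobiSym.legendreSym.to_jacobiSym, Ne, legendreSym.eq_neg_one_iff, not_not]
  generalize (a : ZMod 2) = x
  revert x
  decide

theorem cl_bound : ∃ C η : ℝ, 1 ≤ C ∧ 0 < η ∧ ∀ S : Finset ℕ, (∀ r ∈ S, r.Prime ∧ r ≠ 2) →
    ∀ᶠ Y : ℕ in atTop, ∀ (p : ℕ) (T : Finset ℕ), p.Prime → p ≠ 2 → p ∉ S →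
      (∀ l ∈ T, l ≤ Y ∧ Good S l ∧ l ≠ p) → Pair p T →
      (T.card : ℝ) ≤ C * (Y / (2 ^ S.card * Real.log Y)) * (p : ℝ) ^ (-η) +
        ((if p ≤ 4 * Y ^ 2 then C * (Y : ℝ) ^ (1 - η) else 0) + 1) := by
  classical
  obtain ⟨C, η, hC, hη, h⟩ := cover
  refine ⟨C, η, hC, hη, fun S hS => ?_⟩
  have e1 := tendsto_natCast_atTop_atTop (R := ℝ) |>.eventually (eventually_ge_atTop C)
  have e2 := tendsto_natCast_atTop_atTop (R := ℝ) |>.eventually
    (eventually_ge_atTop ((∏ r ∈ S, (r : ℝ)) ^ C))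
  filter_upwards [e1, e2] with Y e1 e2 p T hp hp2 hpS hT hP
  have hY : (1 : ℝ) ≤ Y := hC.trans e1
  have hW := Real.log_nonneg hY
  have h0 : 0 ≤ C * (Y / (2 ^ S.card * Real.log Y)) * (p : ℝ) ^ (-η) := by positivity
  split_ifs with hc
  · rcases T.eq_empty_or_nonempty with rfl | ⟨l0, hl0⟩
    · rw [card_empty, Nat.cast_zero]; positivity
    obtain ⟨-, ⟨b1, b2, -⟩, b3⟩ := hT l0 hl0
    have h1 := h S Y p l0 hS e1 e2 hp hp2 hpS b1 (by rintro rfl; omega) b3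
    rw [Nat.floor_natCast] at h1
    refine le_trans (Nat.cast_le.mpr (card_le_card fun l hl => ?_)) (h1.trans ?_)
    · exact mem_filter.mpr ⟨mem_range.mpr (Nat.lt_succ_of_le (hT l hl).1), (hT l hl).2.1,
        hP l0 hl0 l hl⟩
    · rw [mul_add, mul_div_assoc, mul_assoc, mul_comm ((p : ℝ) ^ (-η))]; linarith
  · have h1 := cls_large (not_le.mp hc) (fun l hl => ⟨(hT l hl).2.1.1, (hT l hl).1⟩) hP
    have h2 : (T.card : ℝ) ≤ 1 := by exact_mod_cast h1
    linarith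

theorem markov (P : Finset ℕ) (ht : ℕ → ℝ) (h0 : ∀ l, 0 ≤ ht l) (H : ℝ) :
    ((P.filter fun l => H < ht l).card : ℝ) * H ≤ ∑ l ∈ P, ht l := by
  rw [← nsmul_eq_mul, ← sum_const]
  exact (sum_le_sum fun l hl => (mem_filter.mp hl).2.le).trans
    (sum_le_sum_of_subset_of_nonneg (filter_subset _ _) fun l _ _ => h0 l)

theorem final {Y W K H : ℝ} {k X : ℕ} (hY : 1 ≤ Y) (hW : W = Real.log Y) (hW1 : 1 ≤ W)
    (hK : 1 ≤ K) (hH : H = K * √Y * W ^ (k + 1)) (hX : X = ⌈Real.exp H⌉₊) :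
    √Y ≤ X ∧ Real.log X ^ 2 / Real.log (Real.log X) ^ (2 * k + 3) ≤
      4 * K ^ 2 * 2 ^ (2 * k + 3) * (Y / W) := by
  have s1 : 1 ≤ √Y := Real.one_le_sqrt.mpr hY
  have s2 : √Y ≤ H := by
    have := one_le_pow₀ (n := k + 1) hW1
    rw [hH]
    calc √Y = 1 * √Y * 1 := by ring
      _ ≤ _ := by gcongr
  have s3 : Real.exp H ≤ X := hX ▸ Nat.le_ceil _
  have s4 := Real.add_one_le_exp H
  have s5 : H ≤ Real.log X := by
    rw [← Real.log_exp H]
    exact Real.log_le_log (Real.exp_pos _) s3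
  have s6 : Real.log X ≤ 2 * H := by
    have t1 : (X : ℝ) < Real.exp H + 1 := hX ▸ Nat.ceil_lt_add_one (Real.exp_pos _).le
    rw [Real.log_le_iff_le_exp (by linarith), two_mul, Real.exp_add]
    nlinarith
  have s7 : W / 2 ≤ Real.log (Real.log X) := by
    rw [hW, ← Real.log_sqrt (by linarith)]
    exact Real.log_le_log (by linarith) (s2.trans s5)
  refine ⟨by linarith, ?_⟩
  calc _ ≤ (2 * H) ^ 2 / (W / 2) ^ (2 * k + 3) := by
        have : 0 ≤ Real.log X := by linarith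
        gcongr
    _ = _ := by
        rw [hH, mul_pow, mul_pow, mul_pow, Real.sq_sqrt (by linarith), div_pow]
        field_simp
        ring

theorem count : CountStmt := by
  classical
  intro S S0 D k L0 A Cov ht hS hS0 hcov hpair h0 hmom
  simp only [ncard_PS]
  have tn := tendsto_natCast_atTop_atTop (R := ℝ)
  have tl := Real.tendsto_log_atTop.comp tn
  by_cases hB : ∀ᶠ x : ℕ in atTop, ((PS S x).card : ℝ) ≤ Real.log x ^ 2
  swap
  · refine ⟨1, one_pos, ?_⟩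
    refine ((not_eventually.mp hB).and_eventually
      ((Real.tendsto_log_atTop.comp tl).eventually (eventually_ge_atTop 1))).mono ?_
    rintro x ⟨a1, a2⟩
    rw [one_mul]
    exact (div_le_self (by positivity) (one_le_pow₀ a2)).trans (not_le.mp a1).le
  obtain ⟨C, η, hC, hη, hcl⟩ := cl_bound
  obtain ⟨P0, hP0⟩ := rank_sum hB hη (ε := 1 / (64 * C * (D + 1))) (by positivity)
  set S1 := S0 ∪ (PS S P0).erase 2 with hS1d
  have hS1 : ∀ r ∈ S1, r.Prime ∧ r ≠ 2 := fun r hr => by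
    rcases mem_union.mp hr with h | h
    · exact hS0 r h
    · exact ⟨hS r (mem_PS.mp (mem_erase.mp h).2).1, (mem_erase.mp h).1⟩
  set E : ℝ := 2 ^ S1.card with hE
  have hE1 : 1 ≤ E := one_le_pow₀ one_le_two
  set A1 := max A 1 with hA1
  have hA : 1 ≤ A1 := le_max_right _ _
  set K := 64 * A1 * E with hK
  have hK1 : 1 ≤ K := by nlinarith
  refine ⟨1 / (64 * E * (D + 1)) / (4 * K ^ 2 * 2 ^ (2 * k + 3)), by positivity,
    frequently_atTop.mpr fun a => ?_⟩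
  obtain ⟨x0, hx0⟩ := eventually_atTop.mp hB
  have e1 := tn.eventually (ev_log (128 * E * (L0 + 1)) 3 one_pos)
  have e2 := tn.eventually (ev_log (128 * E * (9 * D * C)) 3 hη)
  have e3 := tl.eventually (eventually_ge_atTop 1)
  obtain ⟨Y, f1, f2, f3, f4, f5, f6, f7, f8, f9⟩ := ((H73.primes S1 hS1).and_eventually
    ((hcl S1 hS1).and (hmom.and (e1.and (e2.and (e3.and ((eventually_ge_atTop 4).and
    ((eventually_ge_atTop x0).and (eventually_ge_atTop (a ^ 2)))))))))).exists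
  have hY : (4 : ℝ) ≤ Y := by exact_mod_cast f7
  set W := Real.log Y with hW
  have hW1 : 1 ≤ W := f6
  set H := K * √(Y : ℝ) * W ^ (k + 1) with hH
  set X := ⌈Real.exp H⌉₊ with hX
  obtain ⟨g1, g2⟩ := final (by linarith) hW hW1 hK1 hH hX
  refine ⟨X, ?_, ?_⟩
  · have : (a : ℝ) ≤ √(Y : ℝ) := Real.le_sqrt_of_sq_le (by exact_mod_cast f9)
    exact_mod_cast this.trans g1
  set M : ℝ := Y / (E * W) with hM
  have hM0 : 0 < M := by positivity
  set G := (range (Y + 1)).filter (Good S1) with hG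
  set T := (PS S X).filter fun p => P0 < p ∧ p ≠ 2 with hT
  set Cl : ℕ → ℕ → Finset ℕ := fun p i => G.filter fun l => l ∉ S ∧ Cov p i l with hCl
  set Bg := ((range (Y + 1)).filter fun l : ℕ => l.Prime ∧ l % 8 = 7).filter fun l => H < ht l
    with hBg
  have hsub : G ⊆ range L0 ∪ PS S Y ∪ Bg ∪
      (T.filter fun p => p ∉ S1).biUnion fun p => (range D).biUnion (Cl p) := by
    intro l hl
    obtain ⟨a1, a2⟩ := mem_filter.mp hl
    simp only [mem_union]
    by_cases c1 : l < L0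
    · exact .inl (.inl (.inl (mem_range.mpr c1)))
    by_cases c2 : l ∈ S
    · exact .inl (.inl (.inr (mem_PS.mpr ⟨c2, Nat.lt_succ_iff.mp (mem_range.mp a1)⟩)))
    by_cases c3 : H < ht l
    · exact .inl (.inr (mem_filter.mpr ⟨mem_filter.mpr ⟨a1, a2.1, a2.2.1⟩, c3⟩))
    obtain ⟨p, b1, i, b2, b3, b4, b5⟩ := (hcov l (not_lt.mp c1)
      ⟨a2.1, a2.2.1, fun r hr => a2.2.2 r (mem_union_left _ hr)⟩).resolve_left c2
    have b6 : p ≠ 2 := by rintro rfl; exact jac_two _ b3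
    have b7 : p ∉ S1 := fun h => by have := a2.2.2 p h; omega
    have b8 : P0 < p := not_le.mp fun h =>
      b7 (mem_union_right _ (mem_erase.mpr ⟨b6, mem_PS.mpr ⟨b1, h⟩⟩))
    have b9 : p ≤ X := by
      have : (p : ℝ) ≤ Real.exp H := by
        rw [← Real.log_le_iff_le_exp (by exact_mod_cast (hS p b1).pos)]
        exact b5.trans (not_lt.mp c3)
      exact_mod_cast this.trans (Nat.le_ceil _)
    exact .inr (mem_biUnion.mpr ⟨p, mem_filter.mpr ⟨mem_filter.mpr ⟨mem_PS.mpr ⟨b1, b9⟩, b8, b6⟩,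
      b7⟩, mem_biUnion.mpr ⟨i, mem_range.mpr b2, mem_filter.mpr ⟨hl, c2, b4⟩⟩⟩)
  set T1 := T.filter fun p => p ∉ S1 with hT1
  have hT1s : T1 ⊆ PS S X := (filter_subset _ _).trans (filter_subset _ _)
  have k1 : M / 16 ≤ G.card := by
    refine le_trans (le_of_eq ?_) f1
    rw [hM, hE, one_div, inv_pow]; field_simp
  have k2 : (L0 : ℝ) + (PS S Y).card ≤ M / 128 := by
    have := hx0 Y f8
    rw [Real.rpow_one] at f4
    rw [hM, le_div_iff₀ (by norm_num), le_div_iff₀ (by positivity)]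
    have h2 : (L0 : ℝ) ≤ L0 * W ^ 2 := le_mul_of_one_le_right (by positivity) (one_le_pow₀ hW1)
    calc _ ≤ (L0 * W ^ 2 + W ^ 2) * 128 * (E * W) := by gcongr
      _ = 128 * E * (L0 + 1) * W ^ 3 := by ring
      _ ≤ _ := f4
  have k3 : (Bg.card : ℝ) ≤ M / 64 := by
    have h1 := (markov _ ht h0 H).trans f3
    have h2 : (Y : ℝ) ^ (3 / 2 : ℝ) = Y * √(Y : ℝ) := by
      rw [Real.sqrt_eq_rpow, ← Real.rpow_one_add' (by positivity) (by norm_num)]; norm_num
    have h3 : 0 < √(Y : ℝ) := Real.sqrt_pos.mpr (by linarith)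
    refine le_of_mul_le_mul_right (h1.trans ?_) (show 0 < H by positivity)
    calc _ ≤ A1 * (Y : ℝ) ^ (3 / 2 : ℝ) * W ^ k := by gcongr; exact le_max_left _ _
      _ = _ := by rw [h2, hM, hH, hK, pow_succ]; field_simp
  have k4 : ∀ p ∈ T1, (((range D).biUnion (Cl p)).card : ℝ) ≤ D * (C * M * (p : ℝ) ^ (-η) +
      ((if p ≤ 4 * Y ^ 2 then C * (Y : ℝ) ^ (1 - η) else 0) + 1)) := fun p hp => by
    obtain ⟨a1, a2⟩ := mem_filter.mp hp
    obtain ⟨a3, -, a4⟩ := mem_filter.mp a1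
    have a5 := (mem_PS.mp a3).1
    refine (Nat.cast_le.mpr card_biUnion_le).trans ?_
    rw [Nat.cast_sum]
    refine (sum_le_card_nsmul _ _ _ fun i _ => f2 p (Cl p i) (hS p a5) a4 a2 (fun l hl => ?_)
      fun l hl m hm => hpair p i l m (mem_filter.mp hl).2.2 (mem_filter.mp hm).2.2).trans ?_
    · obtain ⟨b1, b2, -⟩ := mem_filter.mp hl
      obtain ⟨b3, b4⟩ := mem_filter.mp b1
      exact ⟨Nat.lt_succ_iff.mp (mem_range.mp b3), b4, fun h => b2 (h ▸ a5)⟩
    · rw [card_range, nsmul_eq_mul]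
  have k5 := hP0 T1 fun p hp =>
    ⟨(mem_PS.mp (hT1s hp)).1, (mem_filter.mp (mem_filter.mp hp).1).2.1⟩
  have k6 : ((T1.filter fun p => p ≤ 4 * Y ^ 2).card : ℝ) ≤ 9 * W ^ 2 := by
    have h1 : (T1.filter fun p => p ≤ 4 * Y ^ 2) ⊆ PS S (4 * Y ^ 2) := fun p hp =>
      mem_PS.mpr ⟨(mem_PS.mp (hT1s (mem_filter.mp hp).1)).1, (mem_filter.mp hp).2⟩
    refine (Nat.cast_le.mpr (card_le_card h1)).trans ((hx0 _ (by nlinarith)).trans ?_)
    have h2 : Real.log ((4 * Y ^ 2 : ℕ) : ℝ) ≤ 3 * W := by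
      refine (Real.log_le_log (by positivity) (show _ ≤ (Y : ℝ) ^ 3 by
        push_cast; nlinarith [sq_nonneg (Y : ℝ)])).trans (le_of_eq ?_)
      rw [Real.log_pow, hW]; norm_num
    exact (pow_le_pow_left₀ (Real.log_natCast_nonneg _) h2 2).trans (le_of_eq (by ring))
  have k7 : D * (9 * W ^ 2 * (C * (Y : ℝ) ^ (1 - η))) ≤ M / 128 := by
    have h1 : 0 < (Y : ℝ) ^ η := by positivity
    rw [Real.rpow_sub (by linarith), Real.rpow_one, hM, le_div_iff₀ (by norm_num),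
      le_div_iff₀ (by positivity)]
    calc _ = 128 * E * (9 * D * C) * W ^ 3 * (Y / (Y : ℝ) ^ η) := by ring
      _ ≤ (Y : ℝ) ^ η * (Y / (Y : ℝ) ^ η) := by gcongr
      _ = _ := by field_simp
  have k8 : ((T1.biUnion fun p => (range D).biUnion (Cl p)).card : ℝ) ≤
      M / 64 + M / 128 + (D + 1) * (PS S X).card := by
    refine (Nat.cast_le.mpr card_biUnion_le).trans ?_
    rw [Nat.cast_sum]
    refine (sum_le_sum k4).trans ?_
    rw [← mul_sum, sum_add_distrib, sum_add_distrib, ← mul_sum, ← sum_filter, sum_const, sum_const,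
      nsmul_eq_mul, nsmul_eq_mul, mul_one, mul_add, mul_add, add_assoc]
    have h1 : (T1.card : ℝ) ≤ (PS S X).card := Nat.cast_le.mpr (card_le_card hT1s)
    refine add_le_add ?_ (add_le_add (le_trans (by gcongr) k7) (by gcongr; linarith))
    calc _ ≤ (D + 1) * (C * M * (1 / (64 * C * (D + 1)))) := by gcongr; linarith
      _ = _ := by field_simp
  have k9 : (G.card : ℝ) ≤ L0 + (PS S Y).card + Bg.card +
      (T1.biUnion fun p => (range D).biUnion (Cl p)).card := by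
    have := (card_le_card hsub).trans ((card_union_le _ _).trans (Nat.add_le_add_right
      ((card_union_le _ _).trans (Nat.add_le_add_right (card_union_le _ _) _)) _))
    rw [card_range] at this
    exact_mod_cast this
  have k10 : M / 64 ≤ (D + 1) * (PS S X).card := by linarith
  rw [mul_div_assoc]
  calc _ ≤ 1 / (64 * E * (D + 1)) / (4 * K ^ 2 * 2 ^ (2 * k + 3)) *
        (4 * K ^ 2 * 2 ^ (2 * k + 3) * (Y / W)) := by gcongr
    _ = M / 64 / (D + 1) := by rw [hM]; field_simp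
    _ ≤ _ := by rw [div_le_iff₀' (by positivity)]; exact k10

end Pool.Agent.MP_c481b3_nt.H63
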