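import Mathlib

/-! Statements of the counting part. -/

namespace Pool.Agent.MP_c481b3_nt.H63

open Filter

/-- primes `l = 7 mod 8` such that `-l` is a nonzero square modulo each member of `S0` -/
def Good (S0 : Finset ℕ) (l : ℕ) : Prop :=
  l.Prime ∧ l % 8 = 7 ∧ ∀ r ∈ S0, jacobiSym (-l) r = 1

instance (S0 : Finset ℕ) : DecidablePred (Good S0) := fun l => by unfold Good; infer_instance

/-- many good primes, along a sequence -/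
def PrimesStmt : Prop :=
  ∀ S : Finset ℕ, (∀ r ∈ S, r.Prime ∧ r ≠ 2) → ∃ᶠ Y : ℕ in atTop,
    (1 / 2 : ℝ) ^ S.card / 16 * (Y / Real.log Y) ≤ ((Finset.range (Y + 1)).filter (Good S)).card

/-- the counting theorem -/
def CountStmt : Prop :=
  ∀ (S : Set ℕ) (S0 : Finset ℕ) (D k L0 : ℕ) (A : ℝ) (Cov : ℕ → ℕ → ℕ → Prop) (ht : ℕ → ℝ),
    (∀ p ∈ S, p.Prime) → (∀ r ∈ S0, r.Prime ∧ r ≠ 2) →
    (∀ l, L0 ≤ l → Good S0 l → l ∈ S ∨ ∃ p ∈ S, ∃ i < D,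
      jacobiSym (-l) p = -1 ∧ Cov p i l ∧ Real.log p ≤ ht l) →
    (∀ p i l l2, Cov p i l → Cov p i l2 → ∃ a b : ℤ, 4 * l * l2 = a ^ 2 + p * b ^ 2) →
    (∀ l, 0 ≤ ht l) →
    (∀ᶠ Y : ℕ in atTop, ∑ l ∈ (Finset.range (Y + 1)).filter (fun l => l.Prime ∧ l % 8 = 7), ht l ≤
      A * (Y : ℝ) ^ (3 / 2 : ℝ) * Real.log Y ^ k) →
    ∃ c : ℝ, 0 < c ∧ ∃ᶠ x : ℕ in atTop,
      c * Real.log x ^ 2 / Real.log (Real.log x) ^ (2 * k + 3) ≤ ({p ∈ S | p ≤ x} : Set ℕ).ncard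

end Pool.Agent.MP_c481b3_nt.H63
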