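import Mathlib

/-! The lemma of Estermann. -/

namespace Pool.Agent.MP_c481b3_nt.H63

open Complex Metric Filter Topology
open scoped ComplexOrder

theorem exists_zeta0_bound : ∃ K : ℝ, 4 ≤ K ∧ ∀ s ∈ closedBall (2 : ℂ) (3 / 2), ‖riemannZeta₀ s‖ ≤ K := by
  obtain ⟨K, hK⟩ := (isCompact_closedBall (2 : ℂ) (3 / 2)).exists_bound_of_continuousOn
    differentiable_riemannZeta₀.continuous.continuousOn
  exact ⟨max 4 K, le_max_left _ _, fun s hs => (hK s hs).trans (le_max_right _ _)⟩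

theorem iter_inv (n : ℕ) : iteratedDeriv n (fun s : ℂ => (s - 1)⁻¹) 2 = (-1) ^ n * n.factorial := by
  rw [iteratedDeriv_comp_sub_const n (fun s : ℂ => s⁻¹) 1]
  have h : (2 : ℂ) - 1 = 1 := by norm_num
  simp only [h, iteratedDeriv_eq_iterate]
  simp

theorem est : ∃ K : ℝ, 4 ≤ K ∧ ∀ (f : ℂ → ℂ) (a : ℕ → ℂ) (M β : ℝ),
    DifferentiableOn ℂ f (ball 2 (7 / 4)) → (∀ s ∈ ball (2 : ℂ) (7 / 4), ‖f s‖ ≤ M) → 1 ≤ M →
    0 ≤ a → a 1 = 1 → LSeries.abscissaOfAbsConv a < (2 : ℝ) →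
    (∀ᶠ s in 𝓝 (2 : ℂ), LSeries a s = riemannZeta s * f s) → 1 - 1 / K ≤ β → β < 1 → 0 ≤ f β →
    (1 - β) / 2 * Real.exp (-((1 - β) * (6 * Real.log (K * M) + 1))) ≤ (f 1).re := by
  obtain ⟨K, hK4, hK⟩ := exists_zeta0_bound
  refine ⟨12 * (K + 4), by linarith, fun f a M β hf hM hM1 ha ha1 habs heq hβ0 hβ1 hfβ => ?_⟩
  have hKβ : (1 - β) * K ≤ 1 := by
    have h1 : 1 - β ≤ 1 / (12 * (K + 4)) := by linarith
    rw [le_div_iff₀ (by linarith)] at h1
    nlinarith
  have hβ4 : 1 - β ≤ 1 / 4 := by nlinarith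
  set G : ℂ → ℂ := fun s => riemannZeta₀ s * f s + dslope f 1 s with hG
  have h1mem : (1 : ℂ) ∈ ball (2 : ℂ) (7 / 4) := by
    rw [mem_ball, dist_eq_norm]; norm_num
  have hGd : DifferentiableOn ℂ G (ball 2 (7 / 4)) :=
    (differentiable_riemannZeta₀.differentiableOn.mul hf).add
      ((differentiableOn_dslope (isOpen_ball.mem_nhds h1mem)).2 hf)
  have hGe : ∀ s : ℂ, s ≠ 1 → G s = riemannZeta s * f s - f 1 * (s - 1)⁻¹ := by
    intro s hs
    simp only [hG]
    rw [dslope_of_ne _ hs, slope_def_field, riemannZeta_eq_inv_sub_add hs]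
    ring
  have hsub : closedBall (2 : ℂ) (3 / 2) ⊆ ball 2 (7 / 4) := closedBall_subset_ball (by norm_num)
  have hGb : ∀ s ∈ sphere (2 : ℂ) (3 / 2), ‖G s‖ ≤ (K + 4) * M := by
    intro s hs
    have hs' := sphere_subset_closedBall hs
    rw [mem_sphere, dist_eq_norm] at hs
    have h2 : 1 / 2 ≤ ‖s - 1‖ := by
      have h3 : ‖s - 2‖ ≤ ‖s - 1‖ + ‖(1 : ℂ)‖ := by
        have : s - 2 = (s - 1) - 1 := by ring
        rw [this]; exact norm_sub_le _ _
      rw [norm_one] at h3
      linarith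
    have hs1 : s ≠ 1 := by
      rintro rfl
      norm_num at h2
    simp only [hG]
    rw [dslope_of_ne _ hs1, slope_def_field]
    refine (norm_add_le _ _).trans ?_
    rw [norm_mul, norm_div]
    have h4 : ‖riemannZeta₀ s‖ * ‖f s‖ ≤ K * M :=
      mul_le_mul (hK s hs') (hM s (hsub hs')) (norm_nonneg _) (by linarith)
    have h5 : ‖f s - f 1‖ / ‖s - 1‖ ≤ 4 * M := by
      rw [div_le_iff₀ (by linarith)]
      have := (norm_sub_le (f s) (f 1)).trans (add_le_add (hM s (hsub hs')) (hM 1 h1mem))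
      nlinarith
    linarith
  have hC : ∀ n : ℕ, ‖iteratedDeriv n G 2‖ ≤ n.factorial * ((K + 4) * M) / (3 / 2) ^ n := fun n =>
    norm_iteratedDeriv_le_of_forall_mem_sphere_norm_le n (by norm_num)
      (hGd.diffContOnCl_ball hsub) hGb
  have hβmem : (β : ℂ) ∈ closedBall (2 : ℂ) (3 / 2) := by
    rw [mem_closedBall, dist_eq_norm]
    have : (β : ℂ) - 2 = ((β - 2 : ℝ) : ℂ) := by push_cast; ring
    rw [this, norm_real, Real.norm_eq_abs, abs_le]
    constructor <;> linarith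
  have hT := hasSum_taylorSeries_on_ball hGd (hsub hβmem)
  set x : ℝ := 2 - β with hx
  have hx1 : 1 < x := by linarith
  set lam : ℝ := (f 1).re with hlam
  set b : ℕ → ℂ := fun n => (n.factorial : ℂ)⁻¹ • ((β : ℂ) - 2) ^ n • iteratedDeriv n G 2 with hb
  have hfac : ∀ n : ℕ, (0 : ℝ) < n.factorial := fun n => by exact_mod_cast n.factorial_pos
  have hbx : (β : ℂ) - 2 = -(x : ℂ) := by rw [hx]; push_cast; ring
  have hbn : ∀ n, ‖b n‖ ≤ (K + 4) * M * (5 / 6) ^ n := by
    intro n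
    simp only [hb]
    rw [norm_smul, norm_smul, norm_inv, norm_natCast, norm_pow, hbx, norm_neg, norm_real,
      Real.norm_eq_abs, abs_of_pos (by linarith)]
    have h1 : x ^ n ≤ (5 / 4) ^ n := pow_le_pow_left₀ (by linarith) (by linarith) n
    calc (n.factorial : ℝ)⁻¹ * (x ^ n * ‖iteratedDeriv n G 2‖)
        ≤ (n.factorial : ℝ)⁻¹ * ((5 / 4) ^ n * (n.factorial * ((K + 4) * M) / (3 / 2) ^ n)) :=
          mul_le_mul_of_nonneg_left (mul_le_mul h1 (hC n) (norm_nonneg _) (by positivity))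
            (by positivity)
      _ = (K + 4) * M * ((5 / 4) ^ n / (3 / 2) ^ n) := by
          have := (hfac n).ne'
          field_simp
      _ = (K + 4) * M * (5 / 6) ^ n := by rw [← div_pow]; norm_num
  have hLa : AnalyticAt ℂ (LSeries a) 2 :=
    LSeries_analyticOnNhd a 2 (by simpa using habs)
  have hIa : AnalyticAt ℂ (fun s : ℂ => f 1 * (s - 1)⁻¹) 2 :=
    analyticAt_const.mul ((analyticAt_id.sub analyticAt_const).inv (by norm_num))
  have hit : ∀ n, iteratedDeriv n G 2 =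
      iteratedDeriv n (LSeries a) 2 - f 1 * ((-1) ^ n * n.factorial) := by
    intro n
    have h1 : G =ᶠ[𝓝 2] fun s => LSeries a s - f 1 * (s - 1)⁻¹ := by
      filter_upwards [heq, compl_singleton_mem_nhds (show (2 : ℂ) ≠ 1 by norm_num)] with s h1 h2
      rw [hGe s h2, h1]
    rw [h1.iteratedDeriv_eq, iteratedDeriv_fun_sub hLa.contDiffAt hIa.contDiffAt,
      iteratedDeriv_const_mul_field, iter_inv]
  have hre : ∀ n, (b n).re = x ^ n * (((-1) ^ n * iteratedDeriv n (LSeries a) 2).re / n.factorial) -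
      x ^ n * lam := by
    intro n
    have h0 : (n.factorial : ℂ) ≠ 0 := Nat.cast_ne_zero.2 n.factorial_ne_zero
    have h2 : ((-1 : ℂ) ^ n) * (-1) ^ n = 1 := by rw [← mul_pow]; simp
    have h1 : b n = ((x ^ n / n.factorial : ℝ) : ℂ) * ((-1) ^ n * iteratedDeriv n (LSeries a) 2) -
        ((x ^ n : ℝ) : ℂ) * f 1 := by
      simp only [hb, smul_eq_mul]
      rw [hit, hbx, neg_pow (x : ℂ)]
      push_cast
      field_simp
      linear_combination (-(f 1) * (n.factorial : ℂ)) * h2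
    rw [h1, sub_re, re_ofReal_mul, re_ofReal_mul]
    ring
  have hal : ∀ n, 0 ≤ ((-1) ^ n * iteratedDeriv n (LSeries a) 2).re := fun n => by
    have := LSeries.iteratedDeriv_alternating ha habs n
    simpa using (Complex.le_def.1 this).1
  have ha0 : 1 ≤ (LSeries a 2).re := by
    have hs : LSeriesSummable a (2 : ℝ) :=
      LSeriesSummable_of_abscissaOfAbsConv_lt_re (by simpa using habs)
    have h1 : LSeries.term a (2 : ℝ) 1 ≤ LSeries a (2 : ℝ) :=
      hs.le_tsum 1 fun n _ => LSeries.term_nonneg (ha n) 2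
    rw [LSeries.term_of_ne_zero one_ne_zero, ha1] at h1
    simpa using (Complex.le_def.1 h1).1
  have hKM : 1 ≤ 12 * (K + 4) * M := by nlinarith
  set N : ℕ := ⌊6 * Real.log (12 * (K + 4) * M)⌋₊ + 1 with hN
  have hlog : 0 ≤ Real.log (12 * (K + 4) * M) := Real.log_nonneg hKM
  have hN1 : 6 * Real.log (12 * (K + 4) * M) ≤ N := by
    rw [hN]; push_cast; exact (Nat.lt_floor_add_one _).le
  have hN2 : (N : ℝ) ≤ 6 * Real.log (12 * (K + 4) * M) + 1 := by
    rw [hN]; push_cast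
    linarith [Nat.floor_le (show 0 ≤ 6 * Real.log (12 * (K + 4) * M) by linarith)]
  have h56 : (5 / 6 : ℝ) ^ N * (12 * (K + 4) * M) ≤ 1 := by
    have h1 : (5 / 6 : ℝ) ≤ Real.exp (-(1 / 6)) := by
      have := Real.add_one_le_exp (-(1 / 6) : ℝ)
      linarith
    have h2 : (5 / 6 : ℝ) ^ N ≤ Real.exp (-Real.log (12 * (K + 4) * M)) := by
      refine (pow_le_pow_left₀ (by norm_num) h1 N).trans ?_
      rw [← Real.exp_nat_mul]
      exact Real.exp_le_exp.2 (by linarith)
    rw [Real.exp_neg, Real.exp_log (by linarith)] at h2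
    calc _ ≤ (12 * (K + 4) * M)⁻¹ * (12 * (K + 4) * M) :=
          mul_le_mul_of_nonneg_right h2 (by linarith)
      _ = 1 := inv_mul_cancel₀ (by linarith)
  have htail : ‖G β - ∑ n ∈ Finset.range N, b n‖ ≤ 1 / 2 := by
    have h1 := (hasSum_nat_add_iff' N).2 hT
    have h2 : HasSum (fun n : ℕ => (K + 4) * M * (5 / 6) ^ N * (5 / 6 : ℝ) ^ n)
        ((K + 4) * M * (5 / 6) ^ N * (1 - 5 / 6)⁻¹) :=
      (hasSum_geometric_of_lt_one (by norm_num) (by norm_num)).mul_left _
    have h3 := h1.norm_le_of_bounded h2 fun n => by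
      refine (hbn (n + N)).trans (le_of_eq ?_)
      rw [pow_add]; ring
    refine h3.trans ?_
    norm_num
    nlinarith
  have hhead : 1 - lam * ((x ^ N - 1) / (x - 1)) ≤ (∑ n ∈ Finset.range N, b n).re := by
    rw [re_sum, ← geom_sum_eq hx1.ne', Finset.mul_sum]
    simp only [hre]
    rw [Finset.sum_sub_distrib]
    have h1 : (1 : ℝ) ≤ ∑ n ∈ Finset.range N,
        x ^ n * (((-1) ^ n * iteratedDeriv n (LSeries a) 2).re / n.factorial) := by
      refine le_trans ?_ (Finset.single_le_sum (f := fun n =>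
        x ^ n * (((-1) ^ n * iteratedDeriv n (LSeries a) 2).re / n.factorial))
        (fun n _ => mul_nonneg (by positivity) (div_nonneg (hal n) (hfac n).le))
        (show 0 ∈ Finset.range N from Finset.mem_range.2 (Nat.succ_pos _)))
      simpa using ha0
    have h2 : ∑ n ∈ Finset.range N, lam * x ^ n = ∑ n ∈ Finset.range N, x ^ n * lam :=
      Finset.sum_congr rfl fun n _ => mul_comm _ _
    linarith
  have hβne : (β : ℂ) ≠ 1 := by exact_mod_cast hβ1.ne
  have hx' : x - 1 = 1 - β := by rw [hx]; ring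
  have hpos : 0 < 1 - β := by linarith
  have hGβ : (G β).re ≤ lam / (1 - β) := by
    obtain ⟨h1, h2⟩ := Complex.le_def.1 hfβ
    have h3 : ((β : ℂ) - 1)⁻¹ = ((-(1 - β)⁻¹ : ℝ) : ℂ) := by
      push_cast
      rw [← inv_neg]; ring_nf
    have h4 : (riemannZeta β).re ≤ 0 := by
      rw [riemannZeta_eq_inv_sub_add hβne, h3, add_re, ofReal_re]
      have h5 := (re_le_norm _).trans (hK β hβmem)
      have h6 : K ≤ (1 - β)⁻¹ := by
        rw [← one_div, le_div_iff₀ hpos]; linarith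
      linarith
    rw [hGe β hβne, h3, sub_re, mul_re, ← h2, mul_comm (f 1), re_ofReal_mul]
    simp only [zero_re, zero_im, mul_zero, sub_zero] at h1 ⊢
    have := mul_nonpos_of_nonpos_of_nonneg h4 h1
    rw [div_eq_inv_mul]
    linarith
  have hfin : (1 - β) / 2 ≤ lam * x ^ N := by
    have h1 : (∑ n ∈ Finset.range N, b n).re - (G β).re ≤ 1 / 2 := by
      rw [← sub_re]
      refine (re_le_norm _).trans ?_
      rwa [norm_sub_rev]
    rw [hx'] at hhead
    have h2 : 1 / 2 ≤ lam * x ^ N / (1 - β) := by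
      have : lam * x ^ N / (1 - β) = lam * ((x ^ N - 1) / (1 - β)) + lam / (1 - β) := by
        field_simp; ring
      linarith
    rw [le_div_iff₀ hpos] at h2
    linarith
  have hxN : x ^ N ≤ Real.exp ((1 - β) * (6 * Real.log (12 * (K + 4) * M) + 1)) := by
    have h1 : x ≤ Real.exp (1 - β) := by
      have := Real.add_one_le_exp (1 - β)
      linarith
    refine (pow_le_pow_left₀ (by linarith) h1 N).trans ?_
    rw [← Real.exp_nat_mul]
    exact Real.exp_le_exp.2 (by nlinarith)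
  have hxp : 0 < x ^ N := by positivity
  have hl : 0 < lam := by
    by_contra h
    nlinarith [not_lt.1 h]
  rw [Real.exp_neg, ← div_eq_mul_inv, div_le_iff₀ (Real.exp_pos _)]
  exact hfin.trans (mul_le_mul_of_nonneg_left hxN hl.le)

end Pool.Agent.MP_c481b3_nt.H63
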