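import Pool.Agent.MP_c481b3_nt.H63.Loc

/-! Reduction of forms and the trivial bound. -/

namespace Pool.Agent.MP_c481b3_nt.H63

open Finset

/-- reduced forms of determinant `p` -/
structure Red (a b c : ℤ) (p : ℕ) : Prop where
  det : a * c - b ^ 2 = p
  pos : 0 < a
  le : a ≤ c
  abs : |2 * b| ≤ a

theorem Red.neg {a b c : ℤ} {p : ℕ} (h : Red a b c p) : Red a (-b) c p :=
  ⟨by rw [← h.det]; ring, h.pos, h.le, by rw [mul_neg, abs_neg]; exact h.abs⟩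

theorem reduce {p : ℕ} (hp : 0 < p) (n : ℕ) : ∀ a b c : ℤ, a < n → 0 < a → a * c - b ^ 2 = p →
    ∃ a' b' c' : ℤ, Red a' b' c' p ∧ ∀ x y, ∃ x' y', Qf a b c x y = Qf a' b' c' x' y' := by
  induction n with
  | zero => intro a b c h1 h2; omega
  | succ n ih =>
    intro a b c h1 h2 h3
    obtain ⟨t, ht⟩ : ∃ t, |2 * (b - a * t)| ≤ a := by
      have h4 := Int.emod_nonneg b h2.ne'
      have h5 := Int.emod_lt_of_pos b h2
      have h6 := Int.emod_def b a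
      by_cases h7 : 2 * (b % a) ≤ a
      · exact ⟨b / a, by rw [← h6, abs_le]; constructor <;> linarith⟩
      · refine ⟨b / a + 1, ?_⟩
        rw [show b - a * (b / a + 1) = b % a - a by rw [h6]; ring, abs_le]
        constructor <;> linarith
    have h4 : a * (c - 2 * b * t + a * t ^ 2) - (b - a * t) ^ 2 = p := by rw [← h3]; ring
    have h5 : ∀ x y, Qf a b c x y = Qf a (b - a * t) (c - 2 * b * t + a * t ^ 2) (x + t * y) y := by
      intro x y; simp only [Qf]; ring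
    by_cases h6 : a ≤ c - 2 * b * t + a * t ^ 2
    · exact ⟨_, _, _, ⟨h4, h2, h6, ht⟩, fun x y => ⟨_, _, h5 x y⟩⟩
    · have h7 : 0 < c - 2 * b * t + a * t ^ 2 := by
        have h8 : (0 : ℤ) < p := by exact_mod_cast hp
        exact (mul_pos_iff_of_pos_left h2).1 (by linarith [sq_nonneg (b - a * t)])
      obtain ⟨a', b', c', h8, h9⟩ := ih (c - 2 * b * t + a * t ^ 2) (b - a * t) a (by omega) h7
        (by rw [← h4]; ring)
      refine ⟨a', b', c', h8, fun x y => ?_⟩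
      obtain ⟨x', y', h10⟩ := h9 y (x + t * y)
      exact ⟨x', y', by rw [h5, ← h10]; simp only [Qf]; ring⟩

theorem eq_of_sq {l m : ℕ} (hl : l.Prime) (hm : m.Prime) {k n : ℤ} (hk : k ≠ 0)
    (h : k ^ 2 * l * m = n ^ 2) : l = m := by
  by_contra h1
  have := Fact.mk hl
  have := Fact.mk hm
  have h2 : k.natAbs ^ 2 * l * m = n.natAbs ^ 2 := by
    have := congrArg Int.natAbs h
    simpa [Int.natAbs_mul, Int.natAbs_pow] using this
  have hk' : k.natAbs ≠ 0 := Int.natAbs_ne_zero.2 hk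
  have h3 := congrArg (padicValNat l) h2
  rw [padicValNat.mul (mul_ne_zero (pow_ne_zero _ hk') hl.ne_zero) hm.ne_zero,
    padicValNat.mul (pow_ne_zero _ hk') hl.ne_zero, padicValNat.pow, padicValNat.pow,
    padicValNat_self, padicValNat_primes h1] at h3
  omega

/-- the relation between two primes in one class -/
def Pair (p : ℕ) (T : Finset ℕ) : Prop :=
  ∀ l ∈ T, ∀ m ∈ T, ∃ a b : ℤ, 4 * l * m = a ^ 2 + p * b ^ 2

theorem class_form {p l0 : ℕ} (hp : 0 < p) (hl0 : l0.Prime) (h0 : l0 ≠ 2) {T : Finset ℕ}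
    (h : ∀ l ∈ T, l.Prime ∧ ∃ a b : ℤ, 4 * l0 * l = a ^ 2 + p * b ^ 2) :
    ∃ a b c : ℤ, Red a b c p ∧ ∀ l ∈ T, l = l0 ∨
      (∃ x y : ℕ, (4 * l : ℤ) = Qf a b c x y) ∨ ∃ x y : ℕ, (4 * l : ℤ) = Qf a (-b) c x y := by
  have hp' : (1 : ℤ) ≤ p := by exact_mod_cast hp
  by_cases h1 : ∃ l1 ∈ T, l1 ≠ l0
  swap
  · exact ⟨1, 0, p, ⟨by ring, one_pos, hp', by simp⟩, fun l hl => Or.inl
      (not_not.1 fun h3 => h1 ⟨l, hl, h3⟩)⟩
  obtain ⟨l1, h1, h2⟩ := h1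
  have := Fact.mk hl0
  have hz : ∀ l ∈ T, ∃ a b : ℤ, 4 * l * l0 = a ^ 2 + p * b ^ 2 ∧
      (a : ZMod l0) ^ 2 + p * (b : ZMod l0) ^ 2 = 0 := by
    intro l hl
    obtain ⟨a, b, h3⟩ := (h l hl).2
    refine ⟨a, b, by rw [← h3]; ring, ?_⟩
    have := congrArg (Int.cast : ℤ → ZMod l0) h3
    simpa using this.symm
  obtain ⟨ρ, hρ⟩ : ∃ ρ : ℤ, (ρ : ZMod l0) ^ 2 + p = 0 := by
    obtain ⟨a, b, h3, h4⟩ := hz l1 h1
    have hb : (b : ZMod l0) ≠ 0 := by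
      intro hb
      rw [hb] at h4
      have ha : (a : ZMod l0) = 0 := by simpa using h4
      obtain ⟨a', rfl⟩ := (ZMod.intCast_zmod_eq_zero_iff_dvd _ _).1 ha
      obtain ⟨b', rfl⟩ := (ZMod.intCast_zmod_eq_zero_iff_dvd _ _).1 hb
      have h5 : (l0 : ℤ) ∣ ((4 * l1 : ℕ) : ℤ) := ⟨a' ^ 2 + p * b' ^ 2, mul_left_cancel₀
        (show (l0 : ℤ) ≠ 0 by exact_mod_cast hl0.ne_zero) (by push_cast; linear_combination h3)⟩
      rcases (Nat.Prime.dvd_mul hl0).1 (Int.natCast_dvd_natCast.1 h5) with h6 | h6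
      · exact h0 ((Nat.prime_dvd_prime_iff_eq hl0 Nat.prime_two).1
          (hl0.dvd_of_dvd_pow (n := 2) h6))
      · exact h2 ((Nat.prime_dvd_prime_iff_eq hl0 (h l1 h1).1).1 h6).symm
    refine ⟨((a : ZMod l0) / b).val, ?_⟩
    rw [Int.cast_natCast, ZMod.natCast_zmod_val]
    field_simp
    linear_combination h4
  obtain ⟨c, hc⟩ : (l0 : ℤ) ∣ ρ ^ 2 + p := by
    rw [← ZMod.intCast_zmod_eq_zero_iff_dvd]
    exact_mod_cast hρ
  obtain ⟨a', b', c', h3, h4⟩ := reduce hp (l0 + 1) l0 ρ c (by push_cast; omega)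
    (by exact_mod_cast hl0.pos) (by linear_combination -hc)
  refine ⟨a', b', c', h3, fun l hl => Or.inr ?_⟩
  have h5 : ∃ x y : ℤ, (4 * l : ℤ) = Qf (l0 : ℤ) ρ c x y := by
    obtain ⟨a, b, h5, h6⟩ := hz l hl
    have h7 : ((a - ρ * b : ℤ) : ZMod l0) * ((a - ρ * -b : ℤ) : ZMod l0) = 0 := by
      push_cast
      linear_combination h6 - (b : ZMod l0) ^ 2 * hρ
    have h8 : ∀ b : ℤ, 4 * l * l0 = a ^ 2 + p * b ^ 2 → ((a - ρ * b : ℤ) : ZMod l0) = 0 →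
        ∃ x y : ℤ, (4 * l : ℤ) = Qf (l0 : ℤ) ρ c x y := by
      intro b h8 h9
      obtain ⟨x, hx⟩ := (ZMod.intCast_zmod_eq_zero_iff_dvd _ _).1 h9
      refine ⟨x, b, mul_left_cancel₀ (show (l0 : ℤ) ≠ 0 by exact_mod_cast hl0.ne_zero) ?_⟩
      simp only [Qf]
      linear_combination h8 + (a + ρ * b + l0 * x) * hx + b ^ 2 * hc
    rcases mul_eq_zero.1 h7 with h9 | h9
    · exact h8 b h5 h9
    · exact h8 (-b) (by rw [h5]; ring) h9
  obtain ⟨x, y, h6⟩ := h5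
  obtain ⟨x', y', h7⟩ := h4 x y
  rw [h6, h7]
  obtain ⟨u, rfl | rfl⟩ := x'.eq_nat_or_neg <;> obtain ⟨v, rfl | rfl⟩ := y'.eq_nat_or_neg
  · exact Or.inl ⟨u, v, rfl⟩
  · exact Or.inr ⟨u, v, by simp only [Qf]; ring⟩
  · exact Or.inr ⟨u, v, by simp only [Qf]; ring⟩
  · exact Or.inl ⟨u, v, by simp only [Qf]; ring⟩

theorem Red.box {a b c : ℤ} {p : ℕ} (h : Red a b c p) {x y l Y : ℕ} (hl : l ≤ Y)
    (he : (4 * l : ℤ) = Qf a b c x y) :
    x ≤ ⌊√(8 * Y / a : ℝ)⌋₊ ∧ y ≤ ⌊√(8 * Y / c : ℝ)⌋₊ := by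
  have h1 : a * x ^ 2 + c * y ^ 2 ≤ 8 * Y := by
    have h2 := (abs_le.1 h.abs).1
    have h3 : (l : ℤ) ≤ Y := by exact_mod_cast hl
    have h4 : (0 : ℤ) ≤ x * y := by positivity
    simp only [Qf] at he
    nlinarith [mul_nonneg h.pos.le (sq_nonneg ((x : ℤ) - y)), mul_le_mul_of_nonneg_right h2 h4,
      mul_le_mul_of_nonneg_right h.le (sq_nonneg (y : ℤ))]
  have ha : (0 : ℝ) < a := by exact_mod_cast h.pos
  have hc : (0 : ℝ) < c := by exact_mod_cast h.pos.trans_le h.le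
  have h2 : (a : ℝ) * x ^ 2 + c * y ^ 2 ≤ 8 * Y := by exact_mod_cast h1
  constructor
  · refine Nat.le_floor (Real.le_sqrt_of_sq_le ?_)
    rw [le_div_iff₀ ha]
    nlinarith [mul_nonneg hc.le (sq_nonneg (y : ℝ))]
  · refine Nat.le_floor (Real.le_sqrt_of_sq_le ?_)
    rw [le_div_iff₀ hc]
    nlinarith [mul_nonneg ha.le (sq_nonneg (x : ℝ))]

theorem Red.area {a b c : ℤ} {p : ℕ} (h : Red a b c p) (hp : 0 < p) (Y : ℕ) :
    √(8 * Y / a : ℝ) * √(8 * Y / c : ℝ) ≤ 8 * Y / √(p : ℝ) := by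
  have ha : (0 : ℝ) < a := by exact_mod_cast h.pos
  have hp' : (0 : ℝ) < p := by exact_mod_cast hp
  have h1 : (p : ℝ) ≤ a * c := by
    have : (p : ℤ) ≤ a * c := by nlinarith [h.det, sq_nonneg b]
    exact_mod_cast this
  rw [← Real.sqrt_mul (by positivity), div_mul_div_comm, Real.sqrt_div (by positivity),
    Real.sqrt_mul_self (by positivity)]
  exact div_le_div_of_nonneg_left (by positivity) (Real.sqrt_pos.2 hp') (Real.sqrt_le_sqrt h1)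

theorem Red.triv {a b c : ℤ} {p : ℕ} (h : Red a b c p) (hp : 0 < p) {Y : ℕ} {T : Finset ℕ}
    (hT : ∀ l ∈ T, l.Prime ∧ l ≤ Y ∧ ∃ x y : ℕ, (4 * l : ℤ) = Qf a b c x y) :
    (T.card : ℝ) ≤ 1 + 16 * Y / √(p : ℝ) := by
  classical
  set X := ⌊√(8 * Y / a : ℝ)⌋₊
  set W := ⌊√(8 * Y / c : ℝ)⌋₊
  have h1 : T ⊆ (T.filter fun l : ℕ => ∃ x : ℕ, (4 * l : ℤ) = a * x ^ 2) ∪
      (range (X + 1) ×ˢ Ioc 0 W).image fun v => (Qf a b c v.1 v.2 / 4).toNat := by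
    intro l hl
    obtain ⟨-, h2, x, y, h3⟩ := hT l hl
    obtain ⟨h4, h5⟩ := h.box h2 h3
    rcases Nat.eq_zero_or_pos y with rfl | hy
    · exact mem_union_left _ (mem_filter.2 ⟨hl, x, by simpa [Qf] using h3⟩)
    · refine mem_union_right _ (mem_image.2 ⟨(x, y), mem_product.2
        ⟨mem_range.2 (Nat.lt_succ_of_le h4), mem_Ioc.2 ⟨hy, h5⟩⟩, ?_⟩)
      simp [← h3]
  have h2 : (T.filter fun l : ℕ => ∃ x : ℕ, (4 * l : ℤ) = a * x ^ 2).card ≤ 1 := by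
    refine card_le_one.2 fun l hl m hm => ?_
    obtain ⟨h3, x, h4⟩ := mem_filter.1 hl
    obtain ⟨h5, y, h6⟩ := mem_filter.1 hm
    exact eq_of_sq (hT l h3).1 (hT m h5).1 (k := 4) (n := a * x * y) (by norm_num)
      (by linear_combination (4 * m : ℤ) * h4 + a * x ^ 2 * h6)
  have h3 : T.card ≤ 1 + (X + 1) * W := by
    refine (card_le_card h1).trans ((card_union_le _ _).trans (add_le_add h2 ?_))
    exact card_image_le.trans (by simp)
  have h4 : ((X + 1) * W : ℝ) ≤ 16 * Y / √(p : ℝ) := by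
    rcases Nat.eq_zero_or_pos W with h5 | h5
    · rw [h5, Nat.cast_zero, mul_zero]; positivity
    have h6 : (W : ℝ) ≤ √(8 * Y / c : ℝ) := Nat.floor_le (Real.sqrt_nonneg _)
    have h7 : (X : ℝ) ≤ √(8 * Y / a : ℝ) := Nat.floor_le (Real.sqrt_nonneg _)
    have h8 : √(8 * Y / c : ℝ) ≤ √(8 * Y / a : ℝ) := Real.sqrt_le_sqrt
      (div_le_div_of_nonneg_left (by positivity) (by exact_mod_cast h.pos) (by exact_mod_cast h.le))
    have h9 : (1 : ℝ) ≤ W := by exact_mod_cast h5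
    calc _ ≤ 2 * √(8 * Y / a : ℝ) * √(8 * Y / c : ℝ) :=
          mul_le_mul (by linarith) h6 (by positivity) (by positivity)
      _ ≤ 2 * (8 * Y / √(p : ℝ)) := by rw [mul_assoc]; linarith [h.area hp Y]
      _ = _ := by ring
  have h5 : (T.card : ℝ) ≤ 1 + (X + 1) * W := by exact_mod_cast h3
  linarith

theorem cls_triv {p : ℕ} (hp : 0 < p) {Y : ℕ} {T : Finset ℕ}
    (hT : ∀ l ∈ T, l.Prime ∧ l ≠ 2 ∧ l ≤ Y) (h : Pair p T) :
    (T.card : ℝ) ≤ 3 + 32 * Y / √(p : ℝ) := by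
  classical
  rcases T.eq_empty_or_nonempty with rfl | ⟨l0, h0⟩
  · rw [card_empty, Nat.cast_zero]; positivity
  obtain ⟨a, b, c, h1, h2⟩ := class_form hp (hT l0 h0).1 (hT l0 h0).2.1
    fun l hl => ⟨(hT l hl).1, h l0 h0 l hl⟩
  have h3 := h1.triv hp (Y := Y) (T := T.filter fun l : ℕ => ∃ x y : ℕ, (4 * l : ℤ) = Qf a b c x y)
    fun l hl => ⟨(hT l (mem_filter.1 hl).1).1, (hT l (mem_filter.1 hl).1).2.2, (mem_filter.1 hl).2⟩
  have h4 := h1.neg.triv hp (Y := Y)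
    (T := T.filter fun l : ℕ => ∃ x y : ℕ, (4 * l : ℤ) = Qf a (-b) c x y)
    fun l hl => ⟨(hT l (mem_filter.1 hl).1).1, (hT l (mem_filter.1 hl).1).2.2, (mem_filter.1 hl).2⟩
  have h5 : T.card ≤ 1 + ((T.filter fun l : ℕ => ∃ x y : ℕ, (4 * l : ℤ) = Qf a b c x y).card +
      (T.filter fun l : ℕ => ∃ x y : ℕ, (4 * l : ℤ) = Qf a (-b) c x y).card) := by
    refine le_trans (card_le_card (t := {l0} ∪ (_ ∪ _)) fun l hl => ?_)
      ((card_union_le _ _).trans (add_le_add (by simp) (card_union_le _ _)))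
    rcases h2 l hl with h5 | h5 | h5
    · exact mem_union_left _ (mem_singleton.2 h5)
    · exact mem_union_right _ (mem_union_left _ (mem_filter.2 ⟨hl, h5⟩))
    · exact mem_union_right _ (mem_union_right _ (mem_filter.2 ⟨hl, h5⟩))
  have h6 := (Nat.cast_le (α := ℝ)).2 h5
  push_cast at h6
  have h7 : 32 * Y / √(p : ℝ) = 16 * Y / √(p : ℝ) + 16 * Y / √(p : ℝ) := by ring
  linarith

theorem cls_large {p Y : ℕ} (hp : 4 * Y ^ 2 < p) {T : Finset ℕ} (hT : ∀ l ∈ T, l.Prime ∧ l ≤ Y)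
    (h : Pair p T) : T.card ≤ 1 := by
  refine card_le_one.2 fun l hl m hm => ?_
  obtain ⟨a, b, h1⟩ := h l hl m hm
  have h2 : (l : ℤ) * m ≤ Y * Y := by exact_mod_cast Nat.mul_le_mul (hT l hl).2 (hT m hm).2
  have h3 : (4 * Y ^ 2 : ℤ) < p := by exact_mod_cast hp
  have h4 : b = 0 := by
    by_contra h4
    have : 1 ≤ b ^ 2 := (one_le_sq_iff_one_le_abs b).2 (Int.one_le_abs h4)
    nlinarith [sq_nonneg a, sq_nonneg (Y : ℤ)]
  exact eq_of_sq (hT l hl).1 (hT m hm).1 (k := 2) (n := a) (by norm_num)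
    (by rw [h4] at h1; linear_combination h1)

end Pool.Agent.MP_c481b3_nt.H63
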