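import Pool.Agent.MP_c481b3_nt.H63.Est

/-! Dirichlet series of completely multiplicative functions with bounded sums. -/

namespace Pool.Agent.MP_c481b3_nt.H63

open Complex Metric Filter Topology ArithmeticFunction Finset
open scoped ComplexOrder

/-- completely multiplicative, bounded by one, with sums bounded by `q` -/
structure Ch (χ : ArithmeticFunction ℝ) (q : ℝ) : Prop where
  one : χ 1 = 1
  mul : ∀ m n, χ (m * n) = χ m * χ n
  abs : ∀ n, |χ n| ≤ 1
  sum : ∀ N, |∑ k ∈ range N, χ k| ≤ q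

theorem Ch.one_le {χ : ArithmeticFunction ℝ} {q : ℝ} (h : Ch χ q) : 1 ≤ q := by
  simpa [sum_range_succ, h.one] using h.sum 2

theorem Ch.mono {χ : ArithmeticFunction ℝ} {q q' : ℝ} (h : Ch χ q) (hq : q ≤ q') : Ch χ q' :=
  ⟨h.one, h.mul, h.abs, fun N => (h.sum N).trans hq⟩

/-! ### positivity of convolutions -/

theorem log_mul (f g : ArithmeticFunction ℝ) :
    pmul ArithmeticFunction.log (f * g) =
      pmul ArithmeticFunction.log f * g + f * pmul ArithmeticFunction.log g := by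
  ext n
  simp only [pmul_apply, mul_apply, ArithmeticFunction.add_apply, log_apply, mul_sum, ← sum_add_distrib]
  refine sum_congr rfl fun x hx => ?_
  obtain ⟨h1, h2⟩ := Nat.mem_divisorsAntidiagonal.1 hx
  have ha : x.1 ≠ 0 := fun h => h2 (by rw [← h1, h, zero_mul])
  have hb : x.2 ≠ 0 := fun h => h2 (by rw [← h1, h, mul_zero])
  rw [← h1, Nat.cast_mul, Real.log_mul (Nat.cast_ne_zero.2 ha) (Nat.cast_ne_zero.2 hb)]
  ring

theorem log_ch {χ : ArithmeticFunction ℝ} (h : ∀ m n, χ (m * n) = χ m * χ n) :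
    pmul ArithmeticFunction.log χ = pmul vonMangoldt χ * χ := by
  ext n
  simp only [pmul_apply, mul_apply, log_apply]
  rw [← vonMangoldt_sum, ← Nat.sum_divisorsAntidiagonal (fun a _ => vonMangoldt a), sum_mul]
  refine sum_congr rfl fun x hx => ?_
  rw [← (Nat.mem_divisorsAntidiagonal.1 hx).1, h]
  ring

theorem log_zeta : pmul ArithmeticFunction.log (zeta : ArithmeticFunction ℝ) =
    vonMangoldt * (zeta : ArithmeticFunction ℝ) := by
  rw [pmul_zeta, vonMangoldt_mul_zeta]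

theorem nonneg_of_log {g h : ArithmeticFunction ℝ} (hg : 0 ≤ g 1) (h0 : ∀ n, 0 ≤ h n) (h1 : h 1 = 0)
    (he : pmul ArithmeticFunction.log g = h * g) (n : ℕ) : 0 ≤ g n := by
  induction n using Nat.strong_induction_on with
  | _ n ih =>
    rcases Nat.lt_or_ge n 2 with hn | hn
    · interval_cases n
      · simp
      · exact hg
    have h2 : Real.log n * g n = ∑ x ∈ n.divisorsAntidiagonal, h x.1 * g x.2 := by
      have := congrArg (fun f : ArithmeticFunction ℝ => f n) he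
      simpa only [pmul_apply, mul_apply, log_apply] using this
    have h3 : 0 ≤ ∑ x ∈ n.divisorsAntidiagonal, h x.1 * g x.2 := by
      refine sum_nonneg fun x hx => ?_
      obtain ⟨h4, h5⟩ := Nat.mem_divisorsAntidiagonal.1 hx
      by_cases h6 : x.1 = 1
      · rw [h6, h1, zero_mul]
      · refine mul_nonneg (h0 _) (ih _ ?_)
        have ha : x.1 ≠ 0 := fun h => h5 (by rw [← h4, h, zero_mul])
        have hb : x.2 ≠ 0 := fun h => h5 (by rw [← h4, h, mul_zero])
        have : 2 ≤ x.1 := by omega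
        nlinarith [Nat.pos_of_ne_zero hb]
    have h4 : 0 < Real.log n := Real.log_pos (by exact_mod_cast hn)
    exact nonneg_of_mul_nonneg_right (h2 ▸ h3) h4

theorem Ch.zeta_mul_nonneg {χ : ArithmeticFunction ℝ} {q : ℝ} (h : Ch χ q) (n : ℕ) :
    0 ≤ ((zeta : ArithmeticFunction ℝ) * χ) n := by
  refine nonneg_of_log (h := vonMangoldt + pmul vonMangoldt χ) (by simp [h.one]) (fun n => ?_)
    (by simp) ?_ n
  · have := (abs_le.1 (h.abs n)).1
    have h2 : 0 ≤ vonMangoldt n := vonMangoldt_nonneg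
    simp only [ArithmeticFunction.add_apply, pmul_apply]
    nlinarith
  · rw [log_mul, log_zeta, log_ch h.mul]
    ring

theorem Ch.four_nonneg {χ ψ : ArithmeticFunction ℝ} {q q' : ℝ} (h : Ch χ q) (h' : Ch ψ q') (n : ℕ) :
    0 ≤ ((zeta : ArithmeticFunction ℝ) * (χ * (ψ * pmul χ ψ))) n := by
  refine nonneg_of_log (h := vonMangoldt + pmul vonMangoldt χ + pmul vonMangoldt ψ +
    pmul vonMangoldt (pmul χ ψ)) (by simp [h.one, h'.one]) (fun n => ?_) (by simp) ?_ n
  · have h1 := (abs_le.1 (h.abs n)).1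
    have h3 := (abs_le.1 (h'.abs n)).1
    have h2 : 0 ≤ vonMangoldt n := vonMangoldt_nonneg
    simp only [ArithmeticFunction.add_apply, pmul_apply]
    have := mul_nonneg h2 (mul_nonneg (show 0 ≤ 1 + χ n by linarith) (show 0 ≤ 1 + ψ n by linarith))
    nlinarith
  · have h4 : ∀ m n, pmul χ ψ (m * n) = pmul χ ψ m * pmul χ ψ n := fun m n => by
      simp only [pmul_apply, h.mul, h'.mul]; ring
    rw [log_mul, log_mul, log_mul, log_zeta, log_ch h.mul, log_ch h'.mul, log_ch h4]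
    ring

/-! ### summation by parts -/

theorem Ch.abel {χ : ArithmeticFunction ℝ} {q : ℝ} (h : Ch χ q) (w : ℕ → ℝ) (M : ℕ)
    (hw : ∀ n, M ≤ n → w (n + 1) ≤ w n) (h0 : ∀ n, M ≤ n → 0 ≤ w n) (N : ℕ) (hN : M ≤ N) :
    |∑ n ∈ Ico M N, χ n * w n| ≤ 2 * q * w M := by
  have hB : ∀ n, |∑ k ∈ range n, χ k - ∑ k ∈ range M, χ k| ≤ 2 * q := fun n =>
    (abs_sub _ _).trans (by linarith [h.sum n, h.sum M])
  have key : |∑ n ∈ Ico M N, χ n * w n - (∑ k ∈ range N, χ k - ∑ k ∈ range M, χ k) * w N| ≤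
      2 * q * (w M - w N) := by
    induction N, hN using Nat.le_induction with
    | base => simp
    | succ N hN ih =>
      rw [sum_Ico_succ_top hN]
      have h1 : ∑ n ∈ Ico M N, χ n * w n + χ N * w N -
          (∑ k ∈ range (N + 1), χ k - ∑ k ∈ range M, χ k) * w (N + 1) =
          (∑ n ∈ Ico M N, χ n * w n - (∑ k ∈ range N, χ k - ∑ k ∈ range M, χ k) * w N) +
          (∑ k ∈ range (N + 1), χ k - ∑ k ∈ range M, χ k) * (w N - w (N + 1)) := by
        rw [sum_range_succ]; ring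
      rw [h1]
      refine (abs_add_le _ _).trans ?_
      rw [abs_mul, abs_of_nonneg (sub_nonneg.2 (hw N hN))]
      have := mul_le_mul_of_nonneg_right (hB (N + 1)) (sub_nonneg.2 (hw N hN))
      linarith
  have h2 : |(∑ k ∈ range N, χ k - ∑ k ∈ range M, χ k) * w N| ≤ 2 * q * w N := by
    rw [abs_mul, abs_of_nonneg (h0 N hN)]
    exact mul_le_mul_of_nonneg_right (hB N) (h0 N hN)
  have h3 := abs_add_le (∑ n ∈ Ico M N, χ n * w n -
    (∑ k ∈ range N, χ k - ∑ k ∈ range M, χ k) * w N)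
    ((∑ k ∈ range N, χ k - ∑ k ∈ range M, χ k) * w N)
  rw [sub_add_cancel] at h3
  linarith

/-! ### the continuation -/

/-- the terms after summation by parts -/
noncomputable def tm (χ : ArithmeticFunction ℝ) (n : ℕ) (s : ℂ) : ℂ :=
  ((∑ k ∈ range (n + 2), χ k : ℝ) : ℂ) * (((n + 1 : ℕ) : ℂ) ^ (-s) - ((n + 2 : ℕ) : ℂ) ^ (-s))

/-- the continuation of the Dirichlet series -/
noncomputable def Lc (χ : ArithmeticFunction ℝ) (s : ℂ) : ℂ := ∑' n, tm χ n s

theorem cpow_diff {x : ℝ} (hx : 1 ≤ x) {s : ℂ} (hs : 0 < s.re) :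
    ‖(x : ℂ) ^ (-s) - ((x + 1 : ℝ) : ℂ) ^ (-s)‖ ≤ ‖s‖ * x ^ (-s.re - 1) := by
  have hs0 : -s ≠ 0 := by
    rw [neg_ne_zero]; rintro rfl; simp at hs
  have h := norm_image_sub_le_of_norm_deriv_le_segment' (f := fun y : ℝ => (y : ℂ) ^ (-s))
    (f' := fun y : ℝ => -s * (y : ℂ) ^ (-s - 1)) (a := x) (b := x + 1) (C := ‖s‖ * x ^ (-s.re - 1))
    (fun y hy => (hasDerivAt_ofReal_cpow_const (by linarith [hy.1]) hs0).hasDerivWithinAt)
    (fun y hy => by
      rw [norm_mul, norm_neg, norm_cpow_eq_rpow_re_of_pos (by linarith [hy.1])]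
      refine mul_le_mul_of_nonneg_left ?_ (norm_nonneg _)
      simp only [sub_re, neg_re, one_re]
      exact Real.rpow_le_rpow_of_nonpos (by linarith) hy.1 (by linarith))
    (x + 1) ⟨by linarith, le_rfl⟩
  rw [norm_sub_rev]
  simpa using h

theorem ball_re {s : ℂ} (hs : s ∈ ball (2 : ℂ) (7 / 4)) : 1 / 4 < s.re ∧ ‖s‖ ≤ 4 := by
  rw [mem_ball, dist_eq_norm] at hs
  have h1 := (abs_lt.1 ((abs_re_le_norm (s - 2)).trans_lt hs)).1
  have h2 : ‖s‖ ≤ ‖s - 2‖ + ‖(2 : ℂ)‖ := by simpa using norm_add_le (s - 2) 2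
  simp only [sub_re, re_ofNat, Complex.norm_ofNat] at h1 h2
  constructor <;> linarith

theorem Ch.tm_le {χ : ArithmeticFunction ℝ} {q : ℝ} (h : Ch χ q) (n : ℕ) {s : ℂ}
    (hs : s ∈ ball (2 : ℂ) (7 / 4)) : ‖tm χ n s‖ ≤ q * (4 * ((n + 1 : ℕ) : ℝ) ^ (-(5 / 4) : ℝ)) := by
  obtain ⟨h1, h2⟩ := ball_re hs
  have hn : (1 : ℝ) ≤ (n + 1 : ℕ) := by exact_mod_cast Nat.succ_pos n
  have h3 := cpow_diff hn (s := s) (by linarith)
  have h4 : ((((n + 1 : ℕ) : ℝ) + 1 : ℝ) : ℂ) = ((n + 2 : ℕ) : ℂ) := by push_cast; ring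
  rw [h4, ofReal_natCast] at h3
  rw [tm, norm_mul, norm_real, Real.norm_eq_abs]
  refine mul_le_mul (h.sum _) (h3.trans ?_) (norm_nonneg _) (by linarith [h.one_le])
  exact mul_le_mul h2 (Real.rpow_le_rpow_of_exponent_le hn (by linarith)) (by positivity)
    (by norm_num)

theorem summable_54 : Summable fun n : ℕ => 4 * ((n + 1 : ℕ) : ℝ) ^ (-(5 / 4) : ℝ) :=
  ((summable_nat_add_iff 1).2 (Real.summable_nat_rpow.2 (by norm_num))).mul_left 4

theorem Ch.differentiableOn {χ : ArithmeticFunction ℝ} {q : ℝ} (h : Ch χ q) :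
    DifferentiableOn ℂ (Lc χ) (ball 2 (7 / 4)) := by
  refine differentiableOn_tsum_of_summable_norm (summable_54.mul_left q) (fun n => ?_) isOpen_ball
    fun n s hs => h.tm_le n hs
  refine Differentiable.differentiableOn (Differentiable.const_mul (Differentiable.sub ?_ ?_) _)
  · exact differentiable_id.neg.const_cpow (Or.inl (Nat.cast_ne_zero.2 (by omega)))
  · exact differentiable_id.neg.const_cpow (Or.inl (Nat.cast_ne_zero.2 (by omega)))

theorem exists_bound : ∃ K : ℝ, 1 ≤ K ∧ ∀ (χ : ArithmeticFunction ℝ) (q : ℝ), Ch χ q →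
    ∀ s ∈ ball (2 : ℂ) (7 / 4), ‖Lc χ s‖ ≤ K * q := by
  refine ⟨max 1 (∑' n : ℕ, 4 * ((n + 1 : ℕ) : ℝ) ^ (-(5 / 4) : ℝ)), le_max_left _ _,
    fun χ q h s hs => ?_⟩
  refine (tsum_of_norm_bounded (summable_54.mul_left q).hasSum fun n => h.tm_le n hs).trans ?_
  rw [tsum_mul_left, mul_comm]
  exact mul_le_mul_of_nonneg_right (le_max_right _ _) (by linarith [h.one_le])

theorem sum_tm (χ : ArithmeticFunction ℝ) (s : ℂ) (N : ℕ) :
    ∑ n ∈ range N, tm χ n s = ∑ n ∈ range N, (χ (n + 1) : ℂ) * ((n + 1 : ℕ) : ℂ) ^ (-s) -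
      ((∑ k ∈ range (N + 1), χ k : ℝ) : ℂ) * ((N + 1 : ℕ) : ℂ) ^ (-s) := by
  induction N with
  | zero => simp
  | succ N ih =>
    rw [sum_range_succ, ih,
      sum_range_succ (fun n => (χ (n + 1) : ℂ) * ((n + 1 : ℕ) : ℂ) ^ (-s)) N, tm,
      sum_range_succ (fun k => χ k) (N + 1), ofReal_add, show N + 1 + 1 = N + 2 from rfl]
    ring

theorem Ch.tendsto {χ : ArithmeticFunction ℝ} {q : ℝ} (h : Ch χ q) {s : ℂ}
    (hs : s ∈ ball (2 : ℂ) (7 / 4)) :
    Tendsto (fun N => ∑ n ∈ range N, (χ (n + 1) : ℂ) * ((n + 1 : ℕ) : ℂ) ^ (-s)) atTop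
      (𝓝 (Lc χ s)) := by
  have h1 : Summable fun n => tm χ n s :=
    Summable.of_norm_bounded (summable_54.mul_left q) fun n => h.tm_le n hs
  have h2 := h1.hasSum.tendsto_sum_nat
  have h3 : Tendsto (fun N : ℕ => ((∑ k ∈ range (N + 1), χ k : ℝ) : ℂ) * ((N + 1 : ℕ) : ℂ) ^ (-s))
      atTop (𝓝 0) := by
    have h4 : Tendsto (fun N : ℕ => q * ((N + 1 : ℕ) : ℝ) ^ (-s.re)) atTop (𝓝 0) := by
      have := ((tendsto_rpow_neg_atTop (y := s.re) (by linarith [(ball_re hs).1])).comp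
        (tendsto_natCast_atTop_atTop.comp (tendsto_add_atTop_nat 1))).const_mul q
      simpa using this
    refine squeeze_zero_norm (fun N => ?_) h4
    rw [norm_mul, norm_real, Real.norm_eq_abs, norm_natCast_cpow_of_pos (Nat.succ_pos N), neg_re]
    exact mul_le_mul_of_nonneg_right (h.sum _) (by positivity)
  have h5 := h2.add h3
  simp only [sum_tm, sub_add_cancel, add_zero] at h5
  exact h5

/-- the complex valued copy -/
noncomputable def cc (f : ArithmeticFunction ℝ) : ArithmeticFunction ℂ := ⟨fun n => f n, by simp⟩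

@[simp] theorem cc_apply (f : ArithmeticFunction ℝ) (n : ℕ) : cc f n = f n := rfl

theorem cc_mul (f g : ArithmeticFunction ℝ) : cc (f * g) = cc f * cc g := by
  ext n
  simp [mul_apply]

theorem Ch.summable {χ : ArithmeticFunction ℝ} {q : ℝ} (h : Ch χ q) {s : ℂ} (hs : 1 < s.re) :
    LSeriesSummable (fun n => cc χ n) s :=
  LSeriesSummable_of_bounded_of_one_lt_re (m := 1) (fun n _ => by simpa using h.abs n) hs

theorem Ch.eq_LSeries {χ : ArithmeticFunction ℝ} {q : ℝ} (h : Ch χ q) {s : ℂ}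
    (hs : s ∈ ball (2 : ℂ) (7 / 4)) (h1 : 1 < s.re) : LSeries (fun n => cc χ n) s = Lc χ s := by
  have h2 := (tendsto_add_atTop_iff_nat 1).2 (h.summable h1).hasSum.tendsto_sum_nat
  refine tendsto_nhds_unique h2 ((h.tendsto hs).congr fun N => ?_)
  rw [sum_range_succ', LSeries.term_zero, add_zero]
  refine sum_congr rfl fun n _ => ?_
  rw [LSeries.term_of_ne_zero n.succ_ne_zero, cpow_neg, div_eq_mul_inv, cc_apply]

theorem real_mem {β : ℝ} (h1 : 1 / 2 ≤ β) (h2 : β ≤ 2) : (β : ℂ) ∈ ball (2 : ℂ) (7 / 4) := by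
  rw [mem_ball, dist_eq_norm]
  have : (β : ℂ) - 2 = ((β - 2 : ℝ) : ℂ) := by push_cast; ring
  rw [this, norm_real, Real.norm_eq_abs, abs_lt]
  constructor <;> linarith

theorem Ch.im_eq_zero {χ : ArithmeticFunction ℝ} {q : ℝ} (h : Ch χ q) {β : ℝ} (h1 : 1 / 2 ≤ β)
    (h2 : β ≤ 2) : (Lc χ β).im = 0 := by
  have h3 := (continuous_im.tendsto _).comp (h.tendsto (real_mem h1 h2))
  refine tendsto_nhds_unique h3 (tendsto_const_nhds.congr fun N => ?_)
  simp only [Function.comp_apply, im_sum]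
  refine (sum_eq_zero fun n _ => ?_).symm
  rw [← ofReal_natCast, ← ofReal_neg, ← ofReal_cpow (by positivity), ← ofReal_mul, ofReal_im]

theorem Ch.tendsto_one {χ : ArithmeticFunction ℝ} {q : ℝ} (h : Ch χ q) :
    Tendsto (fun N => ∑ n ∈ range N, χ n / n) atTop (𝓝 (Lc χ 1).re) := by
  have h3 := (continuous_re.tendsto _).comp (h.tendsto (real_mem (β := 1) (by norm_num) (by norm_num)))
  rw [← tendsto_add_atTop_iff_nat 1]
  refine h3.congr fun N => ?_
  simp only [Function.comp_apply, re_sum]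
  rw [sum_range_succ', Nat.cast_zero, div_zero, add_zero]
  refine sum_congr rfl fun n _ => ?_
  rw [ofReal_one, cpow_neg_one, ← ofReal_natCast, ← ofReal_inv, ← ofReal_mul, ofReal_re,
    div_eq_mul_inv]

theorem Ch.tail {χ : ArithmeticFunction ℝ} {q : ℝ} (h : Ch χ q) {M : ℕ} (hM : 1 ≤ M) :
    |(Lc χ 1).re - ∑ n ∈ range M, χ n / n| ≤ 2 * q / M := by
  have h1 := (h.tendsto_one.sub_const (∑ n ∈ range M, χ n / n)).abs
  refine le_of_tendsto h1 ?_
  filter_upwards [eventually_ge_atTop M] with N hN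
  rw [← sum_Ico_eq_sub _ hN]
  have := h.abel (fun n => (n : ℝ)⁻¹) M (fun n hn => inv_anti₀ (by exact_mod_cast hM.trans hn)
    (by push_cast; linarith)) (fun n _ => by positivity) N hN
  simpa only [div_eq_mul_inv] using this

end Pool.Agent.MP_c481b3_nt.H63
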