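import Pool.Agent.MP_c481b3_nt.H63.Box

/-! Local densities of a binary quadratic form. -/

namespace Pool.Agent.MP_c481b3_nt.H63

open Finset

/-- the form with even middle coefficient -/
def Qf {R : Type*} [CommRing R] (a b c x y : R) : R := a * x ^ 2 + 2 * b * x * y + c * y ^ 2

section Field

variable {F : Type*} [Field F] [Fintype F] [DecidableEq F] {A B C P : F}

theorem zero_lt (h : A * C - B ^ 2 = P) (hP : P ≠ 0) (h2 : (2 : F) ≠ 0) :
    (univ.filter fun v : F × F => Qf A B C v.1 v.2 = 0).card + 1 ≤ Fintype.card F ^ 2 := by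
  have h1 : ∃ v : F × F, Qf A B C v.1 v.2 ≠ 0 := by
    by_contra h3
    have h4 : ∀ x y, Qf A B C x y = 0 := fun x y => not_not.1 fun h5 => h3 ⟨(x, y), h5⟩
    have ha := h4 1 0
    have hc := h4 0 1
    have hb := h4 1 1
    simp only [Qf] at ha hb hc
    have h5 : 2 * B = 0 := by linear_combination hb - ha - hc
    have h6 := (mul_eq_zero.1 h5).resolve_left h2
    exact hP (by linear_combination -h + C * ha - B * h6)
  obtain ⟨v, hv⟩ := h1
  rw [sq, ← Fintype.card_prod, ← card_univ]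
  exact card_lt_card (filter_ssubset.2 ⟨v, mem_univ _, hv⟩)

theorem zero_ge_aux (v w : F × F) (hv : Qf A B C v.1 v.2 = 0) (hw : Qf A B C w.1 w.2 = 0)
    (h : ∀ s t : F, s • v = t • w → s = 0 ∧ t = 0) :
    2 * Fintype.card F ≤ (univ.filter fun v : F × F => Qf A B C v.1 v.2 = 0).card + 1 := by
  have hv0 : v ≠ 0 := fun h1 => one_ne_zero (h 1 0 (by simp [h1])).1
  have hw0 : w ≠ 0 := fun h1 => one_ne_zero (h 0 1 (by simp [h1])).2
  have h1 := card_union_add_card_inter (univ.image fun t : F => t • v) (univ.image fun t : F => t • w)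
  rw [card_image_of_injective _ (smul_left_injective F hv0),
    card_image_of_injective _ (smul_left_injective F hw0), card_univ] at h1
  have h2 : ((univ.image fun t : F => t • v) ∩ univ.image fun t : F => t • w).card ≤ 1 := by
    refine le_trans (card_le_card (t := {0}) fun u hu => ?_) (by simp)
    obtain ⟨h3, h4⟩ := mem_inter.1 hu
    obtain ⟨s, -, rfl⟩ := mem_image.1 h3
    obtain ⟨t, -, h5⟩ := mem_image.1 h4
    rw [(h s t h5.symm).1, zero_smul, mem_singleton]
  have h3 : ((univ.image fun t : F => t • v) ∪ univ.image fun t : F => t • w).card ≤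
      (univ.filter fun v : F × F => Qf A B C v.1 v.2 = 0).card := by
    refine card_le_card fun u hu => mem_filter.2 ⟨mem_univ _, ?_⟩
    rcases mem_union.1 hu with h4 | h4 <;> obtain ⟨t, -, rfl⟩ := mem_image.1 h4 <;>
      simp only [Qf, Prod.smul_fst, Prod.smul_snd, smul_eq_mul] at hv hw ⊢
    · linear_combination t ^ 2 * hv
    · linear_combination t ^ 2 * hw
  omega

theorem zero_ge (h : A * C - B ^ 2 = P) (hP : P ≠ 0) (h2 : (2 : F) ≠ 0) {ρ : F} (hρ : -P = ρ * ρ) :
    2 * Fintype.card F ≤ (univ.filter fun v : F × F => Qf A B C v.1 v.2 = 0).card + 1 := by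
  have hρ0 : ρ ≠ 0 := by
    rintro rfl
    exact hP (by linear_combination -hρ)
  by_cases hA : A = 0
  · have hB : B ≠ 0 := by
      rintro rfl
      exact hP (by linear_combination -h + C * hA)
    refine zero_ge_aux (1, 0) (C, -2 * B) (by simp [Qf, hA]) (by simp only [Qf, hA]; ring)
      fun s t hst => ?_
    simp only [Prod.smul_mk, smul_eq_mul, Prod.mk.injEq] at hst
    have ht : t = 0 := by
      have : t * (2 * B) = 0 := by linear_combination hst.2
      exact (mul_eq_zero.1 this).resolve_right (mul_ne_zero h2 hB)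
    exact ⟨by linear_combination hst.1 + C * ht, ht⟩
  · refine zero_ge_aux (-B + ρ, A) (-B - ρ, A) (by simp only [Qf]; linear_combination A * h - A * hρ)
      (by simp only [Qf]; linear_combination A * h - A * hρ) fun s t hst => ?_
    simp only [Prod.smul_mk, smul_eq_mul, Prod.mk.injEq] at hst
    have h3 : s = t := mul_right_cancel₀ hA hst.2
    subst h3
    have h4 : s * (2 * ρ) = 0 := by linear_combination hst.1
    have h5 := (mul_eq_zero.1 h4).resolve_right (mul_ne_zero h2 hρ0)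
    exact ⟨h5, h5⟩

theorem char_sum (h : A * C - B ^ 2 = P) (hP : P ≠ 0) (h2 : ringChar F ≠ 2) :
    ∑ v : F × F, quadraticChar F (-Qf A B C v.1 v.2) = 0 := by
  obtain ⟨ν, hν⟩ := FiniteField.exists_nonsquare h2
  have hν0 : ν ≠ 0 := by
    rintro rfl
    exact hν IsSquare.zero
  obtain ⟨s, t, hst⟩ := FiniteField.exists_root_sum_quadratic (f := Polynomial.X ^ 2)
    (g := Polynomial.C P * Polynomial.X ^ 2 - Polynomial.C ν) (by simp)
    (by rw [Polynomial.degree_sub_C] <;> simp [Polynomial.degree_C hP])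
    (FiniteField.odd_card_of_char_ne_two h2)
  simp only [Polynomial.eval_pow, Polynomial.eval_X, Polynomial.eval_sub, Polynomial.eval_mul,
    Polynomial.eval_C] at hst
  let T : F × F → F × F := fun v =>
    (s * v.1 + t * (-B * v.1 - C * v.2), s * v.2 + t * (A * v.1 + B * v.2))
  have hT : Function.Injective T := by
    intro v w hvw
    obtain ⟨h3, h4⟩ := Prod.mk.inj hvw
    refine Prod.ext (mul_left_cancel₀ hν0 ?_) (mul_left_cancel₀ hν0 ?_)
    · linear_combination (s + t * B) * h3 + t * C * h4 - (v.1 - w.1) * hst -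
        t ^ 2 * (v.1 - w.1) * h
    · linear_combination (-t * A) * h3 + (s - t * B) * h4 - (v.2 - w.2) * hst -
        t ^ 2 * (v.2 - w.2) * h
  have h3 := (Finite.injective_iff_bijective.1 hT).sum_comp
    fun v : F × F => quadraticChar F (-Qf A B C v.1 v.2)
  have h4 : ∀ v, quadraticChar F (-Qf A B C (T v).1 (T v).2) =
      -quadraticChar F (-Qf A B C v.1 v.2) := by
    intro v
    have h5 : -Qf A B C (T v).1 (T v).2 = ν * -Qf A B C v.1 v.2 := by
      simp only [Qf, T]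
      linear_combination (-(A * v.1 ^ 2 + 2 * B * v.1 * v.2 + C * v.2 ^ 2)) * hst -
        t ^ 2 * (A * v.1 ^ 2 + 2 * B * v.1 * v.2 + C * v.2 ^ 2) * h
    rw [h5, map_mul, quadraticChar_neg_one_iff_not_isSquare.2 hν, neg_one_mul]
  simp only [h4, sum_neg_distrib] at h3
  omega

end Field

theorem sum_range_zmod {r : ℕ} [NeZero r] (h : ZMod r → ℝ) :
    ∑ x ∈ range r, h x = ∑ t, h t := by
  refine sum_bij (s := range r) (fun (k : ℕ) _ => (k : ZMod r)) (fun _ _ => mem_univ _)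
    (fun k hk l hl hkl => ?_)
    (fun x _ => ⟨x.val, mem_range.2 (ZMod.val_lt x), ZMod.natCast_zmod_val x⟩) fun k _ => rfl
  have := congrArg ZMod.val hkl
  rwa [ZMod.val_cast_of_lt (mem_range.1 hk), ZMod.val_cast_of_lt (mem_range.1 hl)] at this

theorem sm_zmod {r : ℕ} [NeZero r] (h : ZMod r → ZMod r → ℝ) :
    sm r (fun x y => h x y) = ∑ v : ZMod r × ZMod r, h v.1 v.2 := by
  rw [sm, Fintype.sum_prod_type, ← sum_range_zmod]
  exact sum_congr rfl fun x _ => sum_range_zmod _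

theorem Qf_cast (a b c : ℤ) (x y r : ℕ) :
    ((Qf a b c x y : ℤ) : ZMod r) = Qf (a : ZMod r) b c x y := by
  simp [Qf]

theorem Qf_modEq (a b c : ℤ) {x y x' y' r : ℕ} (hx : x ≡ x' [MOD r]) (hy : y ≡ y' [MOD r]) :
    Qf a b c x y ≡ Qf a b c x' y' [ZMOD r] := by
  rw [← ZMod.intCast_eq_intCast_iff, Qf_cast, Qf_cast, (ZMod.natCast_eq_natCast_iff _ _ _).2 hx,
    (ZMod.natCast_eq_natCast_iff _ _ _).2 hy]

/-- the indicator of the zeros -/
def ind (a b c : ℤ) (r x y : ℕ) : ℝ := if (r : ℤ) ∣ Qf a b c x y then 1 else 0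

/-- the indicator of the points where minus the value is a nonzero square -/
def wt (a b c : ℤ) (r x y : ℕ) : ℝ := if jacobiSym (-Qf a b c x y) r = 1 then 1 else 0

/-- the density of the zeros -/
noncomputable def nu (a b c : ℤ) (r : ℕ) : ℝ := av r (ind a b c r)

theorem per_ind (a b c : ℤ) (r : ℕ) : Per r (ind a b c r) := fun _ _ _ _ hx hy => by
  simp only [ind, (Qf_modEq a b c hx hy).dvd_iff]

theorem per_wt (a b c : ℤ) (r : ℕ) : Per r (wt a b c r) := fun _ _ _ _ hx hy => by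
  simp only [wt, jacobiSym.mod_left' (Qf_modEq a b c hx hy).neg]

theorem sm_ind (a b c : ℤ) (r : ℕ) [Fact r.Prime] : sm r (ind a b c r) =
    (univ.filter fun v : ZMod r × ZMod r => Qf (a : ZMod r) b c v.1 v.2 = 0).card := by
  rw [card_filter]
  push_cast
  rw [← sm_zmod fun x y : ZMod r => if Qf (a : ZMod r) b c x y = 0 then 1 else 0]
  unfold ind
  simp only [← Qf_cast, ZMod.intCast_zmod_eq_zero_iff_dvd]

theorem loc_facts {a b c : ℤ} {p r : ℕ} (h : a * c - b ^ 2 = p) (hp : p.Prime) [hr : Fact r.Prime]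
    (h2 : r ≠ 2) (hrp : r ≠ p) : (a : ZMod r) * c - b ^ 2 = p ∧ (p : ZMod r) ≠ 0 ∧
      (2 : ZMod r) ≠ 0 ∧ ringChar (ZMod r) ≠ 2 := by
  refine ⟨by exact_mod_cast congrArg (Int.cast : ℤ → ZMod r) h, ?_, ?_, ?_⟩
  · rw [Ne, ZMod.natCast_eq_zero_iff, Nat.prime_dvd_prime_iff_eq hr.out hp]
    exact hrp
  · have : ((2 : ℕ) : ZMod r) ≠ 0 := by
      rw [Ne, ZMod.natCast_eq_zero_iff, Nat.prime_dvd_prime_iff_eq hr.out Nat.prime_two]
      exact h2
    exact_mod_cast this
  · rwa [ZMod.ringChar_zmod_n]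

theorem nu_nonneg (a b c : ℤ) (r : ℕ) : 0 ≤ nu a b c r :=
  div_nonneg (sum_nonneg fun _ _ => sum_nonneg fun _ _ => by unfold ind; positivity) (by positivity)

theorem nu_le {a b c : ℤ} {p r : ℕ} (h : a * c - b ^ 2 = p) (hp : p.Prime) (hr : r.Prime)
    (h2 : r ≠ 2) (hrp : r ≠ p) : 1 / (r : ℝ) ^ 2 ≤ 1 - nu a b c r := by
  have := Fact.mk hr
  obtain ⟨h3, h4, h5, -⟩ := loc_facts h hp h2 hrp
  have h6 := zero_lt h3 h4 h5
  rw [ZMod.card] at h6
  have h7 : (0 : ℝ) < (r : ℝ) ^ 2 := by have := hr.pos; positivity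
  rw [nu, av, sm_ind, one_sub_div h7.ne']
  refine div_le_div_of_nonneg_right ?_ h7.le
  rw [le_sub_iff_add_le']
  exact_mod_cast h6

theorem nu_ge {a b c : ℤ} {p r : ℕ} (h : a * c - b ^ 2 = p) (hp : p.Prime) (hr : r.Prime)
    (h2 : r ≠ 2) (hrp : r ≠ p) (hs : jacobiSym (-p) r = 1) :
    1 - nu a b c r ≤ (1 - 1 / (r : ℝ)) ^ 2 := by
  have := Fact.mk hr
  obtain ⟨h3, h4, h5, -⟩ := loc_facts h hp h2 hrp
  obtain ⟨ρ, hρ⟩ := ZMod.isSquare_of_jacobiSym_eq_one hs
  have h6 := zero_ge h3 h4 h5 (ρ := ρ) (by simpa using hρ)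
  rw [ZMod.card] at h6
  have h7 : (0 : ℝ) < r := by exact_mod_cast hr.pos
  rw [nu, av, sm_ind]
  have h8 : (2 * r - 1 : ℝ) ≤ (univ.filter fun v : ZMod r × ZMod r =>
      Qf (a : ZMod r) b c v.1 v.2 = 0).card := by
    rw [sub_le_iff_le_add]
    exact_mod_cast h6
  have h9 := div_le_div_of_nonneg_right h8 (pow_pos h7 2).le
  have h10 : (1 - 1 / (r : ℝ)) ^ 2 = 1 - (2 * r - 1) / (r : ℝ) ^ 2 := by field_simp; ring
  linarith

theorem av_wt {a b c : ℤ} {p r : ℕ} (h : a * c - b ^ 2 = p) (hp : p.Prime) (hr : r.Prime)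
    (h2 : r ≠ 2) (hrp : r ≠ p) : av r (wt a b c r) = (1 - nu a b c r) / 2 := by
  have := Fact.mk hr
  obtain ⟨h3, h4, -, h5⟩ := loc_facts h hp h2 hrp
  have h6 : sm r (fun x y => (quadraticChar (ZMod r) (-Qf (a : ZMod r) b c x y) : ℝ)) = 0 := by
    rw [sm_zmod fun x y : ZMod r => (quadraticChar (ZMod r) (-Qf (a : ZMod r) b c x y) : ℝ)]
    exact_mod_cast char_sum h3 h4 h5
  have h7 : ∀ x y : ℕ, wt a b c r x y = (1 - ind a b c r x y) / 2 +
      (quadraticChar (ZMod r) (-Qf (a : ZMod r) b c x y) : ℝ) / 2 := by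
    intro x y
    rw [wt, ind, ← jacobiSym.legendreSym.to_jacobiSym, legendreSym, Int.cast_neg, Qf_cast]
    by_cases h8 : (r : ℤ) ∣ Qf a b c x y
    · rw [if_pos h8, ← Qf_cast, (ZMod.intCast_zmod_eq_zero_iff_dvd _ _).2 h8]
      simp
    · rw [if_neg h8]
      rw [← ZMod.intCast_zmod_eq_zero_iff_dvd, Qf_cast] at h8
      rcases quadraticChar_dichotomy (neg_ne_zero.2 h8) with h9 | h9 <;> rw [h9] <;> norm_num
  have h8 : (0 : ℝ) < r := by exact_mod_cast hr.pos
  simp only [sm] at h6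
  simp only [nu, av, sm, h7, sum_add_distrib, ← sum_div, h6, sum_sub_distrib, sum_const, card_range,
    nsmul_eq_mul]
  field_simp
  ring

/-- the normalised indicator -/
noncomputable def ph (a b c : ℤ) (r x y : ℕ) : ℝ :=
  (nu a b c r - ind a b c r x y) / (1 - nu a b c r)

theorem ph_facts {a b c : ℤ} {p r : ℕ} (h : a * c - b ^ 2 = p) (hp : p.Prime) (hr : r.Prime)
    (h2 : r ≠ 2) (hrp : r ≠ p) : Per r (ph a b c r) ∧ (∀ x y, |ph a b c r x y| ≤ (r : ℝ) ^ 2) ∧
      av r (ph a b c r) = 0 ∧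
      av r (fun x y => ph a b c r x y * ph a b c r x y) = nu a b c r / (1 - nu a b c r) := by
  have h3 := nu_le h hp hr h2 hrp
  have h4 := nu_nonneg a b c r
  have h5 : (0 : ℝ) < r := by exact_mod_cast hr.pos
  have h6 : 0 < 1 - nu a b c r := lt_of_lt_of_le (by positivity) h3
  have h7 : ∑ x ∈ range r, ∑ y ∈ range r, ind a b c r x y = nu a b c r * (r : ℝ) ^ 2 := by
    rw [nu, av, sm, div_mul_cancel₀ _ (by positivity)]
  refine ⟨fun _ _ _ _ hx hy => by simp only [ph, per_ind a b c r _ _ _ _ hx hy], fun x y => ?_, ?_, ?_⟩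
  · rw [ph, abs_div, abs_of_pos h6, div_le_iff₀ h6]
    rw [div_le_iff₀' (by positivity)] at h3
    refine le_trans (abs_le.2 ?_) h3
    unfold ind
    split_ifs <;> constructor <;> linarith
  · simp only [av, sm, ph, ← sum_div, sum_sub_distrib, h7, sum_const, card_range, nsmul_eq_mul]
    rw [show (r : ℝ) * (r * nu a b c r) - nu a b c r * (r : ℝ) ^ 2 = 0 by ring]
    simp
  · have h8 : ∀ x y, ph a b c r x y * ph a b c r x y = (nu a b c r ^ 2 +
        (1 - 2 * nu a b c r) * ind a b c r x y) / (1 - nu a b c r) ^ 2 := by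
      intro x y
      unfold ph ind
      split_ifs <;> field_simp <;> ring
    simp only [av, sm, h8, ← sum_div, sum_add_distrib, ← mul_sum, h7, sum_const, card_range,
      nsmul_eq_mul]
    field_simp
    ring

end Pool.Agent.MP_c481b3_nt.H63
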