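import Pool.Agent.MP_c481b3_nt.H63.Glow
import Pool.Agent.MP_c481b3_nt.H63.Form
import Pool.Agent.MP_c481b3_nt.H31.SpecN

/-! The sieve bound for the primes represented by one form. -/

namespace Pool.Agent.MP_c481b3_nt.H63

open Finset ArithmeticFunction Filter

theorem ev_log (K : ℝ) (n : ℕ) {s : ℝ} (hs : 0 < s) :
    ∀ᶠ x : ℝ in atTop, K * Real.log x ^ n ≤ x ^ s := by
  have h := ((isLittleO_log_rpow_rpow_atTop (n : ℝ) hs).const_mul_left K).eventuallyLE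
  filter_upwards [h, eventually_ge_atTop 0] with x h1 h2
  rw [Real.rpow_natCast, Real.norm_of_nonneg (Real.rpow_nonneg h2 s)] at h1
  exact (le_abs_self _).trans h1

/-- the main factor of the sieve bound -/
noncomputable def rt (a b c : ℤ) (p : ℕ) (S : Finset ℕ) (z : ℕ) : ℝ :=
  (∏ r ∈ S, av r (wt a b c r)) / Gs (fun r => nu a b c r / (1 - nu a b c r)) (Ps p S z) z

theorem rt_facts {a b c : ℤ} {p : ℕ} (h : a * c - b ^ 2 = p) (hp : p.Prime) (hp2 : p ≠ 2)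
    {S : Finset ℕ} (hS : ∀ r ∈ S, r.Prime ∧ r ≠ 2) (hpS : p ∉ S) {z : ℕ} (hz : 1 ≤ z) :
    0 ≤ rt a b c p S z ∧ rt a b c p S z ≤ 1 / 2 ^ S.card ∧ rt a b c p S z *
      ∑ n ∈ Ioc 0 z, ((zeta : ArithmeticFunction ℝ) * ja (-p)) n / n ≤ 32 / 2 ^ S.card := by
  have hν : ∀ r : ℕ, r.Prime → r ≠ 2 → r ≠ p → 0 < 1 - nu a b c r := fun r h1 h2 h3 =>
    lt_of_lt_of_le (by have := h1.pos; positivity) (nu_le h hp h1 h2 h3)
  have hrp : ∀ r ∈ S, r ≠ p := fun r hr h3 => hpS (h3 ▸ hr)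
  have hG := one_le_Gs (g := fun r => nu a b c r / (1 - nu a b c r)) (P := Ps p S z)
    (fun r hr => by
      obtain ⟨-, h1, h2, h3, -⟩ := mem_filter.1 hr
      exact div_nonneg (nu_nonneg a b c r) (hν r h1 h2 h3).le) hz
  have h1 : ∏ r ∈ S, av r (wt a b c r) = (∏ r ∈ S, (1 - nu a b c r)) / 2 ^ S.card := by
    rw [prod_congr rfl fun r hr => av_wt h hp (hS r hr).1 (hS r hr).2 (hrp r hr), prod_div_distrib,
      prod_const]
  have h2 : 0 ≤ ∏ r ∈ S, (1 - nu a b c r) :=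
    prod_nonneg fun r hr => (hν r (hS r hr).1 (hS r hr).2 (hrp r hr)).le
  have h3 : ∏ r ∈ S, (1 - nu a b c r) ≤ 1 :=
    prod_le_one (fun r hr => (hν r (hS r hr).1 (hS r hr).2 (hrp r hr)).le)
      fun r _ => by linarith [nu_nonneg a b c r]
  have h4 := G_lower h hp hp2 S hS hpS z
  rw [rt, h1]
  refine ⟨by positivity, (div_le_self (by positivity) hG).trans (by gcongr), ?_⟩
  rw [div_mul_eq_mul_div, div_le_iff₀ (by linarith), div_mul_eq_mul_div, div_mul_eq_mul_div,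
    mul_comm]
  gcongr

theorem Red.sieve {a b c : ℤ} {p : ℕ} (h : Red a b c p) (hp : p.Prime) (hp2 : p ≠ 2)
    {S : Finset ℕ} (hS : ∀ r ∈ S, r.Prime ∧ r ≠ 2) (hpS : p ∉ S) {z N : ℕ} (hz : 1 ≤ z) (hN : 1 ≤ N)
    {T : Finset ℕ}
    (hT : ∀ l ∈ T, H31.Gd S l ∧ z < l ∧ l ≤ N ∧ ∃ x y : ℕ, (4 * l : ℤ) = Qf a b c x y) :
    (T.card : ℝ) ≤ 8 * N / √(p : ℝ) * rt a b c p S z + 7 * √(N : ℝ) +
      16 * (∏ r ∈ S, (r : ℝ)) * (z : ℝ) ^ 8 * √(N : ℝ) := by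
  classical
  set X := ⌊√(8 * N / a : ℝ)⌋₊
  set W := ⌊√(8 * N / c : ℝ)⌋₊
  set B := (range (X + 1) ×ˢ range (W + 1)).filter fun v : ℕ × ℕ =>
    ∃ l ∈ T, (4 * l : ℤ) = Qf a b c v.1 v.2 with hB
  have h1 : T.card ≤ B.card := by
    refine card_le_card_of_surjOn (fun v : ℕ × ℕ => (Qf a b c v.1 v.2 / 4).toNat) fun l hl => ?_
    obtain ⟨-, -, h2, x, y, h3⟩ := hT l hl
    obtain ⟨h4, h5⟩ := h.box h2 h3
    refine ⟨(x, y), mem_coe.2 (mem_filter.2 ⟨mem_product.2 ⟨mem_range.2 (Nat.lt_succ_of_le h4),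
      mem_range.2 (Nat.lt_succ_of_le h5)⟩, l, hl, h3⟩), ?_⟩
    simp [← h3]
  have h2 := selberg (Ps p S z) S (fun r hr => (mem_filter.1 hr).2.1) (fun r hr => (hS r hr).1)
    (disjoint_left.2 fun r hr => (mem_filter.1 hr).2.2.2.2.1) (ph a b c) (wt a b c)
    (fun r => nu a b c r / (1 - nu a b c r))
    (fun r hr => by
      obtain ⟨-, h1, h2, h3, -⟩ := mem_filter.1 hr
      exact div_nonneg (nu_nonneg a b c r)
        (le_trans (by positivity) (nu_le h.det hp h1 h2 h3)))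
    (fun r hr => by
      obtain ⟨-, h1, h2, h3, -⟩ := mem_filter.1 hr
      exact ph_facts h.det hp h1 h2 h3)
    (fun r _ => ⟨per_wt a b c r, fun x y => by unfold wt; split_ifs <;> norm_num⟩) hz
    (X + 1) (W + 1) B (filter_subset _ _) fun v hv => by
      obtain ⟨l, hl, h3⟩ := (mem_filter.1 hv).2
      obtain ⟨⟨h4, -, h5⟩, h6, -⟩ := hT l hl
      refine ⟨fun r hr => ?_, fun r hr => ?_⟩
      · obtain ⟨h7, h8, h9, -⟩ := mem_filter.1 hr
        rw [ph, ind, if_neg, sub_zero]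
        rw [← h3]
        intro h10
        have h11 : r ∣ 4 * l := by exact_mod_cast h10
        rcases (Nat.Prime.dvd_mul h8).1 h11 with h12 | h12
        · exact h9 ((Nat.prime_dvd_prime_iff_eq h8 Nat.prime_two).1
            (h8.dvd_of_dvd_pow (n := 2) h12))
        · have := (Nat.prime_dvd_prime_iff_eq h8 h4).1 h12
          have := mem_range.1 h7
          omega
      · rw [wt, if_pos]
        rw [← h3, show -(4 * l : ℤ) = 4 * -l by ring, jacobiSym.mul_left, h5 r hr,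
          jacobiSym.at_four ((hS r hr).1.odd_of_ne_two (hS r hr).2), one_mul]
  obtain ⟨r0, r1, -⟩ := rt_facts h.det hp hp2 hS hpS hz
  have r2 : rt a b c p S z ≤ 1 := r1.trans ((div_le_one (by positivity)).2 (one_le_pow₀ one_le_two))
  have hN1 : 1 ≤ √(N : ℝ) := Real.one_le_sqrt.2 (by exact_mod_cast hN)
  have hsq : ∀ t : ℤ, 0 < t → √(8 * N / t : ℝ) ≤ 3 * √(N : ℝ) := fun t ht => by
    have h3 : (1 : ℝ) ≤ t := by exact_mod_cast ht
    refine Real.sqrt_le_iff.2 ⟨by positivity, (div_le_self (by positivity) h3).trans ?_⟩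
    rw [mul_pow, Real.sq_sqrt (by positivity)]
    nlinarith [Nat.cast_nonneg (α := ℝ) N]
  have h3 : (X : ℝ) ≤ √(8 * N / a : ℝ) := Nat.floor_le (Real.sqrt_nonneg _)
  have h4 : (W : ℝ) ≤ √(8 * N / c : ℝ) := Nat.floor_le (Real.sqrt_nonneg _)
  have h5 := hsq a h.pos
  have h6 := hsq c (h.pos.trans_le h.le)
  have h7 : (X : ℝ) * W ≤ 8 * N / √(p : ℝ) :=
    (mul_le_mul h3 h4 (by positivity) (by positivity)).trans (h.area hp.pos N)
  rw [mul_div_assoc, ← rt] at h2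
  push_cast at h2
  have h8 : ((X : ℝ) + 1) * (W + 1) * rt a b c p S z ≤
      8 * N / √(p : ℝ) * rt a b c p S z + 7 * √(N : ℝ) := by
    have e1 := mul_le_mul_of_nonneg_right h7 r0
    have e2 := mul_le_mul_of_nonneg_left r2 (show (0 : ℝ) ≤ X + W + 1 by positivity)
    nlinarith
  have h9 : 2 * (∏ r ∈ S, (r : ℝ)) * (z : ℝ) ^ 8 * (X + 1 + (W + 1)) ≤
      16 * (∏ r ∈ S, (r : ℝ)) * (z : ℝ) ^ 8 * √(N : ℝ) :=
    calc _ ≤ 2 * (∏ r ∈ S, (r : ℝ)) * (z : ℝ) ^ 8 * (8 * √(N : ℝ)) := by gcongr; linarith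
      _ = _ := by ring
  have h10 : (T.card : ℝ) ≤ B.card := by exact_mod_cast h1
  linarith

theorem rt_le : ∃ K Y0 : ℝ, 1 ≤ K ∧ ∀ Y : ℝ, Y0 ≤ Y → ∀ (a b c : ℤ) (p : ℕ) (S : Finset ℕ),
    a * c - b ^ 2 = p → p.Prime → p ≠ 2 → (∀ r ∈ S, r.Prime ∧ r ≠ 2) → p ∉ S →
    rt a b c p S ⌊Y ^ (1 / 40 : ℝ)⌋₊ / √(p : ℝ) ≤
      K * ((p : ℝ) ^ (-(1 / 8) : ℝ) / (2 ^ S.card * Real.log Y)) := by
  obtain ⟨c0, C0, hc0, hC0, hs⟩ := siegel (ε := 1 / 4) (by norm_num)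
  have e1 : ∀ᶠ Y : ℝ in atTop, 2 ≤ Y ^ (1 / 80 : ℝ) :=
    (tendsto_rpow_atTop (by norm_num)).eventually_ge_atTop 2
  have e2 := Real.tendsto_log_atTop.eventually (ev_log (C0 * 9 * 160 / c0) 2 (s := 1 / 4) (by norm_num))
  obtain ⟨Y0, hY0⟩ := eventually_atTop.1 (e1.and (e2.and
    ((Real.tendsto_log_atTop.eventually_ge_atTop 1).and (eventually_gt_atTop 0))))
  refine ⟨max 1 (32 * 160 / c0), Y0, le_max_left _ _, fun Y hY a b c p S h hp hp2 hS hpS => ?_⟩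
  obtain ⟨f1, f2, f3, f4⟩ := hY0 Y hY
  set L := Real.log Y with hL
  set z := ⌊Y ^ (1 / 40 : ℝ)⌋₊ with hz
  have hz1 : Y ^ (1 / 80 : ℝ) ≤ z := by
    have h1 : Y ^ (1 / 40 : ℝ) = Y ^ (1 / 80 : ℝ) * Y ^ (1 / 80 : ℝ) := by
      rw [← Real.rpow_add f4]; norm_num
    have h2 := Nat.lt_floor_add_one (Y ^ (1 / 40 : ℝ))
    rw [← hz, h1] at h2
    nlinarith
  have hz2 : 1 ≤ z := by
    have : (1 : ℝ) ≤ z := by linarith
    exact_mod_cast this
  obtain ⟨r0, r1, r2⟩ := rt_facts h hp hp2 hS hpS hz2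
  have hp1 : (1 : ℝ) ≤ p := by exact_mod_cast hp.pos
  have hp0 : (0 : ℝ) < p := by linarith
  rw [Real.sqrt_eq_rpow, div_le_iff₀ (by positivity)]
  have he : ∀ K : ℝ, K * ((p : ℝ) ^ (-(1 / 8) : ℝ) / (2 ^ S.card * L)) * (p : ℝ) ^ (1 / 2 : ℝ) =
      K * (p : ℝ) ^ (3 / 8 : ℝ) / L / 2 ^ S.card := fun K => by
    have : (p : ℝ) ^ (3 / 8 : ℝ) = (p : ℝ) ^ (-(1 / 8) : ℝ) * (p : ℝ) ^ (1 / 2 : ℝ) := by
      rw [← Real.rpow_add hp0]; norm_num
    rw [this]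
    field_simp
  rw [he]
  by_cases hc : L ^ 3 ≤ p
  · refine r1.trans (div_le_div_of_nonneg_right ?_ (by positivity))
    rw [le_div_iff₀ (by linarith), one_mul]
    have h1 : L ≤ (p : ℝ) ^ (3 / 8 : ℝ) := by
      refine le_trans ?_ (Real.rpow_le_rpow (by positivity) hc (by norm_num))
      rw [← Real.rpow_natCast, ← Real.rpow_mul (by linarith)]
      exact Real.self_le_rpow_of_one_le f3 (by norm_num)
    exact h1.trans (le_mul_of_one_le_left (by positivity) (le_max_left _ _))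
  · replace hc := (not_le.1 hc).le
    have h1 := hs p z hp hp2
    have h2 : ∀ n : ℕ, ((∑ d ∈ n.divisors, jz (-p) d : ℤ) : ℝ) =
        ((zeta : ArithmeticFunction ℝ) * ja (-p)) n := fun n => by
      rw [coe_zeta_mul_apply]
      simp only [ja_apply, Int.cast_sum]
    simp only [h2] at h1
    have h3 : L / 80 ≤ Real.log z := by
      refine le_trans (le_of_eq ?_) (Real.log_le_log (by positivity) hz1)
      rw [Real.log_rpow f4]; ring
    have h4 : Real.log p ≤ 3 * Real.log L := by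
      refine (Real.log_le_log hp0 hc).trans (le_of_eq ?_)
      rw [Real.log_pow]; norm_num
    have h5 : L ^ (1 / 4 : ℝ) ≤ (p : ℝ) ^ (-(1 / 4) : ℝ) * L := by
      have h6 := Real.rpow_le_rpow_of_nonpos hp0 hc (show (-(1 / 4) : ℝ) ≤ 0 by norm_num)
      refine le_trans (le_of_eq ?_) (mul_le_mul_of_nonneg_right h6 (by linarith))
      rw [← Real.rpow_natCast, ← Real.rpow_mul (by linarith), ← Real.rpow_add_one (by linarith)]
      norm_num
    have h6 : C0 * Real.log p ^ 2 ≤ c0 / 160 * ((p : ℝ) ^ (-(1 / 4) : ℝ) * L) := by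
      have h7 := pow_le_pow_left₀ (Real.log_nonneg hp1) h4 2
      calc _ ≤ C0 * (3 * Real.log L) ^ 2 := by gcongr
        _ = c0 / 160 * (C0 * 9 * 160 / c0 * Real.log L ^ 2) := by field_simp; ring
        _ ≤ _ := mul_le_mul_of_nonneg_left (f2.trans h5) (by positivity)
    have h7 : c0 / 160 * ((p : ℝ) ^ (-(1 / 4) : ℝ) * L) ≤
        ∑ n ∈ Ioc 0 z, ((zeta : ArithmeticFunction ℝ) * ja (-p)) n / n := by
      have := mul_le_mul_of_nonneg_left h3 (show 0 ≤ c0 * (p : ℝ) ^ (-(1 / 4) : ℝ) by positivity)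
      linarith
    have h8 := (mul_le_mul_of_nonneg_left h7 r0).trans r2
    rw [← le_div_iff₀ (by positivity)] at h8
    refine h8.trans ?_
    have h9 : (p : ℝ) ^ (1 / 4 : ℝ) ≤ (p : ℝ) ^ (3 / 8 : ℝ) :=
      Real.rpow_le_rpow_of_exponent_le hp1 (by norm_num)
    calc _ = 32 * 160 / c0 * (p : ℝ) ^ (1 / 4 : ℝ) / L / 2 ^ S.card := by
          rw [Real.rpow_neg hp0.le]; field_simp
      _ ≤ _ := by gcongr; exact le_max_right _ _

theorem cover : H31.Cover := by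
  classical
  obtain ⟨K, Y0, hK, hrt⟩ := rt_le
  refine ⟨max (max 49 Y0) (16 * K), 1 / 8, le_trans (by norm_num)
    ((le_max_left 49 Y0).trans (le_max_left _ _)), by norm_num,
    fun S Y p l0 hS hY hq hp hp2 hpS hl0 hl2 _ => ?_⟩
  set C := max (max 49 Y0) (16 * K) with hC
  have c1 : 49 ≤ C := (le_max_left 49 Y0).trans (le_max_left _ _)
  have c2 : Y0 ≤ C := (le_max_right 49 Y0).trans (le_max_left _ _)
  have c3 : 16 * K ≤ C := le_max_right _ _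
  have hY1 : 1 ≤ Y := by linarith
  have hY0 : 0 < Y := by linarith
  set T := (range (⌊Y⌋₊ + 1)).filter fun l =>
    H31.Gd S l ∧ ∃ a b : ℤ, 4 * (l0 : ℤ) * l = a ^ 2 + p * b ^ 2 with hT
  set z := ⌊Y ^ (1 / 40 : ℝ)⌋₊ with hz
  have hw : 1 ≤ Y ^ (1 / 40 : ℝ) := Real.one_le_rpow hY1 (by norm_num)
  have hz1 : 1 ≤ z := (Nat.one_le_floor_iff _).2 hw
  have hz2 : (z : ℝ) ≤ Y ^ (1 / 40 : ℝ) := Nat.floor_le (by positivity)
  have hN1 : 1 ≤ ⌊Y⌋₊ := (Nat.one_le_floor_iff _).2 hY1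
  have hN2 : (⌊Y⌋₊ : ℝ) ≤ Y := Nat.floor_le hY0.le
  have hq1 : 1 ≤ ∏ r ∈ S, (r : ℝ) := by
    rw [← Nat.cast_prod]
    exact_mod_cast prod_pos fun r hr => (hS r hr).1.pos
  have hq2 : ∏ r ∈ S, (r : ℝ) ≤ Y ^ (1 / 40 : ℝ) := by
    rw [one_div, Real.le_rpow_inv_iff_of_pos (by linarith) hY0.le (by norm_num)]
    exact (Real.rpow_le_rpow_of_exponent_le hq1 (by linarith)).trans hq
  have hu : ∀ t : ℝ, t ≤ 7 / 8 → Y ^ t ≤ Y ^ (1 - 1 / 8 : ℝ) := fun t ht =>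
    Real.rpow_le_rpow_of_exponent_le hY1 (by linarith)
  have hs : √(⌊Y⌋₊ : ℝ) ≤ Y ^ (1 / 2 : ℝ) := by
    rw [← Real.sqrt_eq_rpow]; exact Real.sqrt_le_sqrt hN2
  set E := (p : ℝ) ^ (-(1 / 8) : ℝ) * Y / (2 ^ S.card * Real.log Y) with hE
  have key : ∀ a b c : ℤ, Red a b c p →
      ((T.filter fun l : ℕ => z < l ∧ ∃ x y : ℕ, (4 * l : ℤ) = Qf a b c x y).card : ℝ) ≤
        8 * K * E + 23 * Y ^ (1 - 1 / 8 : ℝ) := by
    intro a b c h
    refine (h.sieve hp hp2 hS hpS hz1 hN1 fun l hl => ?_).trans ?_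
    · obtain ⟨h1, h2, h3⟩ := mem_filter.1 hl
      obtain ⟨h4, h5, -⟩ := mem_filter.1 h1
      exact ⟨h5, h2, Nat.lt_succ_iff.1 (mem_range.1 h4), h3⟩
    have h1 := hrt Y (by linarith) a b c p S h.det hp hp2 hS hpS
    have h2 := (rt_facts h.det hp hp2 hS hpS hz1).1
    have h3 : 8 * (⌊Y⌋₊ : ℝ) / √(p : ℝ) * rt a b c p S z ≤ 8 * K * E :=
      calc _ = 8 * (⌊Y⌋₊ : ℝ) * (rt a b c p S z / √(p : ℝ)) := by ring
        _ ≤ 8 * Y * (K * ((p : ℝ) ^ (-(1 / 8) : ℝ) / (2 ^ S.card * Real.log Y))) := by gcongr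
        _ = _ := by rw [hE]; ring
    have h4 : 16 * (∏ r ∈ S, (r : ℝ)) * (z : ℝ) ^ 8 * √(⌊Y⌋₊ : ℝ) ≤ 16 * Y ^ (1 - 1 / 8 : ℝ) :=
      calc _ ≤ 16 * Y ^ (1 / 40 : ℝ) * (Y ^ (1 / 40 : ℝ)) ^ 8 * Y ^ (1 / 2 : ℝ) := by gcongr
        _ = 16 * Y ^ (29 / 40 : ℝ) := by
          rw [← Real.rpow_natCast, ← Real.rpow_mul hY0.le, mul_assoc, mul_assoc,
            ← Real.rpow_add hY0, ← Real.rpow_add hY0]
          norm_num
        _ ≤ _ := by gcongr; norm_num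
    linarith [hs.trans (hu _ (by norm_num))]
  obtain ⟨a, b, c, h1, h2⟩ := class_form hp.pos hl0 hl2 (T := T) fun l hl =>
    ⟨(mem_filter.1 hl).2.1.1, (mem_filter.1 hl).2.2⟩
  have h3 := key a b c h1
  have h4 := key a (-b) c h1.neg
  have h5 : T.card ≤ (1 + (z + 1)) +
      ((T.filter fun l : ℕ => z < l ∧ ∃ x y : ℕ, (4 * l : ℤ) = Qf a b c x y).card +
      (T.filter fun l : ℕ => z < l ∧ ∃ x y : ℕ, (4 * l : ℤ) = Qf a (-b) c x y).card) := by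
    refine le_trans (card_le_card (t := ({l0} ∪ range (z + 1)) ∪ (_ ∪ _)) fun l hl => ?_)
      ((card_union_le _ _).trans (add_le_add ((card_union_le _ _).trans (by simp))
        (card_union_le _ _)))
    by_cases h6 : z < l
    · rcases h2 l hl with h5 | h5 | h5
      · exact mem_union_left _ (mem_union_left _ (mem_singleton.2 h5))
      · exact mem_union_right _ (mem_union_left _ (mem_filter.2 ⟨hl, h6, h5⟩))
      · exact mem_union_right _ (mem_union_right _ (mem_filter.2 ⟨hl, h6, h5⟩))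
    · exact mem_union_left _ (mem_union_right _ (mem_range.2 (by omega)))
  have h6 := (Nat.cast_le (α := ℝ)).2 h5
  push_cast at h6
  have h7 := hz2.trans (hu _ (by norm_num))
  have h8 := hw.trans (hu _ (by norm_num))
  have h9 : 0 ≤ E := by have := Real.log_nonneg hY1; positivity
  have h10 := mul_le_mul_of_nonneg_right c3 h9
  have h11 := mul_le_mul_of_nonneg_right c1 (show 0 ≤ Y ^ (1 - 1 / 8 : ℝ) by positivity)
  rw [mul_add]
  linarith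

end Pool.Agent.MP_c481b3_nt.H63
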